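import Mathlib

/-!
# Higher-dimensional Hadamard matrices of order `2 t`: definitions

`HadT ι V`: there is a `± 1` array indexed by `ι → V` with orthogonal parallel slices.
-/

set_option autoImplicit false

namespace H880H

open Finset

/-! ### Arrays -/

/-- There is a `± 1` array indexed by `ι → V` whose parallel slices are orthogonal. -/
def HadT (ι V : Type) [Fintype ι] [DecidableEq ι] [Fintype V] : Prop :=
  ∃ A : (ι → V) → ℤ, (∀ i, A i = 1 ∨ A i = -1) ∧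
    ∀ (l : ι) (x y : V), x ≠ y →
      ∑ i : ι → V, A (Function.update i l x) * A (Function.update i l y) = 0

/-! ### Systems of four functions -/

/-- correlation -/
def Co {Y : Type} [AddCommGroup Y] [Fintype Y] (a b : Y → ℤ) (s : Y) : ℤ :=
  ∑ y, a y * b (y + s)

/-- A system of order `|X|`: four even `± 1` functions on `Y`, "perfect on `Z₂² × Y`" in the
directions `u 0 X, …, u 3 X`. -/
structure Sys {X Y : Type} [AddCommGroup X] [AddCommGroup Y] [Fintype X] [Fintype Y]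
    (u : Fin 4 → X →+ Y) (f : Fin 4 → Y → ℤ) : Prop where
  sign : ∀ k y, f k y = 1 ∨ f k y = -1
  even : ∀ k y, f k (-y) = f k y
  gen : ∀ (l : Fin 4) (y : Y), ∃ x : Fin 4 → X, x l = 0 ∧ ∑ j, u j (x j) = y
  c0 : ∀ (l : Fin 4) (x : X), x ≠ 0 → Co (f 0) (f 0) (u l x) + Co (f 1) (f 1) (u l x) +
    Co (f 2) (f 2) (u l x) + Co (f 3) (f 3) (u l x) = 0
  c1 : ∀ (l : Fin 4) (x : X), Co (f 0) (f 1) (u l x) + Co (f 2) (f 3) (u l x) = 0
  c2 : ∀ (l : Fin 4) (x : X), Co (f 0) (f 2) (u l x) + Co (f 1) (f 3) (u l x) = 0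
  c3 : ∀ (l : Fin 4) (x : X), Co (f 0) (f 3) (u l x) + Co (f 1) (f 2) (u l x) = 0

/-- There is a system of order `t`. -/
def Good (t : ℕ) : Prop :=
  ∃ (X Y : Type) (_ : AddCommGroup X) (_ : AddCommGroup Y) (_ : Fintype X) (_ : Fintype Y)
    (u : Fin 4 → X →+ Y) (f : Fin 4 → Y → ℤ), Fintype.card X = t ∧ Sys u f

/-- Admissible vectors: all entries `± 1` with product `- 1`, or one entry `± 2` and the others
`0`. -/
def Adm (v : Fin 4 → ℤ) : Prop :=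
  ((∀ i, v i = 1 ∨ v i = -1) ∧ v 0 * v 1 * v 2 * v 3 = -1) ∨
    ∃ j, (v j = 2 ∨ v j = -2) ∧ ∀ i, i ≠ j → v i = 0

/-- The system after the change of basis by the Hadamard matrix of order 4. -/
structure ASys {X Y : Type} [AddCommGroup X] [AddCommGroup Y] [Fintype X] [Fintype Y]
    (u : Fin 4 → X →+ Y) (α : Fin 4 → Y → ℤ) : Prop where
  adm : ∀ y, Adm (fun k => α k y)
  even : ∀ k y, α k (-y) = α k y
  gen : ∀ (l : Fin 4) (y : Y), ∃ x : Fin 4 → X, x l = 0 ∧ ∑ j, u j (x j) = y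
  energy : ∀ k, ∑ y, α k y ^ 2 = Fintype.card Y
  corr : ∀ (k l : Fin 4) (x : X), x ≠ 0 → Co (α k) (α k) (u l x) = 0

/-! ### The construction over a field -/

/-- The parameters of one function. -/
structure Par where
  s : ℤ
  a : ℤ
  a' : ℤ
  g : ℤ
  h : ℤ
  e0 : ℤ
  e1 : ℤ
  ew : Fin 4 → ℤ
  p1 : ℤ
  p2 : ℤ
  p3 : ℤ
  da : ℤ
  db : ℤ
  al0 : ℤ

section field

variable {F : Type} [Field F] [Fintype F] [DecidableEq F]

/-- `± 1` on generic points -/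
def base (P : Par) (x y z : F) : ℤ :=
  P.s * quadraticChar F (z * x * (x - y) * (y - z)) +
  (if x = y then P.a * quadraticChar F (x * (x - z)) else 0) +
  (if z = 0 then P.a' * quadraticChar F (x * y) else 0) +
  (if y = z then P.g * quadraticChar F ((x - y) * y) else 0) +
  (if x = 0 then P.h * quadraticChar F (y * z) else 0)

/-- the corrections on the line `y = z`, `x / y = c` -/
def ecor (P : Par) (w : Fin 4 → F) (c : F) : ℤ :=
  (if c = 0 then P.e0 else 0) + (if c = 1 then P.e1 else 0) +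
    ∑ i, if c = w i then P.ew i else 0

/-- the corrections -/
def cor (P : Par) (w : Fin 4 → F) (x y z : F) : ℤ :=
  (if y = z ∧ y ≠ 0 then ecor P w (x / y) else 0) +
  (if y = 0 ∧ z = 0 ∧ x ≠ 0 then P.p1 else 0) +
  (if x = 0 ∧ z = 0 ∧ y ≠ 0 then P.p2 else 0) +
  (if x = 0 ∧ y = 0 ∧ z ≠ 0 then P.p3 else 0) +
  (if y = 0 ∧ x = z ∧ x ≠ 0 then P.da else 0) +
  (if z = 0 ∧ x = y ∧ x ≠ 0 then P.db else 0) +
  (if x = 0 ∧ y = 0 ∧ z = 0 then P.al0 else 0)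

/-- one of the four functions -/
def alp (P : Par) (w : Fin 4 → F) (x y z : F) : ℤ := base P x y z + cor P w x y z

/-- the four functions on `F³` -/
def alps (P : Fin 4 → Par) (w : Fin 4 → F) (k : Fin 4) (v : F × F × F) : ℤ :=
  if k = 0 ∨ k = 1 then alp (P k) w v.1 v.2.1 v.2.2 else alp (P k) w v.1 v.2.2 v.2.1

/-- the four directions -/
def dir (F : Type) [Field F] : Fin 4 → F →+ F × F × F :=
  ![AddMonoidHom.mk' (fun x => (x, 0, 0)) (by intro a b; simp),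
    AddMonoidHom.mk' (fun x => (0, x, 0)) (by intro a b; simp),
    AddMonoidHom.mk' (fun x => (0, 0, x)) (by intro a b; simp),
    AddMonoidHom.mk' (fun x => (x, x, x)) (by intro a b; simp)]

/-- the exceptional points: `χ (w i) = c1 i`, `χ (w i - 1) = c2 i` -/
structure Wok (c1 c2 : Fin 4 → ℤ) (w : Fin 4 → F) : Prop where
  inj : Function.Injective w
  ne0 : ∀ i, w i ≠ 0
  ne1 : ∀ i, w i ≠ 1
  h1 : ∀ i, quadraticChar F (w i) = c1 i
  h2 : ∀ i, quadraticChar F (w i - 1) = c2 i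

end field

/-- sign -/
def Sg (x : ℤ) : Prop := x = 1 ∨ x = -1

/-- all basic parameters are signs -/
structure Par.Sgn (P : Par) : Prop where
  s : Sg P.s
  a : Sg P.a
  a' : Sg P.a'
  g : Sg P.g
  h : Sg P.h
  al0 : Sg P.al0

/-- the sums of squares of the line sums are as they should be; `io = χ (-1)` -/
structure Par.Ok (P : Par) (io : ℤ) (c1 c2 : Fin 4 → ℤ) : Prop where
  energy : (P.s * io + P.da) ^ 2 + (P.a + P.a' + P.db) ^ 2 + (P.g * io + P.h + P.e0) ^ 2 +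
    P.p1 ^ 2 + P.p2 ^ 2 + P.p3 ^ 2 + P.e1 ^ 2 +
    ∑ i, (2 * (P.g * c2 i) * P.ew i + P.ew i ^ 2) = 7
  q1 : ∀ q : ℤ, 3 * (q - 2) + 2 * (P.s * P.a + P.s * P.h - io * P.a * P.h) +
    (P.s * io * (q - 1) + P.p3 + P.da) ^ 2 + (P.h + P.e0 + P.e1 + ∑ i, P.ew i) ^ 2 +
    (P.a + P.db + P.p2) ^ 2 = q ^ 2 + q + 1 - (q - 1) * P.p1 ^ 2 - 2 * P.al0 * P.p1
  q2 : ∀ q : ℤ, 3 * (q - 2) + 2 * (P.s * P.a + P.s * io * P.g - P.a * P.g) +
    (P.s * io * (q - 1) + P.da + P.e1) ^ 2 + (P.g * io + P.p3 + P.e0) ^ 2 +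
    (P.a + P.p1 + P.db) ^ 2 +
    ∑ i, (2 * P.ew i * (-P.s * io * c1 i + P.a * (c1 i * c2 i) + P.g * c2 i) + P.ew i ^ 2) =
    q ^ 2 + q + 1 - (q - 1) * P.p2 ^ 2 - 2 * P.al0 * P.p2
  q3 : ∀ q : ℤ, 3 * (q - 2) + 2 * (P.s * P.a' + P.s * io * P.g - P.a' * P.g) +
    (P.s * io * (q - 1) + P.p1 + P.da) ^ 2 + (P.g * io + P.p2 + P.e0) ^ 2 +
    (P.a' + P.db + P.e1) ^ 2 +
    ∑ i, (2 * P.ew i * (-P.s * io * (c1 i * c2 i) + P.a' * c1 i + P.g * c2 i) + P.ew i ^ 2) =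
    q ^ 2 + q + 1 - (q - 1) * P.p3 ^ 2 - 2 * P.al0 * P.p3
  q4 : ∀ q : ℤ, 3 * (q - 2) + 2 * (P.s * P.a' + P.s * P.h - io * P.a' * P.h) +
    (P.s * io * (q - 1) + P.p2 + P.da) ^ 2 + (P.h + P.p1 + P.e0 + ∑ i, P.ew i) ^ 2 +
    (P.a' + P.db + P.p3) ^ 2 = q ^ 2 + q + 1 - (q - 1) * P.e1 ^ 2 - 2 * P.al0 * P.e1

/-- the four vectors fit together -/
structure Compat (P : Fin 4 → Par) (io : ℤ) (c2 : Fin 4 → ℤ) : Prop where
  sg : ∀ k, (P k).Sgn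
  s01 : (P 1).s = (P 0).s
  a01 : (P 1).a = (P 0).a
  a'01 : (P 1).a' = (P 0).a'
  s23 : (P 3).s = -(P 2).s
  a23 : (P 3).a = -(P 2).a
  a'23 : (P 3).a' = -(P 2).a'
  g : (P 0).g * (P 1).g * (P 2).g * (P 3).g = -1
  h : (P 0).h * (P 1).h * (P 2).h * (P 3).h = -1
  p1 : Adm (fun k => (P k).p1)
  p2 : Adm ![(P 0).p2, (P 1).p2, (P 2).p3, (P 3).p3]
  p3 : Adm ![(P 0).p3, (P 1).p3, (P 2).p2, (P 3).p2]
  p4 : Adm (fun k => (P k).e1)
  dA : Adm ![(P 0).s * io + (P 0).da, (P 1).s * io + (P 1).da,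
    (P 2).a + (P 2).a' + (P 2).db, (P 3).a + (P 3).a' + (P 3).db]
  dB : Adm ![(P 0).a + (P 0).a' + (P 0).db, (P 1).a + (P 1).a' + (P 1).db,
    (P 2).s * io + (P 2).da, (P 3).s * io + (P 3).da]
  dC : Adm (fun k => (P k).g * io + (P k).h + (P k).e0)
  ew : ∀ i, Adm (fun k => (P k).g * c2 i + (P k).ew i)
  al0 : (P 0).al0 * (P 1).al0 * (P 2).al0 * (P 3).al0 = -1

/-! ### The tables -/

/-- classes of the exceptional points -/
def C1 : Fin 4 → ℤ := ![-1, -1, -1, 1]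

/-- classes of the exceptional points -/
def C2 : Fin 4 → ℤ := ![1, 1, -1, -1]

/-- parameters for `χ (-1) = 1` -/
def PP : Fin 4 → Par :=
  ![⟨1, -1, -1, -1, 1, -1, 2, ![1, 1, -1, -1], 2, 0, 0, -2, 1, -1⟩,
    ⟨1, -1, -1, -1, 1, -1, 0, ![1, 1, -1, -1], 0, 2, 2, -2, 1, 1⟩,
    ⟨1, -1, -1, -1, 1, 1, 0, ![-1, 3, -1, -1], 0, 0, 0, 0, 1, -1⟩,
    ⟨-1, 1, 1, 1, -1, -1, 0, ![-1, -1, -1, 3], 0, 0, 0, 0, -1, -1⟩]

/-- parameters for `χ (-1) = -1` -/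
def MM : Fin 4 → Par :=
  ![⟨1, 1, 1, 1, 1, 1, -2, ![-1, -1, 1, 1], -2, 0, 0, 2, -1, 1⟩,
    ⟨1, 1, 1, -1, -1, -1, 0, ![1, 1, -1, -1], 0, -2, -2, 2, -1, -1⟩,
    ⟨-1, 1, 1, 1, 1, 1, 0, ![-3, 1, 1, 1], 0, 0, 0, 0, -3, -1⟩,
    ⟨1, -1, -1, 1, 1, 1, 0, ![-1, -1, -1, -1], 0, 0, 0, 0, 3, -1⟩]

end H880H
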