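import Mathlib
import Pool.Agent.H880H.Defs

/-!
# A system of order 5 (task T7)
-/

set_option autoImplicit false

namespace H880H

open Finset

/-- codes of the four functions -/
def T7_N : Fin 4 → ℕ :=
  ![8444561100531692861813440385085430209, 33646628747424262252820065296091483424,
    29792302456054166285382815221051998049, 20814663358383993424838388497642688577]

/-- value from the code -/
def T7_bit (N i : ℕ) : ℤ := if N.testBit i then -1 else 1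

/-- the four functions -/
def T7_f (k : Fin 4) (v : ZMod 5 × ZMod 5 × ZMod 5) : ℤ :=
  T7_bit (T7_N k) (25 * v.1.val + 5 * v.2.1.val + v.2.2.val)

/-- the shift of the index -/
def T7_sh (d : ℕ × ℕ × ℕ) (i j k : ℕ) : ℕ :=
  25 * ((i + d.1) % 5) + 5 * ((j + d.2.1) % 5) + (k + d.2.2) % 5

/-- correlation with natural numbers -/
def T7_Co (M N : ℕ) (d : ℕ × ℕ × ℕ) : ℤ :=
  ∑ i ∈ range 5, ∑ j ∈ range 5, ∑ k ∈ range 5,
    T7_bit M (25 * i + 5 * j + k) * T7_bit N (T7_sh d i j k)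

theorem T7_sum (g : ℕ → ℤ) : ∑ x : ZMod 5, g x.val = ∑ i ∈ range 5, g i :=
  Fin.sum_univ_eq_sum_range g 5

theorem T7_Co_eq (a b : Fin 4) (s : ZMod 5 × ZMod 5 × ZMod 5) :
    Co (T7_f a) (T7_f b) s = T7_Co (T7_N a) (T7_N b) (s.1.val, s.2.1.val, s.2.2.val) := by
  unfold Co T7_Co
  rw [Fintype.sum_prod_type]
  rw [← T7_sum (fun i => ∑ j ∈ range 5, ∑ k ∈ range 5,
    T7_bit (T7_N a) (25 * i + 5 * j + k) *
      T7_bit (T7_N b) (T7_sh (s.1.val, s.2.1.val, s.2.2.val) i j k))]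
  refine Finset.sum_congr rfl fun x _ => ?_
  rw [Fintype.sum_prod_type]
  rw [← T7_sum (fun j => ∑ k ∈ range 5,
    T7_bit (T7_N a) (25 * x.val + 5 * j + k) *
      T7_bit (T7_N b) (T7_sh (s.1.val, s.2.1.val, s.2.2.val) x.val j k))]
  refine Finset.sum_congr rfl fun y _ => ?_
  rw [← T7_sum (fun k =>
    T7_bit (T7_N a) (25 * x.val + 5 * y.val + k) *
      T7_bit (T7_N b) (T7_sh (s.1.val, s.2.1.val, s.2.2.val) x.val y.val k))]
  refine Finset.sum_congr rfl fun z _ => ?_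
  unfold T7_f T7_sh
  simp only [Prod.fst_add, Prod.snd_add, ZMod.val_add]

/-- the directions -/
def T7_d (l x : ℕ) : ℕ × ℕ × ℕ :=
  if l = 0 then (x, 0, 0) else if l = 1 then (0, x, 0) else if l = 2 then (0, 0, x) else (x, x, x)

/-- the directions -/
def T7_u : Fin 4 → ZMod 5 →+ ZMod 5 × ZMod 5 × ZMod 5 :=
  ![AddMonoidHom.mk' (fun x => (x, 0, 0)) (by intro a b; simp),
    AddMonoidHom.mk' (fun x => (0, x, 0)) (by intro a b; simp),
    AddMonoidHom.mk' (fun x => (0, 0, x)) (by intro a b; simp),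
    AddMonoidHom.mk' (fun x => (x, x, x)) (by intro a b; simp)]

theorem T7_u_val (l : Fin 4) (x : ZMod 5) :
    ((T7_u l x).1.val, (T7_u l x).2.1.val, (T7_u l x).2.2.val) = T7_d l.val x.val := by
  fin_cases l <;> simp [T7_u, T7_d]

theorem T7_c0 : ∀ l < 4, ∀ x < 5, x ≠ 0 →
    T7_Co (T7_N 0) (T7_N 0) (T7_d l x) + T7_Co (T7_N 1) (T7_N 1) (T7_d l x) +
    T7_Co (T7_N 2) (T7_N 2) (T7_d l x) + T7_Co (T7_N 3) (T7_N 3) (T7_d l x) = 0 := by
  decide +kernel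

theorem T7_c1 : ∀ l < 4, ∀ x < 5,
    T7_Co (T7_N 0) (T7_N 1) (T7_d l x) + T7_Co (T7_N 2) (T7_N 3) (T7_d l x) = 0 := by
  decide +kernel

theorem T7_c2 : ∀ l < 4, ∀ x < 5,
    T7_Co (T7_N 0) (T7_N 2) (T7_d l x) + T7_Co (T7_N 1) (T7_N 3) (T7_d l x) = 0 := by
  decide +kernel

theorem T7_c3 : ∀ l < 4, ∀ x < 5,
    T7_Co (T7_N 0) (T7_N 3) (T7_d l x) + T7_Co (T7_N 1) (T7_N 2) (T7_d l x) = 0 := by
  decide +kernel

theorem T7_even : ∀ (k : Fin 4) (x y z : ZMod 5), T7_f k (-x, -y, -z) = T7_f k (x, y, z) := by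
  decide +kernel

theorem T7_gen (l : Fin 4) (y : ZMod 5 × ZMod 5 × ZMod 5) :
    ∃ x : Fin 4 → ZMod 5, x l = 0 ∧ ∑ j, T7_u j (x j) = y := by
  obtain ⟨a, b, c⟩ := y
  fin_cases l
  · refine ⟨![0, b - a, c - a, a], rfl, ?_⟩
    simp [Fin.sum_univ_four, T7_u]
  · refine ⟨![a - b, 0, c - b, b], rfl, ?_⟩
    simp [Fin.sum_univ_four, T7_u]
  · refine ⟨![a - c, b - c, 0, c], rfl, ?_⟩
    simp [Fin.sum_univ_four, T7_u]
  · refine ⟨![a, b, c, 0], rfl, ?_⟩
    simp [Fin.sum_univ_four, T7_u]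

theorem T7_sys : Sys T7_u T7_f where
  sign k y := by
    unfold T7_f T7_bit
    split_ifs
    · right; rfl
    · left; rfl
  even k y := by
    obtain ⟨a, b, c⟩ := y
    exact T7_even k a b c
  gen := T7_gen
  c0 l x hx := by
    simp only [T7_Co_eq, T7_u_val]
    apply T7_c0 l.val l.isLt x.val (ZMod.val_lt x)
    rwa [Ne, ZMod.val_eq_zero]
  c1 l x := by
    simp only [T7_Co_eq, T7_u_val]
    exact T7_c1 l.val l.isLt x.val (ZMod.val_lt x)
  c2 l x := by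
    simp only [T7_Co_eq, T7_u_val]
    exact T7_c2 l.val l.isLt x.val (ZMod.val_lt x)
  c3 l x := by
    simp only [T7_Co_eq, T7_u_val]
    exact T7_c3 l.val l.isLt x.val (ZMod.val_lt x)

/-- T7 -/
theorem good_five : Good 5 :=
  ⟨ZMod 5, ZMod 5 × ZMod 5 × ZMod 5, inferInstance, inferInstance, inferInstance, inferInstance,
    T7_u, T7_f, ZMod.card 5, T7_sys⟩

end H880H
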