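import Pool.Agent.H880H.Defs

/-!
# Systems multiply (Turyn composition)
-/

set_option autoImplicit false

namespace H880H

open Finset

/-- the tensor identity -/
theorem T4_tensor {Y Z : Type} [AddCommGroup Y] [AddCommGroup Z] [Fintype Y] [Fintype Z]
    (p q p' q' : Y → ℤ) (a b a' b' : Z → ℤ) (h h' : Y × Z → ℤ)
    (hh : ∀ v, 2 * h v = p v.1 * a v.2 + q v.1 * b v.2)
    (hh' : ∀ v, 2 * h' v = p' v.1 * a' v.2 + q' v.1 * b' v.2) (s : Y × Z) :
    4 * Co h h' s = Co p p' s.1 * Co a a' s.2 + Co p q' s.1 * Co a b' s.2 +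
      Co q p' s.1 * Co b a' s.2 + Co q q' s.1 * Co b b' s.2 := by
  have e1 : 4 * Co h h' s = ∑ v : Y × Z, (2 * h v) * (2 * h' (v + s)) := by
    unfold Co
    rw [Finset.mul_sum]
    refine Finset.sum_congr rfl fun v _ => ?_
    ring
  rw [e1]
  unfold Co
  rw [Fintype.sum_prod_type]
  simp only [Finset.sum_mul_sum]
  rw [← Finset.sum_add_distrib, ← Finset.sum_add_distrib, ← Finset.sum_add_distrib]
  refine Finset.sum_congr rfl fun y _ => ?_
  rw [← Finset.sum_add_distrib, ← Finset.sum_add_distrib, ← Finset.sum_add_distrib]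
  refine Finset.sum_congr rfl fun z _ => ?_
  rw [hh, hh']
  simp only [Prod.fst_add, Prod.snd_add]
  ring

/-- correlations of even functions are symmetric -/
theorem T4_symm {Y : Type} [AddCommGroup Y] [Fintype Y] (a b : Y → ℤ)
    (ha : ∀ y, a (-y) = a y) (hb : ∀ y, b (-y) = b y) (s : Y) : Co a b s = Co b a s := by
  unfold Co
  let e : Y ≃ Y := (Equiv.neg Y).trans (Equiv.addRight (-s))
  have he : ∀ y, e y = -y - s := by
    intro y
    simp [e, sub_eq_add_neg]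
  rw [← Equiv.sum_comp e]
  refine Finset.sum_congr rfl fun y _ => ?_
  rw [he]
  have h1 : a (-y - s) = a (y + s) := by
    rw [← ha (y + s)]
    congr 1
    abel
  have h2 : b (-y - s + s) = b y := by
    rw [← hb y]
    congr 1
    abel
  rw [h1, h2]
  ring

theorem T4_pp {Y : Type} [AddCommGroup Y] [Fintype Y] (a b c d : Y → ℤ) (s : Y) :
    Co (fun y => a y + b y) (fun y => c y + d y) s = Co a c s + Co a d s + Co b c s + Co b d s := by
  unfold Co
  rw [← Finset.sum_add_distrib, ← Finset.sum_add_distrib, ← Finset.sum_add_distrib]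
  refine Finset.sum_congr rfl fun y _ => ?_
  ring

theorem T4_pm {Y : Type} [AddCommGroup Y] [Fintype Y] (a b c d : Y → ℤ) (s : Y) :
    Co (fun y => a y + b y) (fun y => c y - d y) s = Co a c s - Co a d s + Co b c s - Co b d s := by
  unfold Co
  rw [← Finset.sum_sub_distrib, ← Finset.sum_add_distrib, ← Finset.sum_sub_distrib]
  refine Finset.sum_congr rfl fun y _ => ?_
  ring

theorem T4_mp {Y : Type} [AddCommGroup Y] [Fintype Y] (a b c d : Y → ℤ) (s : Y) :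
    Co (fun y => a y - b y) (fun y => c y + d y) s = Co a c s + Co a d s - Co b c s - Co b d s := by
  unfold Co
  rw [← Finset.sum_add_distrib, ← Finset.sum_sub_distrib, ← Finset.sum_sub_distrib]
  refine Finset.sum_congr rfl fun y _ => ?_
  ring

theorem T4_mm {Y : Type} [AddCommGroup Y] [Fintype Y] (a b c d : Y → ℤ) (s : Y) :
    Co (fun y => a y - b y) (fun y => c y - d y) s = Co a c s - Co a d s - Co b c s + Co b d s := by
  unfold Co
  rw [← Finset.sum_sub_distrib, ← Finset.sum_sub_distrib, ← Finset.sum_add_distrib]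
  refine Finset.sum_congr rfl fun y _ => ?_
  ring

/-- one of the new functions -/
def T4h {Y Z : Type} (f f' : Y → ℤ) (g g' : Z → ℤ) (v : Y × Z) : ℤ :=
  if f v.1 = f' v.1 then f v.1 * g v.2 else f v.1 * g' v.2

theorem T4h_two {Y Z : Type} (f f' : Y → ℤ) (g g' : Z → ℤ)
    (hf : ∀ y, f y = 1 ∨ f y = -1) (hf' : ∀ y, f' y = 1 ∨ f' y = -1) (v : Y × Z) :
    2 * T4h f f' g g' v = (f v.1 + f' v.1) * g v.2 + (f v.1 - f' v.1) * g' v.2 := by
  unfold T4h
  rcases hf v.1 with h1 | h1 <;> rcases hf' v.1 with h2 | h2 <;> rw [h1, h2] <;> norm_num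

theorem T4h_sign {Y Z : Type} (f f' : Y → ℤ) (g g' : Z → ℤ)
    (hf : ∀ y, f y = 1 ∨ f y = -1)
    (hg : ∀ y, g y = 1 ∨ g y = -1) (hg' : ∀ y, g' y = 1 ∨ g' y = -1) (v : Y × Z) :
    T4h f f' g g' v = 1 ∨ T4h f f' g g' v = -1 := by
  unfold T4h
  split_ifs
  · rcases hf v.1 with h1 | h1 <;> rcases hg v.2 with h2 | h2 <;> rw [h1, h2] <;> norm_num
  · rcases hf v.1 with h1 | h1 <;> rcases hg' v.2 with h2 | h2 <;> rw [h1, h2] <;> norm_num

theorem T4h_even {Y Z : Type} [AddCommGroup Y] [AddCommGroup Z] (f f' : Y → ℤ) (g g' : Z → ℤ)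
    (hf : ∀ y, f (-y) = f y) (hf' : ∀ y, f' (-y) = f' y)
    (hg : ∀ y, g (-y) = g y) (hg' : ∀ y, g' (-y) = g' y) (v : Y × Z) :
    T4h f f' g g' (-v) = T4h f f' g g' v := by
  unfold T4h
  simp only [Prod.fst_neg, Prod.snd_neg, hf, hf', hg, hg']

/-- T4 -/
theorem good_mul {s t : ℕ} (hs : Good s) (ht : Good t) : Good (s * t) := by
  obtain ⟨X1, Y1, i1, i2, i3, i4, u1, f, hc1, S1⟩ := hs
  obtain ⟨X2, Y2, j1, j2, j3, j4, u2, g, hc2, S2⟩ := ht
  refine ⟨X1 × X2, Y1 × Y2, inferInstance, inferInstance, inferInstance, inferInstance,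
    fun l => AddMonoidHom.prodMap (u1 l) (u2 l),
    ![T4h (f 0) (f 1) (g 0) (g 1), T4h (f 0) (f 1) (g 2) (g 3),
      T4h (f 2) (f 3) (g 0) (g 1), T4h (f 2) (f 3) (g 2) (g 3)], ?_, ?_⟩
  · rw [Fintype.card_prod, hc1, hc2]
  have cs : ∀ (i j : Fin 4) (s : Y1), Co (f i) (f j) s = Co (f j) (f i) s := fun i j s =>
    T4_symm _ _ (S1.even i) (S1.even j) s
  have ds : ∀ (i j : Fin 4) (s : Y2), Co (g i) (g j) s = Co (g j) (g i) s := fun i j s =>
    T4_symm _ _ (S2.even i) (S2.even j) s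
  have key : ∀ (i j k l i' j' k' l' : Fin 4) (s : Y1 × Y2),
      4 * Co (T4h (f i) (f j) (g k) (g l)) (T4h (f i') (f j') (g k') (g l')) s =
      (Co (f i) (f i') s.1 + Co (f i) (f j') s.1 + Co (f j) (f i') s.1 + Co (f j) (f j') s.1) *
        Co (g k) (g k') s.2 +
      (Co (f i) (f i') s.1 - Co (f i) (f j') s.1 + Co (f j) (f i') s.1 - Co (f j) (f j') s.1) *
        Co (g k) (g l') s.2 +
      (Co (f i) (f i') s.1 + Co (f i) (f j') s.1 - Co (f j) (f i') s.1 - Co (f j) (f j') s.1) *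
        Co (g l) (g k') s.2 +
      (Co (f i) (f i') s.1 - Co (f i) (f j') s.1 - Co (f j) (f i') s.1 + Co (f j) (f j') s.1) *
        Co (g l) (g l') s.2 := by
    intro i j k l i' j' k' l' s
    rw [T4_tensor (fun y => f i y + f j y) (fun y => f i y - f j y)
      (fun y => f i' y + f j' y) (fun y => f i' y - f j' y) (g k) (g l) (g k') (g l') _ _
      (T4h_two _ _ _ _ (S1.sign i) (S1.sign j)) (T4h_two _ _ _ _ (S1.sign i') (S1.sign j')) s,
      T4_pp, T4_pm, T4_mp, T4_mm]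
  have hu : ∀ (l : Fin 4) (x : X1 × X2),
      (AddMonoidHom.prodMap (u1 l) (u2 l)) x = (u1 l x.1, u2 l x.2) := fun l x => rfl
  constructor
  · intro k
    fin_cases k
    · exact T4h_sign _ _ _ _ (S1.sign 0) (S2.sign 0) (S2.sign 1)
    · exact T4h_sign _ _ _ _ (S1.sign 0) (S2.sign 2) (S2.sign 3)
    · exact T4h_sign _ _ _ _ (S1.sign 2) (S2.sign 0) (S2.sign 1)
    · exact T4h_sign _ _ _ _ (S1.sign 2) (S2.sign 2) (S2.sign 3)
  · intro k
    fin_cases k
    · exact T4h_even _ _ _ _ (S1.even 0) (S1.even 1) (S2.even 0) (S2.even 1)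
    · exact T4h_even _ _ _ _ (S1.even 0) (S1.even 1) (S2.even 2) (S2.even 3)
    · exact T4h_even _ _ _ _ (S1.even 2) (S1.even 3) (S2.even 0) (S2.even 1)
    · exact T4h_even _ _ _ _ (S1.even 2) (S1.even 3) (S2.even 2) (S2.even 3)
  · intro l y
    obtain ⟨x1, hx1, h1⟩ := S1.gen l y.1
    obtain ⟨x2, hx2, h2⟩ := S2.gen l y.2
    refine ⟨fun j => (x1 j, x2 j), ?_, ?_⟩
    · simp only [hx1, hx2]
      rfl
    · simp only [hu]
      refine Prod.ext ?_ ?_
      · rw [Prod.fst_sum]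
        exact h1
      · rw [Prod.snd_sum]
        exact h2
  · intro l x hx
    have a1 := S1.c1 l x.1
    have b1 := S2.c1 l x.2
    have k0 := key 0 1 0 1 0 1 0 1 (u1 l x.1, u2 l x.2)
    have k1 := key 0 1 2 3 0 1 2 3 (u1 l x.1, u2 l x.2)
    have k2 := key 2 3 0 1 2 3 0 1 (u1 l x.1, u2 l x.2)
    have k3 := key 2 3 2 3 2 3 2 3 (u1 l x.1, u2 l x.2)
    have e1 := cs 1 0 (u1 l x.1)
    have e2 := cs 3 2 (u1 l x.1)
    have e3 := ds 1 0 (u2 l x.2)
    have e4 := ds 3 2 (u2 l x.2)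
    have tot : 4 * (Co (T4h (f 0) (f 1) (g 0) (g 1)) (T4h (f 0) (f 1) (g 0) (g 1)) (u1 l x.1, u2 l x.2) +
        Co (T4h (f 0) (f 1) (g 2) (g 3)) (T4h (f 0) (f 1) (g 2) (g 3)) (u1 l x.1, u2 l x.2) +
        Co (T4h (f 2) (f 3) (g 0) (g 1)) (T4h (f 2) (f 3) (g 0) (g 1)) (u1 l x.1, u2 l x.2) +
        Co (T4h (f 2) (f 3) (g 2) (g 3)) (T4h (f 2) (f 3) (g 2) (g 3)) (u1 l x.1, u2 l x.2)) =
        (Co (f 0) (f 0) (u1 l x.1) + Co (f 1) (f 1) (u1 l x.1) + Co (f 2) (f 2) (u1 l x.1) +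
          Co (f 3) (f 3) (u1 l x.1)) *
        (Co (g 0) (g 0) (u2 l x.2) + Co (g 1) (g 1) (u2 l x.2) + Co (g 2) (g 2) (u2 l x.2) +
          Co (g 3) (g 3) (u2 l x.2)) := by
      dsimp only at k0 k1 k2 k3
      rw [e1, e3] at k0
      rw [e1, e4] at k1
      rw [e2, e3] at k2
      rw [e2, e4] at k3
      have ha : Co (f 2) (f 3) (u1 l x.1) = - Co (f 0) (f 1) (u1 l x.1) := by linarith
      have hb : Co (g 2) (g 3) (u2 l x.2) = - Co (g 0) (g 1) (u2 l x.2) := by linarith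
      rw [hb] at k1
      rw [ha] at k2
      rw [ha, hb] at k3
      linear_combination k0 + k1 + k2 + k3
    have zero : (Co (f 0) (f 0) (u1 l x.1) + Co (f 1) (f 1) (u1 l x.1) + Co (f 2) (f 2) (u1 l x.1) +
          Co (f 3) (f 3) (u1 l x.1)) *
        (Co (g 0) (g 0) (u2 l x.2) + Co (g 1) (g 1) (u2 l x.2) + Co (g 2) (g 2) (u2 l x.2) +
          Co (g 3) (g 3) (u2 l x.2)) = 0 := by
      by_cases hx1 : x.1 = 0
      · have hx2 : x.2 ≠ 0 := fun hx2 => hx (Prod.ext hx1 hx2)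
        rw [S2.c0 l x.2 hx2, mul_zero]
      · rw [S1.c0 l x.1 hx1, zero_mul]
    rw [zero] at tot
    have := (mul_eq_zero.mp tot).resolve_left (by norm_num)
    exact this
  · intro l x
    have a1 := S1.c1 l x.1
    have b1 := S2.c1 l x.2
    have b2 := S2.c2 l x.2
    have b3 := S2.c3 l x.2
    have k0 := key 0 1 0 1 0 1 2 3 (u1 l x.1, u2 l x.2)
    have k1 := key 2 3 0 1 2 3 2 3 (u1 l x.1, u2 l x.2)
    have e1 := cs 1 0 (u1 l x.1)
    have e2 := cs 3 2 (u1 l x.1)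
    dsimp only at k0 k1
    rw [e1] at k0
    rw [e2] at k1
    have ha : Co (f 2) (f 3) (u1 l x.1) = - Co (f 0) (f 1) (u1 l x.1) := by linarith
    have hb : Co (g 1) (g 3) (u2 l x.2) = - Co (g 0) (g 2) (u2 l x.2) := by linarith
    have hc : Co (g 1) (g 2) (u2 l x.2) = - Co (g 0) (g 3) (u2 l x.2) := by linarith
    rw [hb, hc] at k0 k1
    rw [ha] at k1
    have tot : 4 * (Co (T4h (f 0) (f 1) (g 0) (g 1)) (T4h (f 0) (f 1) (g 2) (g 3))
          (u1 l x.1, u2 l x.2) +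
        Co (T4h (f 2) (f 3) (g 0) (g 1)) (T4h (f 2) (f 3) (g 2) (g 3)) (u1 l x.1, u2 l x.2)) = 0 := by
      linear_combination k0 + k1
    exact (mul_eq_zero.mp tot).resolve_left (by norm_num)
  · intro l x
    have a2 := S1.c2 l x.1
    have a3 := S1.c3 l x.1
    have b1 := S2.c1 l x.2
    have k0 := key 0 1 0 1 2 3 0 1 (u1 l x.1, u2 l x.2)
    have k1 := key 0 1 2 3 2 3 2 3 (u1 l x.1, u2 l x.2)
    have e3 := ds 1 0 (u2 l x.2)
    have e4 := ds 3 2 (u2 l x.2)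
    dsimp only at k0 k1
    rw [e3] at k0
    rw [e4] at k1
    have ha : Co (f 1) (f 3) (u1 l x.1) = - Co (f 0) (f 2) (u1 l x.1) := by linarith
    have hb : Co (f 1) (f 2) (u1 l x.1) = - Co (f 0) (f 3) (u1 l x.1) := by linarith
    have hc : Co (g 2) (g 3) (u2 l x.2) = - Co (g 0) (g 1) (u2 l x.2) := by linarith
    rw [ha, hb] at k0 k1
    rw [hc] at k1
    have tot : 4 * (Co (T4h (f 0) (f 1) (g 0) (g 1)) (T4h (f 2) (f 3) (g 0) (g 1))
          (u1 l x.1, u2 l x.2) +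
        Co (T4h (f 0) (f 1) (g 2) (g 3)) (T4h (f 2) (f 3) (g 2) (g 3)) (u1 l x.1, u2 l x.2)) = 0 := by
      linear_combination k0 + k1
    exact (mul_eq_zero.mp tot).resolve_left (by norm_num)
  · intro l x
    have a2 := S1.c2 l x.1
    have a3 := S1.c3 l x.1
    have b2 := S2.c2 l x.2
    have b3 := S2.c3 l x.2
    have k0 := key 0 1 0 1 2 3 2 3 (u1 l x.1, u2 l x.2)
    have k1 := key 0 1 2 3 2 3 0 1 (u1 l x.1, u2 l x.2)
    have e3 := ds 2 0 (u2 l x.2)
    have e4 := ds 3 0 (u2 l x.2)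
    have e5 := ds 2 1 (u2 l x.2)
    have e6 := ds 3 1 (u2 l x.2)
    dsimp only at k0 k1
    rw [e3, e4, e5, e6] at k1
    have ha : Co (f 1) (f 3) (u1 l x.1) = - Co (f 0) (f 2) (u1 l x.1) := by linarith
    have hb : Co (f 1) (f 2) (u1 l x.1) = - Co (f 0) (f 3) (u1 l x.1) := by linarith
    have hc : Co (g 1) (g 3) (u2 l x.2) = - Co (g 0) (g 2) (u2 l x.2) := by linarith
    have hd : Co (g 1) (g 2) (u2 l x.2) = - Co (g 0) (g 3) (u2 l x.2) := by linarith
    rw [ha, hb, hc, hd] at k0 k1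
    have tot : 4 * (Co (T4h (f 0) (f 1) (g 0) (g 1)) (T4h (f 2) (f 3) (g 2) (g 3))
          (u1 l x.1, u2 l x.2) +
        Co (T4h (f 0) (f 1) (g 2) (g 3)) (T4h (f 2) (f 3) (g 0) (g 1)) (u1 l x.1, u2 l x.2)) = 0 := by
      linear_combination k0 + k1
    exact (mul_eq_zero.mp tot).resolve_left (by norm_num)

end H880H
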