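import Pool.Agent.H880H.Defs

/-!
# Statements of the tasks (never import this file in a finished module unless the row says so)
-/

set_option autoImplicit false

namespace H880H

open Finset

/-! ### arrays -/

/-- T1 -/
theorem had_congr {ι V ι' V' : Type} [Fintype ι] [DecidableEq ι] [Fintype V] [Fintype ι']
    [DecidableEq ι'] [Fintype V'] (e : ι ≃ ι') (e' : V ≃ V') (h : HadT ι V) : HadT ι' V' := by
  sorry

/-- T1 -/
theorem had_mul {ι V W : Type} [Fintype ι] [DecidableEq ι] [Fintype V] [Fintype W]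
    (hV : HadT ι V) (hW : HadT ι W) : HadT ι (V × W) := by
  sorry

/-- T1 -/
theorem had_four_two : HadT (Fin 4) Bool := by
  sorry

/-- T2 -/
theorem had_raise {ι V : Type} [Fintype ι] [DecidableEq ι] [Fintype V] [AddCommGroup V] (i₀ : ι)
    (h : HadT ι V) : HadT (Option ι) V := by
  sorry

/-- T3 -/
theorem had_of_sys {X Y : Type} [AddCommGroup X] [AddCommGroup Y] [Fintype X] [Fintype Y]
    {u : Fin 4 → X →+ Y} {f : Fin 4 → Y → ℤ} (h : Sys u f) : HadT (Fin 4) (Bool × X) := by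
  sorry

/-! ### systems -/

/-- T4 -/
theorem good_mul {s t : ℕ} (hs : Good s) (ht : Good t) : Good (s * t) := by
  sorry

/-- T5 -/
theorem sys_of_asys {X Y : Type} [AddCommGroup X] [AddCommGroup Y] [Fintype X] [Fintype Y]
    {u : Fin 4 → X →+ Y} {α : Fin 4 → Y → ℤ} (h : ASys u α) :
    ∃ f : Fin 4 → Y → ℤ, Sys u f := by
  sorry

/-- T6 -/
theorem good_one : Good 1 := by
  sorry

/-- T6 -/
theorem good_three : Good 3 := by
  sorry

/-- T7 -/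
theorem good_five : Good 5 := by
  sorry

/-! ### fields -/

section field

variable {F : Type} [Field F] [Fintype F] [DecidableEq F]

/-- T8 -/
theorem dir_gen (l : Fin 4) (y : F × F × F) :
    ∃ x : Fin 4 → F, x l = 0 ∧ ∑ j, dir F j (x j) = y := by
  sorry

/-- T9 -/
theorem chi_quad (hF : ringChar F ≠ 2) (a b : F) :
    ∑ x : F, quadraticChar F ((x - a) * (x - b)) =
      if a = b then (Fintype.card F : ℤ) - 1 else -1 := by
  sorry

/-- T9 -/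
theorem sq_sum (hF : ringChar F ≠ 2) (x y z : ℤ) :
    ∑ c ∈ univ.filter (fun c : F => c ≠ 0 ∧ c ≠ 1),
      (x * quadraticChar F c + y * quadraticChar F (c - 1) +
        z * quadraticChar F (c * (c - 1))) ^ 2 =
    ((Fintype.card F : ℤ) - 2) * (x ^ 2 + y ^ 2 + z ^ 2) - 2 * x * y -
      2 * quadraticChar F (-1) * x * z - 2 * y * z := by
  sorry

/-- T10 -/
theorem exists_w (hF : ringChar F ≠ 2)
    (h : (quadraticChar F (-1) = -1 ∧ 7 ≤ Fintype.card F) ∨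
      (quadraticChar F (-1) = 1 ∧ 9 ≤ Fintype.card F)) :
    ∃ w : Fin 4 → F, Wok C1 C2 w := by
  sorry

/-- T11: correlations of a function which is constant on lines -/
theorem line_corr (α : F → F → F → ℤ)
    (hom : ∀ c x y z : F, c ≠ 0 → α (c * x) (c * y) (c * z) = α x y z) (ξ : F) (hξ : ξ ≠ 0)
    (hE : ∑ x, ∑ y, ∑ z, α x y z ^ 2 = (Fintype.card F : ℤ) ^ 3) (h0 : α 0 0 0 ^ 2 = 1) :
    ∑ x, ∑ y, ∑ z, α x y z * α (x + ξ) y z =
      2 * α 0 0 0 * α 1 0 0 + ((Fintype.card F : ℤ) - 1) * α 1 0 0 ^ 2 +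
        (∑ c, (∑ x, α x c 1) ^ 2 + (∑ x, α x 1 0) ^ 2) -
        ((Fintype.card F : ℤ) ^ 2 + (Fintype.card F : ℤ) + 1) := by
  sorry

/-- T11: sums of squares of a function which is constant on lines -/
theorem line_energy (α : F → F → F → ℤ)
    (hom : ∀ c x y z : F, c ≠ 0 → α (c * x) (c * y) (c * z) = α x y z) :
    ∑ x, ∑ y, ∑ z, α x y z ^ 2 = α 0 0 0 ^ 2 + ((Fintype.card F : ℤ) - 1) *
      (α 1 0 0 ^ 2 + ∑ c, ∑ x, α x c 1 ^ 2 + ∑ x, α x 1 0 ^ 2) := by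
  sorry

/-- T12 -/
theorem alp_hom (P : Par) (w : Fin 4 → F) (c x y z : F) (hc : c ≠ 0) :
    alp P w (c * x) (c * y) (c * z) = alp P w x y z := by
  sorry

/-- T12 -/
theorem alp_points (P : Par) (w : Fin 4 → F) (h0 : ∀ i, w i ≠ 0) (h1 : ∀ i, w i ≠ 1) :
    alp P w 0 0 0 = P.al0 ∧ alp P w 1 0 0 = P.p1 ∧ alp P w 0 1 0 = P.p2 ∧
      alp P w 0 0 1 = P.p3 ∧ alp P w 1 1 1 = P.e1 := by
  sorry

/-- T13 -/
theorem alp_energy (hF : ringChar F ≠ 2) (P : Par) (w : Fin 4 → F) (c1 c2 : Fin 4 → ℤ)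
    (hw : Wok c1 c2 w) (hs : P.Sgn) (ho : P.Ok (quadraticChar F (-1)) c1 c2) :
    ∑ x, ∑ y, ∑ z, alp P w x y z ^ 2 = (Fintype.card F : ℤ) ^ 3 := by
  sorry

/-- T14 -/
theorem pencil1 (hF : ringChar F ≠ 2) (P : Par) (w : Fin 4 → F) (h0 : ∀ i, w i ≠ 0)
    (h1 : ∀ i, w i ≠ 1) :
    (∀ c : F, c ≠ 0 → c ≠ 1 → ∑ x, alp P w x c 1 =
      -P.s * quadraticChar F (c - 1) + P.a * quadraticChar F (c * (c - 1)) +
        P.h * quadraticChar F c) ∧
    ∑ x, alp P w x 0 1 =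
      P.s * quadraticChar F (-1) * ((Fintype.card F : ℤ) - 1) + P.p3 + P.da ∧
    ∑ x, alp P w x 1 1 = P.h + P.e0 + P.e1 + ∑ i, P.ew i ∧
    ∑ x, alp P w x 1 0 = P.a + P.db + P.p2 := by
  sorry

/-- T15 -/
theorem pencil2 (hF : ringChar F ≠ 2) (P : Par) (w : Fin 4 → F) (h0 : ∀ i, w i ≠ 0)
    (h1 : ∀ i, w i ≠ 1) :
    (∀ c : F, c ≠ 0 → c ≠ 1 → ∑ y, alp P w c y 1 =
      -P.s * quadraticChar F (-1) * quadraticChar F c + P.a * quadraticChar F (c * (c - 1)) +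
        P.g * quadraticChar F (c - 1) + ∑ i, if c = w i then P.ew i else 0) ∧
    ∑ y, alp P w 0 y 1 = P.g * quadraticChar F (-1) + P.p3 + P.e0 ∧
    ∑ y, alp P w 1 y 1 =
      P.s * quadraticChar F (-1) * ((Fintype.card F : ℤ) - 1) + P.da + P.e1 ∧
    ∑ y, alp P w 1 y 0 = P.a + P.p1 + P.db := by
  sorry

/-- T16 -/
theorem pencil3 (hF : ringChar F ≠ 2) (P : Par) (w : Fin 4 → F) (h0 : ∀ i, w i ≠ 0)
    (h1 : ∀ i, w i ≠ 1) :
    (∀ c : F, c ≠ 0 → c ≠ 1 → ∑ z, alp P w c 1 z =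
      -P.s * quadraticChar F (-1) * quadraticChar F (c * (c - 1)) +
        P.a' * quadraticChar F c +
        P.g * quadraticChar F (c - 1) + ∑ i, if c = w i then P.ew i else 0) ∧
    ∑ z, alp P w 0 1 z = P.g * quadraticChar F (-1) + P.p2 + P.e0 ∧
    ∑ z, alp P w 1 1 z = P.a' + P.db + P.e1 ∧
    ∑ z, alp P w 1 0 z =
      P.s * quadraticChar F (-1) * ((Fintype.card F : ℤ) - 1) + P.p1 + P.da := by
  sorry

/-- T17 -/
theorem pencil4 (hF : ringChar F ≠ 2) (P : Par) (w : Fin 4 → F) (h0 : ∀ i, w i ≠ 0)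
    (h1 : ∀ i, w i ≠ 1) :
    (∀ c : F, c ≠ 0 → c ≠ 1 → ∑ z, alp P w (z + c) (z + 1) z =
      -P.s * quadraticChar F (c - 1) + P.a' * quadraticChar F c +
        P.h * quadraticChar F (c * (c - 1))) ∧
    ∑ z, alp P w z (z + 1) z =
      P.s * quadraticChar F (-1) * ((Fintype.card F : ℤ) - 1) + P.p2 + P.da ∧
    ∑ z, alp P w (z + 1) (z + 1) z = P.a' + P.db + P.p3 ∧
    ∑ z, alp P w (z + 1) z z = P.h + P.p1 + P.e0 + ∑ i, P.ew i := by
  sorry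

/-- T18 -/
theorem corr1 (hF : ringChar F ≠ 2) (P : Par) (w : Fin 4 → F) (c1 c2 : Fin 4 → ℤ)
    (hw : Wok c1 c2 w) (hs : P.Sgn) (ho : P.Ok (quadraticChar F (-1)) c1 c2) (ξ : F)
    (hξ : ξ ≠ 0) : ∑ x, ∑ y, ∑ z, alp P w x y z * alp P w (x + ξ) y z = 0 := by
  sorry

/-- T19 -/
theorem corr2 (hF : ringChar F ≠ 2) (P : Par) (w : Fin 4 → F) (c1 c2 : Fin 4 → ℤ)
    (hw : Wok c1 c2 w) (hs : P.Sgn) (ho : P.Ok (quadraticChar F (-1)) c1 c2) (ξ : F)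
    (hξ : ξ ≠ 0) : ∑ x, ∑ y, ∑ z, alp P w x y z * alp P w x (y + ξ) z = 0 := by
  sorry

/-- T20 -/
theorem corr3 (hF : ringChar F ≠ 2) (P : Par) (w : Fin 4 → F) (c1 c2 : Fin 4 → ℤ)
    (hw : Wok c1 c2 w) (hs : P.Sgn) (ho : P.Ok (quadraticChar F (-1)) c1 c2) (ξ : F)
    (hξ : ξ ≠ 0) : ∑ x, ∑ y, ∑ z, alp P w x y z * alp P w x y (z + ξ) = 0 := by
  sorry

/-- T21 -/
theorem corr4 (hF : ringChar F ≠ 2) (P : Par) (w : Fin 4 → F) (c1 c2 : Fin 4 → ℤ)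
    (hw : Wok c1 c2 w) (hs : P.Sgn) (ho : P.Ok (quadraticChar F (-1)) c1 c2) (ξ : F)
    (hξ : ξ ≠ 0) : ∑ x, ∑ y, ∑ z, alp P w x y z * alp P w (x + ξ) (y + ξ) (z + ξ) = 0 := by
  sorry

/-- T22 -/
theorem alps_adm (hF : ringChar F ≠ 2) (P : Fin 4 → Par) (w : Fin 4 → F) (c1 c2 : Fin 4 → ℤ)
    (hw : Wok c1 c2 w) (hc : Compat P (quadraticChar F (-1)) c2) (v : F × F × F) :
    Adm (fun k => alps P w k v) := by
  sorry

/-- T23 -/
theorem asys_alps (hF : ringChar F ≠ 2) (P : Fin 4 → Par) (w : Fin 4 → F) (c1 c2 : Fin 4 → ℤ)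
    (hw : Wok c1 c2 w) (hc : Compat P (quadraticChar F (-1)) c2)
    (ho : ∀ k, (P k).Ok (quadraticChar F (-1)) c1 c2) : ASys (dir F) (alps P w) := by
  sorry

end field

/-! ### assembly -/

/-- T24 -/
theorem good_prime (p : ℕ) (hp : p.Prime) (h2 : p ≠ 2) : Good p := by
  sorry

/-- T25 -/
theorem good_odd (t : ℕ) (ht : Odd t) : Good t := by
  sorry

/-- T26 -/
theorem had_even (n t : ℕ) (hn : 4 ≤ n) (ht : 1 ≤ t) : HadT (Fin n) (Fin (2 * t)) := by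
  sorry

end H880H
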