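import Pool.Agent.H880H.Defs

set_option autoImplicit false

namespace H880H

open Finset

/-- T1 -/
theorem had_congr {ι V ι' V' : Type} [Fintype ι] [DecidableEq ι] [Fintype V] [Fintype ι']
    [DecidableEq ι'] [Fintype V'] (e : ι ≃ ι') (e' : V ≃ V') (h : HadT ι V) : HadT ι' V' := by
  obtain ⟨A, hA, hs⟩ := h
  refine ⟨fun i => A fun j => e'.symm (i (e j)), fun i => hA _, fun l x y hxy => ?_⟩
  have key : ∀ (f : ι → V) (x : V'),
      (fun j => e'.symm (Function.update (Equiv.arrowCongr e e' f) l x (e j))) =
        Function.update f (e.symm l) (e'.symm x) := by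
    intro f x
    funext j
    by_cases h : j = e.symm l
    · subst h
      simp
    · have h' : e j ≠ l := by
        rintro rfl
        simp at h
      rw [Function.update_of_ne h', Function.update_of_ne h]
      simp [Equiv.arrowCongr]
  rw [← Equiv.sum_comp (Equiv.arrowCongr e e')]
  simp only [key]
  exact hs _ _ _ (fun h => hxy (e'.symm.injective h))

/-- T1 -/
theorem had_mul {ι V W : Type} [Fintype ι] [DecidableEq ι] [Fintype V] [Fintype W]
    (hV : HadT ι V) (hW : HadT ι W) : HadT ι (V × W) := by
  obtain ⟨A, hA, hsA⟩ := hV
  obtain ⟨B, hB, hsB⟩ := hW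
  refine ⟨fun i => A (fun j => (i j).1) * B (fun j => (i j).2), fun i => ?_, fun l x y hxy => ?_⟩
  · show A (fun j => (i j).1) * B (fun j => (i j).2) = 1 ∨
      A (fun j => (i j).1) * B (fun j => (i j).2) = -1
    rcases hA (fun j => (i j).1) with h | h <;> rcases hB (fun j => (i j).2) with h' | h' <;>
      rw [h, h'] <;> simp
  · have e1 : ∀ (f : (ι → V) × (ι → W)) (x : V × W),
        (fun j => (Function.update (fun j => (f.1 j, f.2 j)) l x j).1) =
          Function.update f.1 l x.1 := by
      intro f x
      funext j
      by_cases h : j = l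
      · subst h; simp
      · simp [h]
    have e2 : ∀ (f : (ι → V) × (ι → W)) (x : V × W),
        (fun j => (Function.update (fun j => (f.1 j, f.2 j)) l x j).2) =
          Function.update f.2 l x.2 := by
      intro f x
      funext j
      by_cases h : j = l
      · subst h; simp
      · simp [h]
    let E : (ι → V) × (ι → W) ≃ (ι → V × W) :=
      { toFun := fun f j => (f.1 j, f.2 j)
        invFun := fun g => (fun j => (g j).1, fun j => (g j).2)
        left_inv := fun f => rfl
        right_inv := fun g => rfl }
    have e3 : ∀ f, E f = fun j => (f.1 j, f.2 j) := fun f => rfl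
    rw [← Equiv.sum_comp E]
    simp only [e3, e1, e2]
    rw [Fintype.sum_prod_type]
    have e4 : ∀ (a : ι → V) (b : ι → W),
        A (Function.update a l x.1) * B (Function.update b l x.2) *
          (A (Function.update a l y.1) * B (Function.update b l y.2)) =
        (A (Function.update a l x.1) * A (Function.update a l y.1)) *
          (B (Function.update b l x.2) * B (Function.update b l y.2)) := by
      intro a b; ring
    simp only [e4]
    rw [← Fintype.sum_mul_sum]
    by_cases h : x.1 = y.1
    · have h' : x.2 ≠ y.2 := fun h' => hxy (Prod.ext h h')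
      rw [hsB l _ _ h', mul_zero]
    · rw [hsA l _ _ h, zero_mul]

/-- T1 -/
theorem had_four_two : HadT (Fin 4) Bool := by
  refine ⟨fun i => if ((i 0 && i 1) ^^ (i 2 && i 3)) = true then -1 else 1, fun i => ?_, ?_⟩
  · dsimp only
    split_ifs <;> simp
  · decide +kernel

end H880H
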