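import Pool.Agent.H880H.Defs

/-! Task T10: consecutive (non)residues. -/

set_option autoImplicit false

namespace H880H

open Finset

variable {F : Type} [Field F] [Fintype F] [DecidableEq F]

theorem T10_sq (c : F) : quadraticChar F c ^ 2 = 1 - (if c = 0 then 1 else 0) := by
  by_cases hc : c = 0
  · simp [hc]
  · rw [quadraticChar_sq_one hc]
    simp [hc]

theorem T10_prod (hF : ringChar F ≠ 2) :
    ∑ c : F, quadraticChar F c * quadraticChar F (c - 1) = -1 := by
  have h1 : ∀ c : F, quadraticChar F c * quadraticChar F (c - 1) =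
      quadraticChar F (1 - c⁻¹) - (if c = 0 then 1 else 0) := by
    intro c
    by_cases hc : c = 0
    · simp [hc]
    · have h2 : c - 1 = c * (1 - c⁻¹) := by field_simp
      rw [h2, map_mul, ← mul_assoc, ← pow_two, quadraticChar_sq_one hc]
      simp [hc]
  rw [sum_congr rfl (fun c _ => h1 c), sum_sub_distrib]
  have h3 : ∑ c : F, quadraticChar F (1 - c⁻¹) = ∑ c : F, quadraticChar F c := by
    refine Fintype.sum_equiv ((Equiv.inv F).trans (Equiv.subLeft 1)) _ _ ?_
    intro c
    simp
  rw [h3, quadraticChar_sum_zero hF]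
  simp

theorem T10_pm (c : F) : quadraticChar F c = 0 ∨ quadraticChar F c = 1 ∨
    quadraticChar F c = -1 := by
  by_cases hc : c = 0
  · left; simp [hc]
  · right; exact quadraticChar_dichotomy hc

theorem T10_count (hF : ringChar F ≠ 2) (e1 e2 : ℤ) (h1 : e1 = 1 ∨ e1 = -1)
    (h2 : e2 = 1 ∨ e2 = -1) :
    4 * ((univ.filter (fun c : F => quadraticChar F c = e1 ∧
      quadraticChar F (c - 1) = e2)).card : ℤ) =
      (Fintype.card F : ℤ) - 2 - e1 - e2 * quadraticChar F (-1) - e1 * e2 := by
  have ht : ∀ c : F, 4 * (if quadraticChar F c = e1 ∧ quadraticChar F (c - 1) = e2 then (1 : ℤ)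
      else 0) = (1 - (if c = 0 then 1 else 0) - (if c = 1 then 1 else 0)) +
      e2 * (quadraticChar F (c - 1) - (if c = 0 then quadraticChar F (-1) else 0)) +
      e1 * (quadraticChar F c - (if c = 1 then 1 else 0)) +
      e1 * e2 * (quadraticChar F c * quadraticChar F (c - 1)) := by
    intro c
    by_cases hc0 : c = 0
    · subst hc0
      rw [if_neg]
      · simp
      · rintro ⟨h, -⟩
        rw [MulChar.map_zero] at h
        rcases h1 with h1 | h1 <;> omega
    · by_cases hc1 : c = 1
      · subst hc1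
        rw [if_neg]
        · simp
        · rintro ⟨-, h⟩
          rw [sub_self, MulChar.map_zero] at h
          rcases h2 with h2 | h2 <;> omega
      · have hc1' : c - 1 ≠ 0 := sub_ne_zero.mpr hc1
        have a1 := quadraticChar_dichotomy hc0
        have a2 := quadraticChar_dichotomy hc1'
        simp only [hc0, hc1, if_false]
        rcases h1 with h1 | h1 <;> rcases h2 with h2 | h2 <;> rcases a1 with a1 | a1 <;>
          rcases a2 with a2 | a2 <;> rw [a1, a2, h1, h2] <;> norm_num
  rw [card_filter]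
  push_cast
  rw [mul_sum, sum_congr rfl (fun c _ => ht c)]
  simp only [sum_add_distrib, sum_sub_distrib, ← mul_sum]
  have s1 : ∑ c : F, quadraticChar F (c - 1) = 0 := by
    rw [← quadraticChar_sum_zero hF]
    refine Fintype.sum_equiv (Equiv.subRight 1) _ _ ?_
    intro c
    simp
  rw [T10_prod hF, quadraticChar_sum_zero hF, s1]
  simp
  ring

/-- T10 -/
theorem exists_w (hF : ringChar F ≠ 2)
    (h : (quadraticChar F (-1) = -1 ∧ 7 ≤ Fintype.card F) ∨
      (quadraticChar F (-1) = 1 ∧ 9 ≤ Fintype.card F)) :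
    ∃ w : Fin 4 → F, Wok C1 C2 w := by
  have n1 := T10_count hF (-1) 1 (Or.inr rfl) (Or.inl rfl)
  have n2 := T10_count hF (-1) (-1) (Or.inr rfl) (Or.inr rfl)
  have n3 := T10_count hF 1 (-1) (Or.inl rfl) (Or.inr rfl)
  have k1 : 1 < (univ.filter (fun c : F => quadraticChar F c = -1 ∧
      quadraticChar F (c - 1) = 1)).card := by
    rcases h with ⟨h, hq⟩ | ⟨h, hq⟩ <;> rw [h] at n1 <;> omega
  have k2 : 0 < (univ.filter (fun c : F => quadraticChar F c = -1 ∧
      quadraticChar F (c - 1) = -1)).card := by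
    rcases h with ⟨h, hq⟩ | ⟨h, hq⟩ <;> rw [h] at n2 <;> omega
  have k3 : 0 < (univ.filter (fun c : F => quadraticChar F c = 1 ∧
      quadraticChar F (c - 1) = -1)).card := by
    rcases h with ⟨h, hq⟩ | ⟨h, hq⟩ <;> rw [h] at n3 <;> omega
  obtain ⟨w0, hw0, w1, hw1, h01⟩ := one_lt_card.mp k1
  obtain ⟨w2, hw2⟩ := card_pos.mp k2
  obtain ⟨w3, hw3⟩ := card_pos.mp k3
  simp only [mem_filter, mem_univ, true_and] at hw0 hw1 hw2 hw3
  have e1 : ∀ i, quadraticChar F ((![w0, w1, w2, w3] : Fin 4 → F) i) = C1 i := by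
    intro i
    fin_cases i <;> simp [C1, hw0.1, hw1.1, hw2.1, hw3.1]
  have e2 : ∀ i, quadraticChar F ((![w0, w1, w2, w3] : Fin 4 → F) i - 1) = C2 i := by
    intro i
    fin_cases i <;> simp [C2, hw0.2, hw1.2, hw2.2, hw3.2]
  refine ⟨![w0, w1, w2, w3], ?_, ?_, ?_, e1, e2⟩
  · intro i j hij
    have f1 : C1 i = C1 j := by rw [← e1 i, ← e1 j, hij]
    have f2 : C2 i = C2 j := by rw [← e2 i, ← e2 j, hij]
    revert hij f1 f2
    fin_cases i <;> fin_cases j <;> simp [C1, C2, h01, Ne.symm h01]
  · intro i hi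
    have := e1 i
    rw [hi, MulChar.map_zero] at this
    revert this
    fin_cases i <;> simp [C1]
  · intro i hi
    have := e2 i
    rw [hi, sub_self, MulChar.map_zero] at this
    revert this
    fin_cases i <;> simp [C2]

end H880H
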