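import Pool.Agent.H880H.Defs

/-! T11: functions which are constant on lines. -/

set_option autoImplicit false

namespace H880H

open Finset

variable {F : Type} [Field F] [Fintype F] [DecidableEq F]

theorem t11_erase (h : F → ℤ) : ∑ t ∈ univ.erase (0 : F), h t = (∑ t, h t) - h 0 := by
  have h2 := Finset.add_sum_erase (univ : Finset F) h (a := 0) (by simp)
  linarith

theorem t11_card : ((univ.erase (0 : F)).card : ℤ) = (Fintype.card F : ℤ) - 1 := by
  have h := t11_erase (fun _ : F => (1 : ℤ))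
  simpa using h

/-- splitting of a sum over the plane into lines -/
theorem t11_split (g : F → F → ℤ) :
    ∑ y, ∑ z, g y z = g 0 0 + ∑ t ∈ univ.erase (0 : F), ∑ c, g (t * c) t +
      ∑ t ∈ univ.erase (0 : F), g t 0 := by
  rw [Finset.sum_comm]
  have h1 := Finset.add_sum_erase (univ : Finset F) (fun z => ∑ y, g y z) (a := 0) (by simp)
  have h2 := Finset.add_sum_erase (univ : Finset F) (fun y => g y 0) (a := 0) (by simp)
  have h3 : ∑ t ∈ univ.erase (0 : F), ∑ c, g (t * c) t =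
      ∑ z ∈ univ.erase (0 : F), ∑ y, g y z := by
    refine Finset.sum_congr rfl fun t ht => ?_
    have ht0 : t ≠ 0 := Finset.ne_of_mem_erase ht
    exact Equiv.sum_comp (Equiv.mulLeft₀ t ht0) (fun y : F => g y t)
  rw [h3]
  linarith

theorem t11_rho (a : F → ℤ) (ξ : F) (hξ : ξ ≠ 0) :
    ∑ t ∈ univ.erase (0 : F), ∑ x, a x * a (x + ξ * t⁻¹) = (∑ x, a x) ^ 2 - ∑ x, a x ^ 2 := by
  rw [t11_erase]
  have h1 : ∑ t : F, ∑ x, a x * a (x + ξ * t⁻¹) = ∑ η : F, ∑ x, a x * a (x + η) :=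
    Equiv.sum_comp ((Function.Involutive.toPerm (fun x : F => x⁻¹) inv_involutive).trans
      (Equiv.mulLeft₀ ξ hξ)) (fun η : F => ∑ x, a x * a (x + η))
  rw [h1, Finset.sum_comm]
  have h2 : ∀ x : F, ∑ η : F, a x * a (x + η) = a x * ∑ y, a y := by
    intro x
    rw [← Finset.mul_sum]
    congr 1
    exact Equiv.sum_comp (Equiv.addLeft x) a
  rw [Finset.sum_congr rfl fun x _ => h2 x, ← Finset.sum_mul]
  simp only [inv_zero, mul_zero, add_zero]
  rw [pow_two]
  congr 1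
  exact Finset.sum_congr rfl fun x _ => by ring

omit [Fintype F] [DecidableEq F] in
theorem t11_const (α : F → F → F → ℤ)
    (hom : ∀ c x y z : F, c ≠ 0 → α (c * x) (c * y) (c * z) = α x y z) {x : F} (hx : x ≠ 0) :
    α x 0 0 = α 1 0 0 := by
  have := hom x 1 0 0 hx
  simpa using this

/-- T11: sums of squares of a function which is constant on lines -/
theorem line_energy (α : F → F → F → ℤ)
    (hom : ∀ c x y z : F, c ≠ 0 → α (c * x) (c * y) (c * z) = α x y z) :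
    ∑ x, ∑ y, ∑ z, α x y z ^ 2 = α 0 0 0 ^ 2 + ((Fintype.card F : ℤ) - 1) *
      (α 1 0 0 ^ 2 + ∑ c, ∑ x, α x c 1 ^ 2 + ∑ x, α x 1 0 ^ 2) := by
  have e0 : ∑ x, ∑ y, ∑ z, α x y z ^ 2 = ∑ y, ∑ z, ∑ x, α x y z ^ 2 := by
    rw [Finset.sum_comm]
    exact Finset.sum_congr rfl fun y _ => Finset.sum_comm
  rw [e0, t11_split (fun y z => ∑ x, α x y z ^ 2)]
  have h1 : ∑ x, α x 0 0 ^ 2 = α 0 0 0 ^ 2 + ((Fintype.card F : ℤ) - 1) * α 1 0 0 ^ 2 := by
    have h2 := t11_erase (fun x : F => α x 0 0 ^ 2)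
    have h3 : ∑ t ∈ univ.erase (0 : F), α t 0 0 ^ 2 =
        ((Fintype.card F : ℤ) - 1) * α 1 0 0 ^ 2 := by
      rw [Finset.sum_congr rfl fun t ht => by
        rw [t11_const α hom (Finset.ne_of_mem_erase ht)]]
      rw [Finset.sum_const, nsmul_eq_mul, t11_card]
    linarith
  have h4 : ∀ t ∈ univ.erase (0 : F), ∑ c, ∑ x, α x (t * c) t ^ 2 = ∑ c, ∑ x, α x c 1 ^ 2 := by
    intro t ht
    have ht0 : t ≠ 0 := Finset.ne_of_mem_erase ht
    refine Finset.sum_congr rfl fun c _ => ?_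
    rw [← Equiv.sum_comp (Equiv.mulLeft₀ t ht0) (fun x : F => α x (t * c) t ^ 2)]
    refine Finset.sum_congr rfl fun x _ => ?_
    have := hom t x c 1 ht0
    rw [mul_one] at this
    simp only [Equiv.mulLeft₀_apply]
    rw [this]
  have h5 : ∀ t ∈ univ.erase (0 : F), ∑ x, α x t 0 ^ 2 = ∑ x, α x 1 0 ^ 2 := by
    intro t ht
    have ht0 : t ≠ 0 := Finset.ne_of_mem_erase ht
    rw [← Equiv.sum_comp (Equiv.mulLeft₀ t ht0) (fun x : F => α x t 0 ^ 2)]
    refine Finset.sum_congr rfl fun x _ => ?_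
    have := hom t x 1 0 ht0
    rw [mul_one, mul_zero] at this
    simp only [Equiv.mulLeft₀_apply]
    rw [this]
  rw [Finset.sum_congr rfl h4, Finset.sum_congr rfl h5, Finset.sum_const, Finset.sum_const,
    nsmul_eq_mul, nsmul_eq_mul, t11_card, h1]
  ring

/-- T11: correlations of a function which is constant on lines -/
theorem line_corr (α : F → F → F → ℤ)
    (hom : ∀ c x y z : F, c ≠ 0 → α (c * x) (c * y) (c * z) = α x y z) (ξ : F) (hξ : ξ ≠ 0)
    (hE : ∑ x, ∑ y, ∑ z, α x y z ^ 2 = (Fintype.card F : ℤ) ^ 3) (h0 : α 0 0 0 ^ 2 = 1) :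
    ∑ x, ∑ y, ∑ z, α x y z * α (x + ξ) y z =
      2 * α 0 0 0 * α 1 0 0 + ((Fintype.card F : ℤ) - 1) * α 1 0 0 ^ 2 +
        (∑ c, (∑ x, α x c 1) ^ 2 + (∑ x, α x 1 0) ^ 2) -
        ((Fintype.card F : ℤ) ^ 2 + (Fintype.card F : ℤ) + 1) := by
  have e0 : ∑ x, ∑ y, ∑ z, α x y z * α (x + ξ) y z =
      ∑ y, ∑ z, ∑ x, α x y z * α (x + ξ) y z := by
    rw [Finset.sum_comm]
    exact Finset.sum_congr rfl fun y _ => Finset.sum_comm
  rw [e0, t11_split (fun y z => ∑ x, α x y z * α (x + ξ) y z)]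
  have hxi : -ξ ≠ 0 := neg_ne_zero.2 hξ
  have h1 : ∑ x, α x 0 0 * α (x + ξ) 0 0 =
      2 * α 0 0 0 * α 1 0 0 + ((Fintype.card F : ℤ) - 2) * α 1 0 0 ^ 2 := by
    have h2 := t11_erase (fun x : F => α x 0 0 * α (x + ξ) 0 0)
    have h3 := Finset.add_sum_erase (univ.erase (0 : F)) (fun x : F => α x 0 0 * α (x + ξ) 0 0)
      (a := -ξ) (by simp [hξ])
    have h4 : ∑ t ∈ (univ.erase (0 : F)).erase (-ξ), α t 0 0 * α (t + ξ) 0 0 =
        ((Fintype.card F : ℤ) - 2) * α 1 0 0 ^ 2 := by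
      have h5 : ∀ t ∈ (univ.erase (0 : F)).erase (-ξ), α t 0 0 * α (t + ξ) 0 0 =
          α 1 0 0 ^ 2 := by
        intro t ht
        rw [mem_erase, mem_erase] at ht
        have h6 : t + ξ ≠ 0 := fun h => ht.1 (eq_neg_of_add_eq_zero_left h)
        rw [t11_const α hom ht.2.1, t11_const α hom h6, pow_two]
      rw [Finset.sum_congr rfl h5, Finset.sum_const, nsmul_eq_mul]
      have h7 : (((univ.erase (0 : F)).erase (-ξ)).card : ℤ) = (Fintype.card F : ℤ) - 2 := by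
        have h8 := Finset.add_sum_erase (univ.erase (0 : F)) (fun _ : F => (1 : ℤ))
          (a := -ξ) (by simp [hξ])
        have h9 := t11_card (F := F)
        simp only [sum_const, nsmul_eq_mul, mul_one] at h8
        linarith
      rw [h7]
    simp only [zero_add, neg_add_cancel] at h2 h3
    rw [t11_const α hom hξ] at h2
    rw [t11_const α hom hxi] at h3
    linarith
  have h4 : ∑ t ∈ univ.erase (0 : F), ∑ c, ∑ x, α x (t * c) t * α (x + ξ) (t * c) t =
      ∑ c, ((∑ x, α x c 1) ^ 2 - ∑ x, α x c 1 ^ 2) := by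
    rw [Finset.sum_comm]
    refine Finset.sum_congr rfl fun c _ => ?_
    rw [← t11_rho (fun x => α x c 1) ξ hξ]
    refine Finset.sum_congr rfl fun t ht => ?_
    have ht0 : t ≠ 0 := Finset.ne_of_mem_erase ht
    rw [← Equiv.sum_comp (Equiv.mulLeft₀ t ht0)
      (fun x : F => α x (t * c) t * α (x + ξ) (t * c) t)]
    refine Finset.sum_congr rfl fun x _ => ?_
    have e1 := hom t x c 1 ht0
    have e2 := hom t (x + ξ * t⁻¹) c 1 ht0
    have e3 : t * (x + ξ * t⁻¹) = t * x + ξ := by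
      field_simp
    rw [mul_one] at e1 e2
    rw [e3] at e2
    simp only [Equiv.mulLeft₀_apply]
    rw [e1, e2]
  have h5 : ∑ t ∈ univ.erase (0 : F), ∑ x, α x t 0 * α (x + ξ) t 0 =
      (∑ x, α x 1 0) ^ 2 - ∑ x, α x 1 0 ^ 2 := by
    rw [← t11_rho (fun x => α x 1 0) ξ hξ]
    refine Finset.sum_congr rfl fun t ht => ?_
    have ht0 : t ≠ 0 := Finset.ne_of_mem_erase ht
    rw [← Equiv.sum_comp (Equiv.mulLeft₀ t ht0)
      (fun x : F => α x t 0 * α (x + ξ) t 0)]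
    refine Finset.sum_congr rfl fun x _ => ?_
    have e1 := hom t x 1 0 ht0
    have e2 := hom t (x + ξ * t⁻¹) 1 0 ht0
    have e3 : t * (x + ξ * t⁻¹) = t * x + ξ := by
      field_simp
    rw [mul_one, mul_zero] at e1 e2
    rw [e3] at e2
    simp only [Equiv.mulLeft₀_apply]
    rw [e1, e2]
  rw [h1, h4, h5, Finset.sum_sub_distrib]
  have hen := line_energy α hom
  rw [hE, h0] at hen
  have hq : (Fintype.card F : ℤ) - 1 ≠ 0 := by
    have h6 : 1 < Fintype.card F := Fintype.one_lt_card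
    omega
  have hcancel : α 1 0 0 ^ 2 + ∑ c, ∑ x, α x c 1 ^ 2 + ∑ x, α x 1 0 ^ 2 =
      (Fintype.card F : ℤ) ^ 2 + (Fintype.card F : ℤ) + 1 := by
    apply mul_left_cancel₀ hq
    linarith [show ((Fintype.card F : ℤ) - 1) * ((Fintype.card F : ℤ) ^ 2 +
      (Fintype.card F : ℤ) + 1) = (Fintype.card F : ℤ) ^ 3 - 1 by ring]
  linarith

end H880H
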