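import Pool.Agent.H880H.Defs

/-! Task T12: homogeneity and special points. -/

set_option autoImplicit false

namespace H880H

open Finset

section field

variable {F : Type} [Field F] [Fintype F] [DecidableEq F]

theorem T12_sq (c u : F) (hc : c ≠ 0) : quadraticChar F (c ^ 2 * u) = quadraticChar F u := by
  rw [map_mul, quadraticChar_sq_one' hc, one_mul]

/-- T12 -/
theorem alp_hom (P : Par) (w : Fin 4 → F) (c x y z : F) (hc : c ≠ 0) :
    alp P w (c * x) (c * y) (c * z) = alp P w x y z := by
  have e1 : quadraticChar F ((c * z) * (c * x) * (c * x - c * y) * (c * y - c * z)) =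
      quadraticChar F (z * x * (x - y) * (y - z)) := by
    rw [show (c * z) * (c * x) * (c * x - c * y) * (c * y - c * z) =
      c ^ 2 * (c ^ 2 * (z * x * (x - y) * (y - z))) by ring, T12_sq c _ hc, T12_sq c _ hc]
  have e2 : quadraticChar F ((c * x) * (c * x - c * z)) = quadraticChar F (x * (x - z)) := by
    rw [show (c * x) * (c * x - c * z) = c ^ 2 * (x * (x - z)) by ring, T12_sq c _ hc]
  have e3 : quadraticChar F ((c * x) * (c * y)) = quadraticChar F (x * y) := by
    rw [show (c * x) * (c * y) = c ^ 2 * (x * y) by ring, T12_sq c _ hc]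
  have e4 : quadraticChar F ((c * x - c * y) * (c * y)) = quadraticChar F ((x - y) * y) := by
    rw [show (c * x - c * y) * (c * y) = c ^ 2 * ((x - y) * y) by ring, T12_sq c _ hc]
  have e5 : quadraticChar F ((c * y) * (c * z)) = quadraticChar F (y * z) := by
    rw [show (c * y) * (c * z) = c ^ 2 * (y * z) by ring, T12_sq c _ hc]
  have i1 : ∀ a b : F, (c * a = c * b) = (a = b) := fun a b => propext (mul_right_inj' hc)
  have i2 : ∀ a : F, (c * a = 0) = (a = 0) := fun a => propext (by simp [hc])
  unfold alp base cor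
  rw [e1, e2, e3, e4, e5, mul_div_mul_left x y hc]
  simp only [ne_eq, i1, i2]

/-- T12 -/
theorem alp_points (P : Par) (w : Fin 4 → F) (h0 : ∀ i, w i ≠ 0) (h1 : ∀ i, w i ≠ 1) :
    alp P w 0 0 0 = P.al0 ∧ alp P w 1 0 0 = P.p1 ∧ alp P w 0 1 0 = P.p2 ∧
      alp P w 0 0 1 = P.p3 ∧ alp P w 1 1 1 = P.e1 := by
  refine ⟨?_, ?_, ?_, ?_, ?_⟩
  · simp [alp, base, cor]
  · simp [alp, base, cor]
  · simp [alp, base, cor]
  · simp [alp, base, cor]
  · have h2 : ∀ i, (1 : F) ≠ w i := fun i => (h1 i).symm
    simp [alp, base, cor, ecor, h2]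

end field

end H880H
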