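import Pool.Agent.H880H.T13a
import Pool.Agent.H880H.T11
import Pool.Agent.H880H.T12

set_option autoImplicit false

namespace H880H

open Finset

section field

variable {F : Type} [Field F] [Fintype F] [DecidableEq F]

/-- T13 -/
theorem alp_energy (hF : ringChar F ≠ 2) (P : Par) (w : Fin 4 → F) (c1 c2 : Fin 4 → ℤ)
    (hw : Wok c1 c2 w) (hs : P.Sgn) (ho : P.Ok (quadraticChar F (-1)) c1 c2) :
    ∑ x, ∑ y, ∑ z, alp P w x y z ^ 2 = (Fintype.card F : ℤ) ^ 3 := by
  obtain ⟨h0, h1, -, -, -⟩ := alp_points P w hw.ne0 hw.ne1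
  exact T13_main P w c1 c2 (line_energy _ fun c x y z hc => alp_hom P w c x y z hc) h0 h1 hw hs ho

end field

end H880H
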