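import Pool.Agent.H880H.Defs

set_option autoImplicit false

namespace H880H

open Finset

section field

variable {F : Type} [Field F] [Fintype F] [DecidableEq F]

theorem T13_sg {x : ℤ} (h : Sg x) : x ^ 2 = 1 := by
  rcases h with h | h <;> subst h <;> norm_num

theorem T13_chi {x : F} (h : x ≠ 0) : quadraticChar F x ^ 2 = 1 := quadraticChar_sq_one h

/-- generic `c` -/
theorem T13_a (P : Par) (w : Fin 4 → F) (hs : P.Sgn) (c x : F) (h0 : c ≠ 0) (h1 : c ≠ 1) :
    alp P w x c 1 ^ 2 = 1 := by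
  have s2 := T13_sg hs.s
  have a2 := T13_sg hs.a
  have g2 := T13_sg hs.h
  by_cases hx : x = c
  · subst hx
    have : alp P w x x 1 = P.a * quadraticChar F (x * (x - 1)) := by
      simp [alp, base, cor, h0, h1]
    rw [this, mul_pow, T13_chi (mul_ne_zero h0 (sub_ne_zero.2 h1)), a2]
    norm_num
  · by_cases hx0 : x = 0
    · subst hx0
      have : alp P w 0 c 1 = P.h * quadraticChar F c := by
        simp [alp, base, cor, h0, h1, Ne.symm h0]
      rw [this, mul_pow, T13_chi h0, g2]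
      norm_num
    · have : alp P w x c 1 = P.s * quadraticChar F (1 * x * (x - c) * (c - 1)) := by
        simp [alp, base, cor, h0, h1, hx, hx0]
      rw [this, mul_pow, T13_chi, s2]
      · norm_num
      · exact mul_ne_zero (mul_ne_zero (mul_ne_zero one_ne_zero hx0) (sub_ne_zero.2 hx))
          (sub_ne_zero.2 h1)

/-- `c = 0` -/
theorem T13_b (P : Par) (w : Fin 4 → F) (hs : P.Sgn) (x : F) :
    alp P w x 0 1 ^ 2 = 1 + (if x = 0 then P.p3 ^ 2 - 1 else 0) +
      (if x = 1 then (P.s * quadraticChar F (-1) + P.da) ^ 2 - 1 else 0) := by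
  have s2 := T13_sg hs.s
  by_cases hx0 : x = 0
  · subst hx0
    have : alp P w 0 0 1 = P.p3 := by
      simp [alp, base, cor]
    rw [this]; simp
  · have e : quadraticChar F (1 * x * (x - 0) * (0 - 1)) = quadraticChar F (-1) := by
      rw [show (1 * x * (x - 0) * (0 - 1) : F) = -1 * x ^ 2 by ring, map_mul,
        quadraticChar_sq_one' hx0, mul_one]
    by_cases hx1 : x = 1
    · subst hx1
      have : alp P w 1 0 1 = P.s * quadraticChar F (-1) + P.da := by
        simp [alp, base, cor]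
      rw [this]; simp
    · have : alp P w x 0 1 = P.s * quadraticChar F (1 * x * (x - 0) * (0 - 1)) := by
        simp [alp, base, cor, hx0, hx1]
      rw [this, e, mul_pow, T13_chi (neg_ne_zero.2 one_ne_zero), s2]
      simp [hx0, hx1]

/-- infinity -/
theorem T13_d (P : Par) (w : Fin 4 → F) (hs : P.Sgn) (x : F) :
    alp P w x 1 0 ^ 2 = 1 + (if x = 0 then P.p2 ^ 2 - 1 else 0) +
      (if x = 1 then (P.a + P.a' + P.db) ^ 2 - 1 else 0) := by
  have s2 := T13_sg hs.a'
  by_cases hx0 : x = 0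
  · subst hx0
    have : alp P w 0 1 0 = P.p2 := by
      simp [alp, base, cor]
    rw [this]; simp
  · by_cases hx1 : x = 1
    · subst hx1
      have : alp P w 1 1 0 = P.a + P.a' + P.db := by
        simp [alp, base, cor]
      rw [this]; simp
    · have : alp P w x 1 0 = P.a' * quadraticChar F x := by
        simp [alp, base, cor, hx0, hx1]
      rw [this, mul_pow, T13_chi hx0, s2]
      simp [hx0, hx1]

/-- `c = 1` -/
theorem T13_c (P : Par) (w : Fin 4 → F) (c1 c2 : Fin 4 → ℤ) (hw : Wok c1 c2 w) (hs : P.Sgn)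
    (x : F) :
    alp P w x 1 1 ^ 2 = 1 +
      (if x = 0 then (P.g * quadraticChar F (-1) + P.h + P.e0) ^ 2 - 1 else 0) +
      (if x = 1 then P.e1 ^ 2 - 1 else 0) +
      ∑ i, (if x = w i then 2 * (P.g * c2 i) * P.ew i + P.ew i ^ 2 else 0) := by
  have s2 := T13_sg hs.g
  have hf : alp P w x 1 1 = P.g * quadraticChar F (x - 1) + (if x = 0 then P.h else 0) +
      ecor P w x := by
    simp [alp, base, cor]
    intro h
    right
    rw [h]
    simp
  have hsum0 : (∑ i, if (0 : F) = w i then P.ew i else 0) = 0 :=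
    Finset.sum_eq_zero fun i _ => if_neg (Ne.symm (hw.ne0 i))
  have hsum1 : (∑ i, if (1 : F) = w i then P.ew i else 0) = 0 :=
    Finset.sum_eq_zero fun i _ => if_neg (Ne.symm (hw.ne1 i))
  by_cases hx0 : x = 0
  · subst hx0
    have h2 : (∑ i, if (0 : F) = w i then 2 * (P.g * c2 i) * P.ew i + P.ew i ^ 2 else 0) = 0 :=
      Finset.sum_eq_zero fun i _ => if_neg (Ne.symm (hw.ne0 i))
    rw [hf, h2]
    unfold ecor
    rw [hsum0]
    simp
  · by_cases hx1 : x = 1
    · subst hx1
      have h2 : (∑ i, if (1 : F) = w i then 2 * (P.g * c2 i) * P.ew i + P.ew i ^ 2 else 0) = 0 :=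
        Finset.sum_eq_zero fun i _ => if_neg (Ne.symm (hw.ne1 i))
      rw [hf, h2]
      unfold ecor
      rw [hsum1]
      simp
    · have hchi : quadraticChar F (x - 1) ^ 2 = 1 := T13_chi (sub_ne_zero.2 hx1)
      by_cases hxw : ∃ i, x = w i
      · obtain ⟨i, rfl⟩ := hxw
        have h3 : ∀ (f : Fin 4 → ℤ), (∑ j, if w i = w j then f j else 0) = f i := by
          intro f
          rw [Finset.sum_eq_single i]
          · simp
          · intro j _ hj
            rw [if_neg]
            intro h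
            exact hj (hw.inj h).symm
          · intro h; exact absurd (Finset.mem_univ _) h
        rw [hf, h3]
        unfold ecor
        rw [h3, if_neg hx0, if_neg hx1, if_neg hx0, if_neg hx1, hw.h2 i]
        have hc : c2 i ^ 2 = 1 := by rw [← hw.h2 i]; exact hchi
        have e : (P.g * c2 i + 0 + (0 + 0 + P.ew i)) ^ 2 =
            P.g ^ 2 * c2 i ^ 2 + 2 * (P.g * c2 i) * P.ew i + P.ew i ^ 2 := by ring
        rw [if_neg hx0, e, s2, hc]
        simp
        ring
      · have h3 : ∀ (f : Fin 4 → ℤ), (∑ j, if x = w j then f j else 0) = 0 := by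
          intro f
          exact Finset.sum_eq_zero fun j _ => if_neg fun h => hxw ⟨j, h⟩
        rw [hf, h3]
        unfold ecor
        rw [h3]
        simp only [if_neg hx0, if_neg hx1, add_zero]
        rw [mul_pow, hchi, s2]
        norm_num

omit [Field F] in
theorem T13_sum1 (a : F) (y : ℤ) : ∑ x : F, (if x = a then y else 0) = y := by
  simp

/-- T13 with the other results as hypotheses -/
theorem T13_main (P : Par) (w : Fin 4 → F) (c1 c2 : Fin 4 → ℤ)
    (hLE : ∑ x, ∑ y, ∑ z, alp P w x y z ^ 2 = alp P w 0 0 0 ^ 2 + ((Fintype.card F : ℤ) - 1) *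
      (alp P w 1 0 0 ^ 2 + ∑ c, ∑ x, alp P w x c 1 ^ 2 + ∑ x, alp P w x 1 0 ^ 2))
    (hP0 : alp P w 0 0 0 = P.al0) (hP1 : alp P w 1 0 0 = P.p1)
    (hw : Wok c1 c2 w) (hs : P.Sgn) (ho : P.Ok (quadraticChar F (-1)) c1 c2) :
    ∑ x, ∑ y, ∑ z, alp P w x y z ^ 2 = (Fintype.card F : ℤ) ^ 3 := by
  set q : ℤ := (Fintype.card F : ℤ) with hq
  have hone : ∑ _x : F, (1 : ℤ) = q := by simp [hq]
  have hb : ∑ x, alp P w x 0 1 ^ 2 = q + (P.p3 ^ 2 - 1) +
      ((P.s * quadraticChar F (-1) + P.da) ^ 2 - 1) := by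
    rw [Finset.sum_congr rfl fun x _ => T13_b P w hs x, Finset.sum_add_distrib,
      Finset.sum_add_distrib, hone, T13_sum1, T13_sum1]
  have hd : ∑ x, alp P w x 1 0 ^ 2 = q + (P.p2 ^ 2 - 1) +
      ((P.a + P.a' + P.db) ^ 2 - 1) := by
    rw [Finset.sum_congr rfl fun x _ => T13_d P w hs x, Finset.sum_add_distrib,
      Finset.sum_add_distrib, hone, T13_sum1, T13_sum1]
  have hc : ∑ x, alp P w x 1 1 ^ 2 = q +
      ((P.g * quadraticChar F (-1) + P.h + P.e0) ^ 2 - 1) + (P.e1 ^ 2 - 1) +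
      ∑ i, (2 * (P.g * c2 i) * P.ew i + P.ew i ^ 2) := by
    rw [Finset.sum_congr rfl fun x _ => T13_c P w c1 c2 hw hs x, Finset.sum_add_distrib,
      Finset.sum_add_distrib, Finset.sum_add_distrib, hone, T13_sum1, T13_sum1,
      Finset.sum_comm]
    congr 1
    refine Finset.sum_congr rfl fun i _ => ?_
    exact T13_sum1 (w i) _
  have hgen : ∀ c : F, ∑ x, alp P w x c 1 ^ 2 = q +
      (if c = 0 then ((P.p3 ^ 2 - 1) + ((P.s * quadraticChar F (-1) + P.da) ^ 2 - 1)) else 0) +
      (if c = 1 then (((P.g * quadraticChar F (-1) + P.h + P.e0) ^ 2 - 1) + (P.e1 ^ 2 - 1) +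
      ∑ i, (2 * (P.g * c2 i) * P.ew i + P.ew i ^ 2)) else 0) := by
    intro c
    by_cases h0 : c = 0
    · subst h0
      rw [hb]
      simp
      ring
    · by_cases h1 : c = 1
      · subst h1
        rw [hc]
        simp
        ring
      · rw [Finset.sum_congr rfl fun x _ => T13_a P w hs c x h0 h1, hone]
        simp [h0, h1]
  have hcsum : ∑ c, ∑ x, alp P w x c 1 ^ 2 = q * q +
      ((P.p3 ^ 2 - 1) + ((P.s * quadraticChar F (-1) + P.da) ^ 2 - 1)) +
      (((P.g * quadraticChar F (-1) + P.h + P.e0) ^ 2 - 1) + (P.e1 ^ 2 - 1) +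
      ∑ i, (2 * (P.g * c2 i) * P.ew i + P.ew i ^ 2)) := by
    rw [Finset.sum_congr rfl fun c _ => hgen c, Finset.sum_add_distrib, Finset.sum_add_distrib,
      T13_sum1, T13_sum1]
    simp [hq]
  rw [hLE, hcsum, hd, hP0, hP1, T13_sg hs.al0]
  have hen := ho.energy
  linear_combination (q - 1) * hen

end field

end H880H
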