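import Pool.Agent.H880H.Defs

/-!
# Line sums, points `(x, c, 1)`
-/

set_option autoImplicit false

namespace H880H

open Finset

section field

variable {F : Type} [Field F] [Fintype F] [DecidableEq F]

theorem T14_sum (hF : ringChar F ≠ 2) : ∑ x : F, quadraticChar F x = 0 :=
  quadraticChar_sum_zero hF

theorem T14_shift (hF : ringChar F ≠ 2) (c : F) : ∑ x : F, quadraticChar F (x - c) = 0 := by
  rw [← T14_sum (F := F) hF]
  exact Equiv.sum_comp (Equiv.subRight c) (fun x => quadraticChar F x)

theorem T14_quad (hF : ringChar F ≠ 2) (c : F) (hc : c ≠ 0) :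
    ∑ x : F, quadraticChar F (x * (x - c)) = -1 := by
  have h1 : ∑ x ∈ univ.erase (1 : F), quadraticChar F x = -1 := by
    have := Finset.sum_erase_add (s := univ) (f := fun x : F => quadraticChar F x)
      (Finset.mem_univ (1 : F))
    rw [T14_sum hF] at this
    simp only [map_one] at this
    linarith
  have h2 : ∑ x : F, quadraticChar F (x * (x - c)) =
      ∑ x ∈ univ.erase (0 : F), quadraticChar F (x * (x - c)) := by
    rw [← Finset.sum_erase_add (s := univ) (f := fun x : F => quadraticChar F (x * (x - c)))
      (Finset.mem_univ (0 : F))]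
    simp
  rw [h2, ← h1]
  refine Finset.sum_nbij' (fun x => 1 - c * x⁻¹) (fun u => c * (1 - u)⁻¹) ?_ ?_ ?_ ?_ ?_
  · intro x hx
    rw [Finset.mem_erase] at hx ⊢
    refine ⟨?_, Finset.mem_univ _⟩
    intro h
    have : c * x⁻¹ = 0 := by linear_combination -h
    rcases mul_eq_zero.mp this with h | h
    · exact hc h
    · exact hx.1 (inv_eq_zero.mp h)
  · intro u hu
    rw [Finset.mem_erase] at hu ⊢
    refine ⟨?_, Finset.mem_univ _⟩
    apply mul_ne_zero hc
    apply inv_ne_zero
    exact sub_ne_zero.mpr hu.1.symm
  · intro x hx
    have hx0 := Finset.ne_of_mem_erase hx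
    have : 1 - (1 - c * x⁻¹) = c * x⁻¹ := by ring
    rw [this]
    field_simp
  · intro u hu
    have hu1 := Finset.ne_of_mem_erase hu
    have h1u : (1 : F) - u ≠ 0 := sub_ne_zero.mpr hu1.symm
    have : c * (c * (1 - u)⁻¹)⁻¹ = 1 - u := by field_simp
    rw [this]
    ring
  · intro x hx
    have hx0 := Finset.ne_of_mem_erase hx
    have e : x * (x - c) = x ^ 2 * (1 - c * x⁻¹) := by field_simp
    rw [e, map_mul, map_pow, quadraticChar_sq_one hx0, one_mul]

/-- T14 -/
theorem pencil1 (hF : ringChar F ≠ 2) (P : Par) (w : Fin 4 → F) (h0 : ∀ i, w i ≠ 0)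
    (h1 : ∀ i, w i ≠ 1) :
    (∀ c : F, c ≠ 0 → c ≠ 1 → ∑ x, alp P w x c 1 =
      -P.s * quadraticChar F (c - 1) + P.a * quadraticChar F (c * (c - 1)) +
        P.h * quadraticChar F c) ∧
    ∑ x, alp P w x 0 1 =
      P.s * quadraticChar F (-1) * ((Fintype.card F : ℤ) - 1) + P.p3 + P.da ∧
    ∑ x, alp P w x 1 1 = P.h + P.e0 + P.e1 + ∑ i, P.ew i ∧
    ∑ x, alp P w x 1 0 = P.a + P.db + P.p2 := by
  refine ⟨?_, ?_, ?_, ?_⟩
  · intro c hc0 hc1
    have hp : ∀ x, alp P w x c 1 = P.s * quadraticChar F (c - 1) * quadraticChar F (x * (x - c)) +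
        (if x = c then P.a * quadraticChar F (c * (c - 1)) else 0) +
        (if x = 0 then P.h * quadraticChar F c else 0) := by
      intro x
      have e1 : quadraticChar F (1 * x * (x - c) * (c - 1)) =
          quadraticChar F (c - 1) * quadraticChar F (x * (x - c)) := by
        rw [← map_mul]; congr 1; ring
      have e2 : (if x = c then P.a * quadraticChar F (x * (x - 1)) else 0) =
          (if x = c then P.a * quadraticChar F (c * (c - 1)) else 0) := by
        by_cases h : x = c
        · rw [if_pos h, if_pos h, h]
        · rw [if_neg h, if_neg h]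
      unfold alp base cor
      rw [e1, e2]
      simp only [one_ne_zero, if_false, hc1, hc0, false_and, and_false, mul_one, ne_eq, add_zero,
        not_true_eq_false]
      ring
    rw [Finset.sum_congr rfl (fun x _ => hp x), Finset.sum_add_distrib, Finset.sum_add_distrib,
      ← Finset.mul_sum, T14_quad hF c hc0, Finset.sum_ite_eq', Finset.sum_ite_eq']
    simp only [Finset.mem_univ, if_true]
    ring
  · have hp : ∀ x, alp P w x 0 1 = (if x = 0 then 0 else P.s * quadraticChar F (-1)) +
        (if x = 0 then P.p3 else 0) + (if x = 1 then P.da else 0) := by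
      intro x
      have e1 : quadraticChar F (1 * x * (x - 0) * (0 - 1)) =
          if x = 0 then 0 else quadraticChar F (-1) := by
        by_cases h : x = 0
        · rw [if_pos h, h]; simp
        · rw [if_neg h]
          have : (1 : F) * x * (x - 0) * (0 - 1) = x ^ 2 * (-1) := by ring
          rw [this, map_mul, map_pow, quadraticChar_sq_one h, one_mul]
      unfold alp base cor
      rw [e1]
      by_cases hx : x = 0
      · subst hx
        simp [one_ne_zero]
      · by_cases hx1 : x = 1
        · subst hx1
          simp
        · simp [hx, hx1]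
    rw [Finset.sum_congr rfl (fun x _ => hp x), Finset.sum_add_distrib, Finset.sum_add_distrib,
      Finset.sum_ite_eq', Finset.sum_ite_eq']
    simp only [Finset.mem_univ, if_true]
    have h2 : ∑ x : F, (if x = 0 then 0 else P.s * quadraticChar F (-1)) =
        P.s * quadraticChar F (-1) * ((Fintype.card F : ℤ) - 1) := by
      have e : ∀ x : F, (if x = 0 then 0 else P.s * quadraticChar F (-1)) =
          P.s * quadraticChar F (-1) - (if x = 0 then P.s * quadraticChar F (-1) else 0) := by
        intro x
        split_ifs <;> ring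
      rw [Finset.sum_congr rfl (fun x _ => e x), Finset.sum_sub_distrib, Finset.sum_ite_eq',
        Finset.sum_const, Finset.card_univ]
      simp only [Finset.mem_univ, if_true, nsmul_eq_mul]
      ring
    rw [h2]
  · have hp : ∀ x, alp P w x 1 1 = P.g * quadraticChar F (x - 1) +
        (if x = 0 then P.h else 0) + ((if x = 0 then P.e0 else 0) + (if x = 1 then P.e1 else 0) +
        ∑ i, if x = w i then P.ew i else 0) := by
      intro x
      unfold alp base cor ecor
      by_cases hx : x = 0
      · subst hx
        simp
      · by_cases hx1 : x = 1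
        · subst hx1
          simp
        · simp [hx, hx1]
    rw [Finset.sum_congr rfl (fun x _ => hp x), Finset.sum_add_distrib, Finset.sum_add_distrib,
      Finset.sum_add_distrib, Finset.sum_add_distrib, ← Finset.mul_sum, T14_shift hF,
      Finset.sum_ite_eq', Finset.sum_ite_eq', Finset.sum_ite_eq', Finset.sum_comm]
    simp only [Finset.sum_ite_eq', Finset.mem_univ, if_true]
    ring
  · have hp : ∀ x, alp P w x 1 0 = P.a' * quadraticChar F x +
        (if x = 1 then P.a else 0) + ((if x = 0 then P.p2 else 0) +
        (if x = 1 then P.db else 0)) := by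
      intro x
      unfold alp base cor
      by_cases hx : x = 0
      · subst hx
        simp
      · by_cases hx1 : x = 1
        · subst hx1
          simp
          ring
        · simp [hx, hx1]
    rw [Finset.sum_congr rfl (fun x _ => hp x), Finset.sum_add_distrib, Finset.sum_add_distrib,
      Finset.sum_add_distrib, ← Finset.mul_sum, T14_sum hF,
      Finset.sum_ite_eq', Finset.sum_ite_eq', Finset.sum_ite_eq']
    simp only [Finset.mem_univ, if_true]
    ring

end field

end H880H
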