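import Pool.Agent.H880H.Defs

/-!
# Task T15: line sums, points `(c, y, 1)`
-/

set_option autoImplicit false

namespace H880H

open Finset

section field

variable {F : Type} [Field F] [Fintype F] [DecidableEq F]

theorem T15_sum_sq : ∑ t : F, quadraticChar F (t * t) = (Fintype.card F : ℤ) - 1 := by
  have h : ∀ t : F, quadraticChar F (t * t) = 1 - if t = 0 then 1 else 0 := by
    intro t
    by_cases ht : t = 0
    · subst ht; simp
    · have := quadraticChar_sq_one' ht
      rw [if_neg ht, ← sq, this]; ring
  rw [Finset.sum_congr rfl fun t _ => h t, Finset.sum_sub_distrib]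
  simp

theorem T15_sum_ne (hF : ringChar F ≠ 2) {c : F} (hc : c ≠ 0) :
    ∑ t : F, quadraticChar F (t * (t + c)) = -1 := by
  have h1 : ∑ t : F, quadraticChar F (t * (t + c)) =
      ∑ t ∈ univ.erase (0 : F), quadraticChar F (1 + c * t⁻¹) := by
    rw [← Finset.add_sum_erase univ _ (Finset.mem_univ (0 : F)), zero_mul, MulChar.map_zero,
      zero_add]
    refine Finset.sum_congr rfl fun t ht => ?_
    have ht0 : t ≠ 0 := Finset.ne_of_mem_erase ht
    have e : t * (t + c) = t ^ 2 * (1 + c * t⁻¹) := by
      field_simp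
    rw [e, map_mul, quadraticChar_sq_one' ht0, one_mul]
  have h2 : ∑ t ∈ univ.erase (0 : F), quadraticChar F (1 + c * t⁻¹) =
      ∑ s ∈ univ.erase (1 : F), quadraticChar F s := by
    refine Finset.sum_bij' (fun t _ => 1 + c * t⁻¹) (fun s _ => c * (s - 1)⁻¹) ?_ ?_ ?_ ?_ ?_
    · intro t ht
      have ht0 : t ≠ 0 := Finset.ne_of_mem_erase ht
      refine Finset.mem_erase.2 ⟨?_, Finset.mem_univ _⟩
      intro h
      have : c * t⁻¹ = 0 := by linear_combination h
      exact (mul_ne_zero hc (inv_ne_zero ht0)) this
    · intro s hs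
      have hs1 : s ≠ 1 := Finset.ne_of_mem_erase hs
      refine Finset.mem_erase.2 ⟨?_, Finset.mem_univ _⟩
      exact mul_ne_zero hc (inv_ne_zero (sub_ne_zero.2 hs1))
    · intro t ht
      have ht0 : t ≠ 0 := Finset.ne_of_mem_erase ht
      show c * (1 + c * t⁻¹ - 1)⁻¹ = t
      have : 1 + c * t⁻¹ - 1 = c * t⁻¹ := by ring
      rw [this]
      field_simp
    · intro s hs
      have hs1 : s - 1 ≠ 0 := sub_ne_zero.2 (Finset.ne_of_mem_erase hs)
      show 1 + c * (c * (s - 1)⁻¹)⁻¹ = s
      field_simp
      ring
    · intro t _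
      rfl
  have h3 := Finset.add_sum_erase univ (fun s : F => quadraticChar F s) (Finset.mem_univ (1 : F))
  rw [quadraticChar_sum_zero hF, MulChar.map_one] at h3
  rw [h1, h2]
  linarith

theorem T15_quad (hF : ringChar F ≠ 2) (a b : F) :
    ∑ x : F, quadraticChar F ((x - a) * (x - b)) =
      if a = b then (Fintype.card F : ℤ) - 1 else -1 := by
  have h : ∑ x : F, quadraticChar F ((x - a) * (x - b)) =
      ∑ t : F, quadraticChar F (t * (t + (a - b))) := by
    refine Fintype.sum_equiv (Equiv.subRight a) _ _ fun x => ?_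
    simp only [Equiv.subRight_apply]
    congr 1
    ring
  rw [h]
  split_ifs with hab
  · subst hab
    simp only [sub_self, add_zero]
    exact T15_sum_sq
  · exact T15_sum_ne hF (sub_ne_zero.2 hab)

theorem T15_key (hF : ringChar F ≠ 2) (P : Par) (w : Fin 4 → F) (c : F) :
    ∑ y, alp P w c y 1 =
      P.s * (quadraticChar F (-c) * if c = 1 then (Fintype.card F : ℤ) - 1 else -1) +
      P.a * quadraticChar F (c * (c - 1)) + P.g * quadraticChar F (c - 1) + ecor P w c +
      (if c = 0 then P.p3 else 0) + if c = 1 then P.da else 0 := by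
  have h10 : (1 : F) ≠ 0 := one_ne_zero
  have key : ∀ y, alp P w c y 1 =
      P.s * (quadraticChar F (-c) * quadraticChar F ((y - c) * (y - 1))) +
      (if y = c then P.a * quadraticChar F (c * (c - 1)) else 0) +
      (if y = 1 then P.g * quadraticChar F (c - 1) else 0) +
      (if c = 0 then P.h else 0) * quadraticChar F y +
      (if y = 1 then ecor P w c else 0) +
      (if y = 0 then (if c = 0 then P.p3 else 0) else 0) +
      (if y = 0 then (if c = 1 then P.da else 0) else 0) := by
    intro y
    have e1 : quadraticChar F (1 * c * (c - y) * (y - 1)) =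
        quadraticChar F (-c) * quadraticChar F ((y - c) * (y - 1)) := by
      rw [← map_mul]
      congr 1
      ring
    have e2 : (if c = y then P.a * quadraticChar F (c * (c - 1)) else 0) =
        if y = c then P.a * quadraticChar F (c * (c - 1)) else 0 := by
      simp only [eq_comm]
    have e4 : (if y = 1 then P.g * quadraticChar F ((c - y) * y) else 0) =
        if y = 1 then P.g * quadraticChar F (c - 1) else 0 := by
      split_ifs with h
      · rw [h, mul_one]
      · rfl
    have e5 : (if c = 0 then P.h * quadraticChar F (y * 1) else 0) =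
        (if c = 0 then P.h else 0) * quadraticChar F y := by
      rw [mul_one]
      split_ifs <;> simp
    have e6 : (if y = 1 ∧ y ≠ 0 then ecor P w (c / y) else 0) =
        if y = 1 then ecor P w c else 0 := by
      by_cases h : y = 1
      · rw [if_pos ⟨h, by rw [h]; exact h10⟩, if_pos h, h, div_one]
      · rw [if_neg (fun h' => h h'.1), if_neg h]
    have e7 : (if c = 0 ∧ y = 0 ∧ (1 : F) ≠ 0 then P.p3 else 0) =
        if y = 0 then (if c = 0 then P.p3 else 0) else 0 := by
      by_cases h : y = 0 <;> by_cases h' : c = 0 <;> simp [h, h']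
    have e8 : (if y = 0 ∧ c = 1 ∧ c ≠ 0 then P.da else 0) =
        if y = 0 then (if c = 1 then P.da else 0) else 0 := by
      by_cases h : y = 0 <;> by_cases h' : c = 1 <;> simp [h, h']
    unfold alp base cor
    rw [e1, e2, e4, e5, e6, e7, e8]
    simp only [h10, false_and, and_false, if_false, ne_eq]
    ring
  rw [Finset.sum_congr rfl fun y _ => key y]
  simp only [Finset.sum_add_distrib, Finset.sum_ite_eq', Finset.mem_univ, if_true]
  rw [← Finset.mul_sum, ← Finset.mul_sum, ← Finset.mul_sum, T15_quad hF,
    quadraticChar_sum_zero hF]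
  ring

/-- T15 -/
theorem pencil2 (hF : ringChar F ≠ 2) (P : Par) (w : Fin 4 → F) (h0 : ∀ i, w i ≠ 0)
    (h1 : ∀ i, w i ≠ 1) :
    (∀ c : F, c ≠ 0 → c ≠ 1 → ∑ y, alp P w c y 1 =
      -P.s * quadraticChar F (-1) * quadraticChar F c + P.a * quadraticChar F (c * (c - 1)) +
        P.g * quadraticChar F (c - 1) + ∑ i, if c = w i then P.ew i else 0) ∧
    ∑ y, alp P w 0 y 1 = P.g * quadraticChar F (-1) + P.p3 + P.e0 ∧
    ∑ y, alp P w 1 y 1 =
      P.s * quadraticChar F (-1) * ((Fintype.card F : ℤ) - 1) + P.da + P.e1 ∧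
    ∑ y, alp P w 1 y 0 = P.a + P.p1 + P.db := by
  have h10 : (1 : F) ≠ 0 := one_ne_zero
  have hw0 : ∑ i, (if (0 : F) = w i then P.ew i else 0) = 0 :=
    Finset.sum_eq_zero fun i _ => if_neg (h0 i).symm
  have hw1 : ∑ i, (if (1 : F) = w i then P.ew i else 0) = 0 :=
    Finset.sum_eq_zero fun i _ => if_neg (h1 i).symm
  refine ⟨?_, ?_, ?_, ?_⟩
  · intro c hc0 hc1
    have e : quadraticChar F (-c) = quadraticChar F (-1) * quadraticChar F c := by
      rw [← map_mul]
      congr 1
      ring
    rw [T15_key hF, e, if_neg hc1, if_neg hc0, if_neg hc1]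
    unfold ecor
    rw [if_neg hc0, if_neg hc1]
    ring
  · rw [T15_key hF]
    unfold ecor
    rw [hw0, neg_zero, zero_mul, zero_sub, MulChar.map_zero, if_pos rfl, if_pos rfl,
      if_neg h10.symm, if_neg h10.symm, if_neg h10.symm]
    ring
  · rw [T15_key hF]
    unfold ecor
    rw [hw1, sub_self, mul_zero, MulChar.map_zero, if_pos rfl, if_neg h10, if_pos rfl,
      if_neg h10, if_pos rfl]
    ring
  · have key : ∀ y : F, alp P w 1 y 0 = (if y = 1 then P.a + P.db else 0) +
        P.a' * quadraticChar F y + if y = 0 then P.p1 else 0 := by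
      intro y
      unfold alp base cor
      by_cases hy0 : y = 0
      · subst hy0
        simp
      · by_cases hy1 : y = 1
        · subst hy1
          simp
          ring
        · have hy1' : ¬ (1 : F) = y := fun h => hy1 h.symm
          simp [hy0, hy1, hy1']
    rw [Finset.sum_congr rfl fun y _ => key y]
    simp only [Finset.sum_add_distrib, Finset.sum_ite_eq', Finset.mem_univ, if_true]
    rw [← Finset.mul_sum, quadraticChar_sum_zero hF]
    ring

end field

end H880H
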