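import Pool.Agent.H880H.Defs

set_option autoImplicit false
set_option linter.unusedSimpArgs false

namespace H880H

open Finset

section field

variable {F : Type} [Field F] [Fintype F] [DecidableEq F]

theorem T16_jac (hF : ringChar F ≠ 2) :
    ∑ z : F, quadraticChar F z * quadraticChar F (1 - z) = -quadraticChar F (-1) := by
  have h := jacobiSum_nontrivial_inv (quadraticChar_ne_one hF)
  rw [(quadraticChar_isQuadratic F).inv] at h
  exact h

theorem T16_sum (hF : ringChar F ≠ 2) : ∑ z : F, quadraticChar F (1 - z) = 0 := by
  rw [← quadraticChar_sum_zero hF]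
  exact Equiv.sum_comp (Equiv.subLeft (1 : F)) (fun z => quadraticChar F z)

/-- T16 -/
theorem pencil3 (hF : ringChar F ≠ 2) (P : Par) (w : Fin 4 → F) (h0 : ∀ i, w i ≠ 0)
    (h1 : ∀ i, w i ≠ 1) :
    (∀ c : F, c ≠ 0 → c ≠ 1 → ∑ z, alp P w c 1 z =
      -P.s * quadraticChar F (-1) * quadraticChar F (c * (c - 1)) +
        P.a' * quadraticChar F c +
        P.g * quadraticChar F (c - 1) + ∑ i, if c = w i then P.ew i else 0) ∧
    ∑ z, alp P w 0 1 z = P.g * quadraticChar F (-1) + P.p2 + P.e0 ∧
    ∑ z, alp P w 1 1 z = P.a' + P.db + P.e1 ∧
    ∑ z, alp P w 1 0 z =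
      P.s * quadraticChar F (-1) * ((Fintype.card F : ℤ) - 1) + P.p1 + P.da := by
  have hw0 : ∀ i, ¬ (0 : F) = w i := fun i h => h0 i h.symm
  have hw1 : ∀ i, ¬ (1 : F) = w i := fun i h => h1 i h.symm
  refine ⟨?_, ?_, ?_, ?_⟩
  · intro c hc0 hc1
    have key : ∀ z ∈ (univ : Finset F), alp P w c 1 z =
        P.s * quadraticChar F (c * (c - 1)) * (quadraticChar F z * quadraticChar F (1 - z)) +
        (if z = 0 then P.a' * quadraticChar F c else 0) +
        (if z = 1 then P.g * quadraticChar F (c - 1) + ∑ i, (if c = w i then P.ew i else 0)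
          else 0) := by
      intro z _
      have e1 : z * c * (c - 1) * (1 - z) = (c * (c - 1)) * (z * (1 - z)) := by ring
      have e2 : (1 : F) = z ↔ z = 1 := eq_comm
      have e3 : quadraticChar F ((c * (c - 1)) * (z * (1 - z))) =
          quadraticChar F (c * (c - 1)) * (quadraticChar F z * quadraticChar F (1 - z)) := by
        rw [map_mul, map_mul (quadraticChar F) z]
      unfold alp base cor ecor
      rw [e1, e3]
      simp only [hc0, hc1, e2, if_false, mul_one, div_one, one_ne_zero, ne_eq, not_false_eq_true,
        and_true, and_false, false_and, true_and, add_zero, zero_add]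
      split_ifs <;> ring
    rw [Finset.sum_congr rfl key, Finset.sum_add_distrib, Finset.sum_add_distrib,
      ← Finset.mul_sum, T16_jac hF, Finset.sum_ite_eq', Finset.sum_ite_eq']
    simp only [Finset.mem_univ, if_true]
    ring
  · have key : ∀ z ∈ (univ : Finset F), alp P w 0 1 z = P.h * quadraticChar F z +
        (if z = 1 then P.g * quadraticChar F (-1) + P.e0 else 0) +
        (if z = 0 then P.p2 else 0) := by
      intro z _
      have e2 : (1 : F) = z ↔ z = 1 := eq_comm
      have e3 : (0 : F) = z ↔ z = 0 := eq_comm
      unfold alp base cor ecor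
      simp only [e2, mul_zero, zero_mul, quadraticChar_zero, mul_one, one_mul, zero_ne_one, if_false,
        if_true, zero_div, ne_eq, not_true_eq_false, not_false_eq_true, one_ne_zero, and_true,
        and_false, false_and, true_and, add_zero, zero_add, zero_sub, ite_self, hw0,
        Finset.sum_const_zero]
      split_ifs <;> ring
    rw [Finset.sum_congr rfl key, Finset.sum_add_distrib, Finset.sum_add_distrib,
      ← Finset.mul_sum, quadraticChar_sum_zero hF, Finset.sum_ite_eq', Finset.sum_ite_eq']
    simp only [Finset.mem_univ, if_true]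
    ring
  · have key : ∀ z ∈ (univ : Finset F), alp P w 1 1 z = P.a * quadraticChar F (1 - z) +
        (if z = 0 then P.a' + P.db else 0) +
        (if z = 1 then P.e1 else 0) := by
      intro z _
      have e2 : (1 : F) = z ↔ z = 1 := eq_comm
      unfold alp base cor ecor
      simp only [e2, mul_zero, zero_mul, quadraticChar_zero, map_one, mul_one, one_mul, if_false,
        if_true, div_one, ne_eq, not_true_eq_false, not_false_eq_true, one_ne_zero, and_true,
        and_false, false_and, true_and, add_zero, zero_add, sub_self, ite_self, hw1,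
        Finset.sum_const_zero]
      split_ifs <;> ring
    rw [Finset.sum_congr rfl key, Finset.sum_add_distrib, Finset.sum_add_distrib,
      ← Finset.mul_sum, T16_sum hF, Finset.sum_ite_eq', Finset.sum_ite_eq']
    simp only [Finset.mem_univ, if_true]
    ring
  · have key : ∀ z ∈ (univ : Finset F), alp P w 1 0 z = P.s * quadraticChar F (-1) *
        (1 - if z = 0 then 1 else 0) +
        (if z = 0 then P.p1 else 0) +
        (if z = 1 then P.da else 0) := by
      intro z _
      have e2 : (1 : F) = z ↔ z = 1 := eq_comm
      have e3 : (0 : F) = z ↔ z = 0 := eq_comm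
      have e4 : quadraticChar F (z * 1 * (1 - 0) * (0 - z)) =
          quadraticChar F (-1) * (1 - if z = 0 then 1 else 0) := by
        have e5 : z * 1 * (1 - 0) * (0 - z) = -1 * (z * z) := by ring
        rw [e5, map_mul]
        by_cases hz : z = 0
        · simp [hz]
        · rw [if_neg hz, map_mul, ← sq, quadraticChar_sq_one hz, sub_zero]
      unfold alp base cor ecor
      rw [e4]
      simp only [e2, e3, mul_zero, zero_mul, quadraticChar_zero, mul_one, one_mul, if_false,
        if_true, ne_eq, not_true_eq_false, not_false_eq_true, one_ne_zero, and_true,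
        and_false, false_and, true_and, add_zero, zero_add, ite_self]
      by_cases hz : z = 0
      · simp [hz]
      · simp [hz]
    rw [Finset.sum_congr rfl key, Finset.sum_add_distrib, Finset.sum_add_distrib,
      ← Finset.mul_sum, Finset.sum_sub_distrib, Finset.sum_ite_eq', Finset.sum_ite_eq',
      Finset.sum_ite_eq']
    simp only [Finset.mem_univ, if_true, Finset.sum_const, Finset.card_univ, nsmul_eq_mul, mul_one]

end field

end H880H
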