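import Pool.Agent.H880H.Defs

/-!
# Line sums through `(1, 1, 1)`
-/

set_option autoImplicit false

namespace H880H

open Finset

section field

variable {F : Type} [Field F] [Fintype F] [DecidableEq F]

theorem T17_chi (hF : ringChar F ≠ 2) (a b : F) :
    ∑ x : F, quadraticChar F ((x - a) * (x - b)) =
      if a = b then (Fintype.card F : ℤ) - 1 else -1 := by
  by_cases hab : a = b
  · subst hab
    rw [if_pos rfl]
    have e1 : ∑ x : F, quadraticChar F ((x - a) * (x - a)) =
        ∑ y : F, quadraticChar F (y * y) :=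
      Fintype.sum_equiv (Equiv.subRight a) _ _ (fun z => rfl)
    have e2 : ∀ y : F, quadraticChar F (y * y) = 1 - (if y = 0 then (1 : ℤ) else 0) := by
      intro y
      by_cases h : y = 0
      · simp [h]
      · rw [if_neg h, ← sq, quadraticChar_sq_one' h, sub_zero]
    rw [e1, Finset.sum_congr rfl (fun y _ => e2 y), sum_sub_distrib]
    simp
  · rw [if_neg hab]
    have hba : b - a ≠ 0 := sub_ne_zero.2 (Ne.symm hab)
    have e1 : ∑ x : F, quadraticChar F ((x - a) * (x - b)) =
        ∑ t : F, quadraticChar F (-1) * (quadraticChar F t * quadraticChar F (1 - t)) := by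
      symm
      refine Fintype.sum_equiv ((Equiv.mulLeft₀ (b - a) hba).trans (Equiv.addRight a)) _ _
        (fun t => ?_)
      have e4 : ((Equiv.mulLeft₀ (b - a) hba).trans (Equiv.addRight a)) t = (b - a) * t + a := rfl
      have e3 : ((b - a) * t + a - a) * ((b - a) * t + a - b) =
          (b - a) ^ 2 * ((-1) * (t * (1 - t))) := by ring
      rw [e4, e3, map_mul, quadraticChar_sq_one' hba, one_mul, map_mul, map_mul]
    have hχ : quadraticChar F ≠ 1 := quadraticChar_ne_one hF
    have hJ := jacobiSum_nontrivial_inv hχ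
    rw [(quadraticChar_isQuadratic F).inv] at hJ
    unfold jacobiSum at hJ
    have hm : (-1 : F) ≠ 0 := neg_ne_zero.2 one_ne_zero
    rw [e1, ← mul_sum, hJ, mul_neg, ← map_mul, neg_mul_neg, mul_one, map_one]

theorem T17_sum_shift (hF : ringChar F ≠ 2) : ∑ z : F, quadraticChar F (z + 1) = 0 := by
  rw [← quadraticChar_sum_zero hF]
  exact Fintype.sum_equiv (Equiv.addRight (1 : F)) _ _ (fun z => rfl)

omit [Field F] in
theorem T17_one (a : F) (v : ℤ) : ∑ z : F, (if z = a then v else 0) = v := by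
  simp

/-- generic lines -/
theorem T17_a (hF : ringChar F ≠ 2) (P : Par) (w : Fin 4 → F) (c : F) (hc0 : c ≠ 0)
    (hc1 : c ≠ 1) : ∑ z, alp P w (z + c) (z + 1) z =
      -P.s * quadraticChar F (c - 1) + P.a' * quadraticChar F c +
        P.h * quadraticChar F (c * (c - 1)) := by
  have e : ∀ z : F, alp P w (z + c) (z + 1) z =
      P.s * quadraticChar F (c - 1) * quadraticChar F ((z - 0) * (z - (-c))) +
      (if z = 0 then P.a' * quadraticChar F c else 0) +
      (if z = -c then P.h * quadraticChar F (c * (c - 1)) else 0) := by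
    intro z
    have n1 : ¬ (z + c = z + 1) := fun h => hc1 (add_left_cancel h)
    have n2 : ¬ (z + 1 = z) := fun h => one_ne_zero (add_eq_left.1 h)
    have m1 : ¬ (z + 1 = z ∧ z + 1 ≠ 0) := fun h => n2 h.1
    have m2 : ¬ (z + 1 = 0 ∧ z = 0 ∧ z + c ≠ 0) := fun h => n2 (h.1.trans h.2.1.symm)
    have m3 : ¬ (z + c = 0 ∧ z = 0 ∧ z + 1 ≠ 0) := fun h => hc0 (by
      have := h.1; rw [h.2.1, zero_add] at this; exact this)
    have m4 : ¬ (z + c = 0 ∧ z + 1 = 0 ∧ z ≠ 0) := fun h => n1 (h.1.trans h.2.1.symm)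
    have m5 : ¬ (z + 1 = 0 ∧ z + c = z ∧ z + c ≠ 0) := fun h => hc0 (add_eq_left.1 h.2.1)
    have m6 : ¬ (z = 0 ∧ z + c = z + 1 ∧ z + c ≠ 0) := fun h => n1 h.2.1
    have m7 : ¬ (z + c = 0 ∧ z + 1 = 0 ∧ z = 0) := fun h => n1 (h.1.trans h.2.1.symm)
    unfold alp base cor
    rw [if_neg n1, if_neg n2, if_neg m1, if_neg m2, if_neg m3, if_neg m4, if_neg m5, if_neg m6,
      if_neg m7]
    have e1 : quadraticChar F (z * (z + c) * (z + c - (z + 1)) * (z + 1 - z)) =
        quadraticChar F (c - 1) * quadraticChar F ((z - 0) * (z - (-c))) := by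
      rw [← map_mul]
      congr 1
      ring
    have e2 : (if z = 0 then P.a' * quadraticChar F ((z + c) * (z + 1)) else 0) =
        if z = 0 then P.a' * quadraticChar F c else 0 := by
      by_cases h : z = 0
      · rw [if_pos h, if_pos h, h]; congr 2; ring
      · rw [if_neg h, if_neg h]
    have e3 : (if z + c = 0 then P.h * quadraticChar F ((z + 1) * z) else 0) =
        if z = -c then P.h * quadraticChar F (c * (c - 1)) else 0 := by
      by_cases h : z = -c
      · rw [if_pos h, if_pos (by rw [h]; ring), h]; congr 2; ring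
      · rw [if_neg h, if_neg (fun h' => h (eq_neg_of_add_eq_zero_left h'))]
    rw [e1, e2, e3]
    ring
  rw [Finset.sum_congr rfl (fun z _ => e z), sum_add_distrib, sum_add_distrib, ← mul_sum,
    T17_chi hF, if_neg (by
      intro h
      exact hc0 (neg_eq_zero.1 h.symm)), T17_one, T17_one]
  ring

/-- `c = 0` -/
theorem T17_b (hF : ringChar F ≠ 2) (P : Par) (w : Fin 4 → F) :
    ∑ z, alp P w z (z + 1) z =
      P.s * quadraticChar F (-1) * ((Fintype.card F : ℤ) - 1) + P.p2 + P.da := by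
  have e : ∀ z : F, alp P w z (z + 1) z =
      P.s * quadraticChar F (-1) * quadraticChar F ((z - 0) * (z - 0)) +
      (if z = 0 then P.p2 else 0) + (if z = -1 then P.da else 0) := by
    intro z
    have n1 : ¬ (z = z + 1) := fun h => one_ne_zero (add_eq_left.1 h.symm)
    have n2 : ¬ (z + 1 = z) := fun h => n1 h.symm
    have m1 : ¬ (z + 1 = z ∧ z + 1 ≠ 0) := fun h => n2 h.1
    have m2 : ¬ (z + 1 = 0 ∧ z = 0 ∧ z ≠ 0) := fun h => h.2.2 h.2.1
    have m4 : ¬ (z = 0 ∧ z + 1 = 0 ∧ z ≠ 0) := fun h => h.2.2 h.1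
    have m6 : ¬ (z = 0 ∧ z = z + 1 ∧ z ≠ 0) := fun h => n1 h.2.1
    have m7 : ¬ (z = 0 ∧ z + 1 = 0 ∧ z = 0) := fun h => n1 (h.1.trans h.2.1.symm)
    unfold alp base cor
    rw [if_neg n1, if_neg n2, if_neg m1, if_neg m2, if_neg m4, if_neg m6, if_neg m7]
    have e1 : quadraticChar F (z * z * (z - (z + 1)) * (z + 1 - z)) =
        quadraticChar F (-1) * quadraticChar F ((z - 0) * (z - 0)) := by
      rw [← map_mul]
      congr 1
      ring
    have e2 : (if z = 0 then P.a' * quadraticChar F (z * (z + 1)) else 0) = 0 := by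
      by_cases h : z = 0
      · rw [if_pos h, h, zero_mul, quadraticChar_zero, mul_zero]
      · rw [if_neg h]
    have e3 : (if z = 0 then P.h * quadraticChar F ((z + 1) * z) else 0) = 0 := by
      by_cases h : z = 0
      · rw [if_pos h, h, mul_zero, quadraticChar_zero, mul_zero]
      · rw [if_neg h]
    have e4 : (if z = 0 ∧ z = 0 ∧ z + 1 ≠ 0 then P.p2 else 0) = if z = 0 then P.p2 else 0 := by
      by_cases h : z = 0
      · rw [if_pos h, if_pos ⟨h, h, by rw [h, zero_add]; exact one_ne_zero⟩]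
      · rw [if_neg h, if_neg (fun h' => h h'.1)]
    have e5 : (if z + 1 = 0 ∧ z = z ∧ z ≠ 0 then P.da else 0) =
        if z = -1 then P.da else 0 := by
      by_cases h : z = -1
      · rw [if_pos h, if_pos ⟨by rw [h]; ring, rfl, by rw [h]; exact neg_ne_zero.2 one_ne_zero⟩]
      · rw [if_neg h, if_neg (fun h' => h (eq_neg_of_add_eq_zero_left h'.1))]
    rw [e1, e2, e3, e4, e5]
    ring
  rw [Finset.sum_congr rfl (fun z _ => e z), sum_add_distrib, sum_add_distrib, ← mul_sum,
    T17_chi hF, if_pos rfl, T17_one, T17_one]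

/-- `c = 1` -/
theorem T17_c (hF : ringChar F ≠ 2) (P : Par) (w : Fin 4 → F) :
    ∑ z, alp P w (z + 1) (z + 1) z = P.a' + P.db + P.p3 := by
  have e : ∀ z : F, alp P w (z + 1) (z + 1) z =
      P.a * quadraticChar F (z + 1) + (if z = 0 then P.a' + P.db else 0) +
        (if z = -1 then P.p3 else 0) := by
    intro z
    have n2 : ¬ (z + 1 = z) := fun h => one_ne_zero (add_eq_left.1 h)
    have m1 : ¬ (z + 1 = z ∧ z + 1 ≠ 0) := fun h => n2 h.1
    have m2 : ¬ (z + 1 = 0 ∧ z = 0 ∧ z + 1 ≠ 0) := fun h => h.2.2 h.1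
    have m5 : ¬ (z + 1 = 0 ∧ z + 1 = z ∧ z + 1 ≠ 0) := fun h => n2 h.2.1
    have m7 : ¬ (z + 1 = 0 ∧ z + 1 = 0 ∧ z = 0) := fun h => n2 (h.1.trans h.2.2.symm)
    unfold alp base cor
    rw [if_pos (rfl : z + 1 = z + 1), if_neg n2, if_neg m1, if_neg m2, if_neg m5, if_neg m7]
    have e1 : quadraticChar F (z * (z + 1) * (z + 1 - (z + 1)) * (z + 1 - z)) = 0 := by
      rw [sub_self, mul_zero, zero_mul, quadraticChar_zero]
    have e1' : quadraticChar F ((z + 1) * (z + 1 - z)) = quadraticChar F (z + 1) := by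
      congr 1
      ring
    have e2 : (if z = 0 then P.a' * quadraticChar F ((z + 1) * (z + 1)) else 0) =
        if z = 0 then P.a' else 0 := by
      by_cases h : z = 0
      · rw [if_pos h, if_pos h, h, zero_add, mul_one, map_one, mul_one]
      · rw [if_neg h, if_neg h]
    have e3 : (if z + 1 = 0 then P.h * quadraticChar F ((z + 1) * z) else 0) = 0 := by
      by_cases h : z + 1 = 0
      · rw [if_pos h, h, zero_mul, quadraticChar_zero, mul_zero]
      · rw [if_neg h]
    have e4 : (if z + 1 = 0 ∧ z + 1 = 0 ∧ z ≠ 0 then P.p3 else 0) =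
        if z = -1 then P.p3 else 0 := by
      by_cases h : z = -1
      · rw [if_pos h, if_pos ⟨by rw [h]; ring, by rw [h]; ring, by
          rw [h]; exact neg_ne_zero.2 one_ne_zero⟩]
      · rw [if_neg h, if_neg (fun h' => h (eq_neg_of_add_eq_zero_left h'.1))]
    have e5 : (if z = 0 ∧ z + 1 = z + 1 ∧ z + 1 ≠ 0 then P.db else 0) =
        if z = 0 then P.db else 0 := by
      by_cases h : z = 0
      · rw [if_pos h, if_pos ⟨h, rfl, by rw [h, zero_add]; exact one_ne_zero⟩]
      · rw [if_neg h, if_neg (fun h' => h h'.1)]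
    have e6 : (if z + 1 = 0 ∧ z = 0 ∧ z + 1 ≠ 0 then P.p2 else 0) = 0 := if_neg m2
    rw [e1, e1', e2, e3, e4, e5, e6]
    by_cases h : z = 0
    · simp [h]; ring
    · simp [h]
  rw [Finset.sum_congr rfl (fun z _ => e z), sum_add_distrib, sum_add_distrib, ← mul_sum,
    T17_sum_shift hF, T17_one, T17_one]
  ring

/-- the corrections on the line `y = z` -/
theorem T17_ecor (P : Par) (w : Fin 4 → F) (h1 : ∀ i, w i ≠ 1) :
    ∑ z : F, (if z ≠ 0 then ecor P w ((z + 1) / z) else 0) = P.e0 + ∑ i, P.ew i := by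
  have e : ∀ z : F, (if z ≠ 0 then ecor P w ((z + 1) / z) else 0) =
      (if z = -1 then P.e0 else 0) + ∑ i, (if z = (w i - 1)⁻¹ then P.ew i else 0) := by
    intro z
    by_cases h : z = 0
    · subst h
      have a1 : ¬ ((0 : F) = -1) := fun h => one_ne_zero (neg_eq_zero.1 h.symm)
      have a2 : ∀ i, ¬ ((0 : F) = (w i - 1)⁻¹) := fun i h =>
        h1 i (sub_eq_zero.1 (inv_eq_zero.1 h.symm))
      simp [a1, a2]
    · rw [if_pos h]
      unfold ecor
      have a1 : ((z + 1) / z = 0) ↔ z = -1 := by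
        rw [div_eq_zero_iff]
        constructor
        · rintro (h' | h')
          · exact eq_neg_of_add_eq_zero_left h'
          · exact absurd h' h
        · intro h'
          left
          rw [h']
          ring
      have a2 : ¬ ((z + 1) / z = 1) := by
        rw [div_eq_one_iff_eq h]
        intro h'
        exact one_ne_zero (add_eq_left.1 h')
      have a3 : ∀ i, ((z + 1) / z = w i) ↔ z = (w i - 1)⁻¹ := by
        intro i
        have hw : w i - 1 ≠ 0 := sub_ne_zero.2 (h1 i)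
        rw [div_eq_iff h, ← mul_eq_one_iff_eq_inv₀ hw]
        constructor
        · intro h'
          linear_combination -h'
        · intro h'
          linear_combination -h'
      simp only [a1, a2, a3, if_false, add_zero]
  rw [Finset.sum_congr rfl (fun z _ => e z), sum_add_distrib, T17_one, Finset.sum_comm]
  congr 1
  exact Finset.sum_congr rfl (fun i _ => T17_one _ _)

/-- `c = ∞` -/
theorem T17_d (hF : ringChar F ≠ 2) (P : Par) (w : Fin 4 → F) (h1 : ∀ i, w i ≠ 1) :
    ∑ z, alp P w (z + 1) z z = P.h + P.p1 + P.e0 + ∑ i, P.ew i := by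
  have e : ∀ z : F, alp P w (z + 1) z z =
      P.g * quadraticChar F z + (if z = -1 then P.h else 0) + (if z = 0 then P.p1 else 0) +
        (if z ≠ 0 then ecor P w ((z + 1) / z) else 0) := by
    intro z
    have n2 : ¬ (z + 1 = z) := fun h => one_ne_zero (add_eq_left.1 h)
    have m3 : ¬ (z + 1 = 0 ∧ z = 0 ∧ z ≠ 0) := fun h => h.2.2 h.2.1
    have m5 : ¬ (z = 0 ∧ z + 1 = z ∧ z + 1 ≠ 0) := fun h => n2 h.2.1
    have m7 : ¬ (z + 1 = 0 ∧ z = 0 ∧ z = 0) := fun h => n2 (h.1.trans h.2.1.symm)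
    unfold alp base cor
    rw [if_neg n2, if_pos (rfl : z = z), if_neg m5, if_neg m7]
    have e1 : quadraticChar F (z * (z + 1) * (z + 1 - z) * (z - z)) = 0 := by
      rw [sub_self, mul_zero, quadraticChar_zero]
    have e1' : quadraticChar F ((z + 1 - z) * z) = quadraticChar F z := by
      congr 1
      ring
    have e2 : (if z = 0 then P.a' * quadraticChar F ((z + 1) * z) else 0) = 0 := by
      by_cases h : z = 0
      · rw [if_pos h, h, mul_zero, quadraticChar_zero, mul_zero]
      · rw [if_neg h]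
    have e3 : (if z + 1 = 0 then P.h * quadraticChar F (z * z) else 0) =
        if z = -1 then P.h else 0 := by
      by_cases h : z = -1
      · rw [if_pos h, if_pos (by rw [h]; ring), h, neg_mul_neg, mul_one, map_one,
          mul_one]
      · rw [if_neg h, if_neg (fun h' => h (eq_neg_of_add_eq_zero_left h'))]
    have e4 : (if z = 0 ∧ z = 0 ∧ z + 1 ≠ 0 then P.p1 else 0) = if z = 0 then P.p1 else 0 := by
      by_cases h : z = 0
      · rw [if_pos h, if_pos ⟨h, h, by rw [h, zero_add]; exact one_ne_zero⟩]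
      · rw [if_neg h, if_neg (fun h' => h h'.1)]
    have e5 : (if z = z ∧ z ≠ 0 then ecor P w ((z + 1) / z) else 0) =
        if z ≠ 0 then ecor P w ((z + 1) / z) else 0 := by
      by_cases h : z = 0
      · rw [if_neg (fun h' => h'.2 h), if_neg (fun h' => h' h)]
      · rw [if_pos h, if_pos ⟨rfl, h⟩]
    have e6 : (if z + 1 = 0 ∧ z = 0 ∧ z ≠ 0 then P.p2 else 0) = 0 := if_neg m3
    have e7 : (if z + 1 = 0 ∧ z = 0 ∧ z ≠ 0 then P.p3 else 0) = 0 := if_neg m3
    have e8 : (if z = 0 ∧ z + 1 = z ∧ z + 1 ≠ 0 then P.db else 0) = 0 := if_neg m5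
    rw [e1, e1', e2, e3, e4, e5, e6, e7, e8]
    ring
  rw [Finset.sum_congr rfl (fun z _ => e z), sum_add_distrib, sum_add_distrib, sum_add_distrib,
    ← mul_sum, quadraticChar_sum_zero hF, T17_one, T17_one, T17_ecor P w h1]
  ring

/-- T17 -/
theorem pencil4 (hF : ringChar F ≠ 2) (P : Par) (w : Fin 4 → F) (_h0 : ∀ i, w i ≠ 0)
    (h1 : ∀ i, w i ≠ 1) :
    (∀ c : F, c ≠ 0 → c ≠ 1 → ∑ z, alp P w (z + c) (z + 1) z =
      -P.s * quadraticChar F (c - 1) + P.a' * quadraticChar F c +
        P.h * quadraticChar F (c * (c - 1))) ∧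
    ∑ z, alp P w z (z + 1) z =
      P.s * quadraticChar F (-1) * ((Fintype.card F : ℤ) - 1) + P.p2 + P.da ∧
    ∑ z, alp P w (z + 1) (z + 1) z = P.a' + P.db + P.p3 ∧
    ∑ z, alp P w (z + 1) z z = P.h + P.p1 + P.e0 + ∑ i, P.ew i :=
  ⟨fun c hc0 hc1 => T17_a hF P w c hc0 hc1, T17_b hF P w, T17_c hF P w, T17_d hF P w h1⟩

end field

end H880H
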