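import Pool.Agent.H880H.Defs

/-! T2: raising the dimension by one. -/

set_option autoImplicit false

namespace H880H

open Finset

/-- the index with value `m` at `none` and `g` elsewhere -/
def T2_mk {ι V : Type} (m : V) (g : ι → V) : Option ι → V := fun o => o.elim m g

theorem T2_upd_none {ι V : Type} [DecidableEq ι] (m x : V) (g : ι → V) :
    Function.update (T2_mk m g) none x = T2_mk x g := by
  funext o
  cases o with
  | none => simp [T2_mk]
  | some j => simp [T2_mk]

theorem T2_upd_some {ι V : Type} [DecidableEq ι] (m x : V) (g : ι → V) (j : ι) :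
    Function.update (T2_mk m g) (some j) x = T2_mk m (Function.update g j x) := by
  funext o
  cases o with
  | none => simp [T2_mk]
  | some k =>
    by_cases h : k = j
    · subst h
      simp [T2_mk]
    · rw [Function.update_of_ne (by simpa using h)]
      show g k = Function.update g j x k
      rw [Function.update_of_ne h]

theorem T2_sum {ι V : Type} [Fintype ι] [DecidableEq ι] [Fintype V]
    (F : (Option ι → V) → ℤ) : ∑ i, F i = ∑ m : V, ∑ g : ι → V, F (T2_mk m g) := by
  have h1 : ∑ i, F i = ∑ e : V × (ι → V), F (T2_mk e.1 e.2) := by
    refine Fintype.sum_equiv (⟨fun i => (i none, fun j => i (some j)), fun e => T2_mk e.1 e.2,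
      ?_, ?_⟩ : (Option ι → V) ≃ V × (ι → V)) _ _ ?_
    · intro i
      funext o
      cases o <;> rfl
    · rintro ⟨m, g⟩
      rfl
    · intro i
      simp only [Equiv.coe_fn_mk]
      congr 1
      funext o
      cases o <;> rfl
  rw [h1, Fintype.sum_prod_type]

theorem T2_key {ι V : Type} [Fintype ι] [DecidableEq ι] [Fintype V] (i₀ : ι)
    (F : (ι → V) → ℤ) :
    ∑ c : V, ∑ g : ι → V, F (Function.update g i₀ c) = (Fintype.card V : ℤ) * ∑ g, F g := by
  rw [← Fintype.sum_prod_type (f := fun e : V × (ι → V) => F (Function.update e.2 i₀ e.1))]
  have h1 : ∑ e : V × (ι → V), F (Function.update e.2 i₀ e.1) = ∑ e : V × (ι → V), F e.2 := by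
    refine Fintype.sum_equiv (⟨fun e => (e.2 i₀, Function.update e.2 i₀ e.1),
      fun e => (e.2 i₀, Function.update e.2 i₀ e.1), ?_, ?_⟩ : V × (ι → V) ≃ V × (ι → V)) _ _ ?_
    · rintro ⟨c, g⟩
      simp
    · rintro ⟨c, g⟩
      simp
    · rintro ⟨c, g⟩
      rfl
  rw [h1, Fintype.sum_prod_type]
  simp

/-- T2 -/
theorem had_raise {ι V : Type} [Fintype ι] [DecidableEq ι] [Fintype V] [AddCommGroup V] (i₀ : ι)
    (h : HadT ι V) : HadT (Option ι) V := by
  obtain ⟨A, hA, hS⟩ := h
  refine ⟨fun i => A (Function.update (fun j => i (some j)) i₀ (i (some i₀) + i none)),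
    fun i => hA _, ?_⟩
  have hB : ∀ (m : V) (g : ι → V),
      A (Function.update (fun j => T2_mk m g (some j)) i₀ (T2_mk m g (some i₀) + T2_mk m g none)) =
      A (Function.update g i₀ (g i₀ + m)) := fun m g => rfl
  intro l x y hxy
  rw [T2_sum]
  cases l with
  | none =>
    have h1 : ∑ g : ι → V, A (Function.update g i₀ (g i₀ + x)) *
        A (Function.update g i₀ (g i₀ + y)) = 0 := by
      have h2 := T2_key i₀ (fun g : ι → V => A (Function.update g i₀ (g i₀ + x)) *
        A (Function.update g i₀ (g i₀ + y)))
      have h3 : ∑ c : V, ∑ g : ι → V,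
          (fun g : ι → V => A (Function.update g i₀ (g i₀ + x)) *
            A (Function.update g i₀ (g i₀ + y))) (Function.update g i₀ c) = 0 := by
        apply Finset.sum_eq_zero
        intro c _
        simp only [Function.update_idem, Function.update_self]
        exact hS i₀ (c + x) (c + y) (fun e => hxy (add_left_cancel e))
      rw [h3] at h2
      have h4 : (Fintype.card V : ℤ) ≠ 0 := by
        exact_mod_cast Fintype.card_ne_zero
      rcases mul_eq_zero.mp h2.symm with h5 | h5
      · exact absurd h5 h4
      · exact h5
    apply Finset.sum_eq_zero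
    intro m _
    simp only [T2_upd_none]
    exact h1
  | some j =>
    apply Finset.sum_eq_zero
    intro m _
    simp only [T2_upd_some]
    by_cases hj : j = i₀
    · subst hj
      have e : ∀ (g : ι → V) (z : V),
          A (Function.update (fun k => T2_mk m (Function.update g j z) (some k)) j
            (T2_mk m (Function.update g j z) (some j) + T2_mk m (Function.update g j z) none)) =
          A (Function.update g j (z + m)) := by
        intro g z
        rw [hB, Function.update_idem, Function.update_self]
      simp only [e]
      exact hS j (x + m) (y + m) (fun e => hxy (add_right_cancel e))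
    · have e : ∀ (g : ι → V) (z : V),
          A (Function.update (fun k => T2_mk m (Function.update g j z) (some k)) i₀
            (T2_mk m (Function.update g j z) (some i₀) + T2_mk m (Function.update g j z) none)) =
          A (Function.update (Function.update g i₀ (g i₀ + m)) j z) := by
        intro g z
        rw [hB, Function.update_of_ne (Ne.symm hj), Function.update_comm hj]
      simp only [e]
      rw [← hS j x y hxy]
      refine Fintype.sum_equiv (⟨fun g => Function.update g i₀ (g i₀ + m),
        fun g => Function.update g i₀ (g i₀ - m), ?_, ?_⟩ : (ι → V) ≃ (ι → V)) _ _ ?_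
      · intro g
        simp
      · intro g
        simp
      · intro g
        rfl

end H880H
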