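import Pool.Agent.H880H.T9
import Pool.Agent.H880H.T11
import Pool.Agent.H880H.T12
import Pool.Agent.H880H.T13
import Pool.Agent.H880H.T16

/-! T20: the correlations in the third direction. Author: helper86. -/

set_option autoImplicit false

namespace H880H

open Finset

section field

variable {F : Type} [Field F] [Fintype F] [DecidableEq F]

theorem t20_sum_split (f : F → ℤ) :
    ∑ c, f c = f 0 + f 1 + ∑ c ∈ univ.filter (fun c : F => c ≠ 0 ∧ c ≠ 1), f c := by
  have h1 : (univ.filter (fun c : F => c ≠ 0 ∧ c ≠ 1)) = (univ.erase 0).erase 1 := by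
    ext c
    simp [and_comm]
  rw [h1]
  have h2 : f 1 + ∑ c ∈ (univ.erase (0 : F)).erase 1, f c = ∑ c ∈ univ.erase (0 : F), f c :=
    Finset.add_sum_erase _ _ (by simp)
  have h3 : f 0 + ∑ c ∈ univ.erase (0 : F), f c = ∑ c, f c :=
    Finset.add_sum_erase _ _ (by simp)
  rw [add_assoc, h2, h3]

theorem t20_sq (w : Fin 4 → F) (hinj : Function.Injective w) (h0 : ∀ i, w i ≠ 0)
    (h1 : ∀ i, w i ≠ 1) (G : F → ℤ) (e : Fin 4 → ℤ) :
    ∑ c ∈ univ.filter (fun c : F => c ≠ 0 ∧ c ≠ 1), (G c + ∑ i, if c = w i then e i else 0) ^ 2 =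
      ∑ c ∈ univ.filter (fun c : F => c ≠ 0 ∧ c ≠ 1), G c ^ 2 +
        ∑ i, (2 * e i * G (w i) + e i ^ 2) := by
  have key : ∀ c : F, (G c + ∑ i, if c = w i then e i else 0) ^ 2 =
      G c ^ 2 + ∑ i, if c = w i then (2 * e i * G (w i) + e i ^ 2) else 0 := by
    intro c
    by_cases hc : ∃ i, c = w i
    · obtain ⟨i, rfl⟩ := hc
      have : ∀ (v : Fin 4 → ℤ), ∑ j, (if w i = w j then v j else 0) = v i := by
        intro v
        rw [Finset.sum_eq_single i]
        · simp
        · intro j _ hj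
          rw [if_neg]
          intro h
          exact hj (hinj h).symm
        · simp
      rw [this, this]
      ring
    · push Not at hc
      have : ∀ (v : Fin 4 → ℤ), ∑ j, (if c = w j then v j else 0) = 0 := by
        intro v
        exact Finset.sum_eq_zero fun j _ => if_neg (hc j)
      rw [this, this]
      ring
  simp only [key]
  rw [Finset.sum_add_distrib]
  congr 1
  rw [Finset.sum_comm]
  refine Finset.sum_congr rfl fun i _ => ?_
  rw [Finset.sum_ite_eq']
  rw [if_pos]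
  simp [h0 i, h1 i]

/-- T20 -/
theorem corr3 (hF : ringChar F ≠ 2) (P : Par) (w : Fin 4 → F) (c1 c2 : Fin 4 → ℤ)
    (hw : Wok c1 c2 w) (hs : P.Sgn) (ho : P.Ok (quadraticChar F (-1)) c1 c2) (ξ : F)
    (hξ : ξ ≠ 0) : ∑ x, ∑ y, ∑ z, alp P w x y z * alp P w x y (z + ξ) = 0 := by
  have hio : quadraticChar F (-1) ^ 2 = 1 := by
    rw [← map_pow]; simp
  have sg : ∀ {t : ℤ}, Sg t → t ^ 2 = 1 := by
    intro t ht
    rcases ht with h | h <;> rw [h] <;> norm_num
  obtain ⟨P0, Pa, Pb, Pc, Pd⟩ := alp_points P w hw.ne0 hw.ne1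
  have hcomm : ∀ f : F → F → F → ℤ, ∑ x, ∑ y, ∑ z, f y z x = ∑ x, ∑ y, ∑ z, f x y z := by
    intro f
    rw [Finset.sum_comm]
    refine Finset.sum_congr rfl fun y _ => ?_
    rw [Finset.sum_comm]
  have hl := line_corr (fun a b c => alp P w b c a)
    (fun c x y z hc => alp_hom P w c y z x hc) ξ hξ
    (by
      rw [hcomm (fun x y z => alp P w x y z ^ 2)]
      exact alp_energy hF P w c1 c2 hw hs ho)
    (by rw [P0]; exact sg hs.al0)
  beta_reduce at hl
  rw [hcomm (fun x y z => alp P w x y z * alp P w x y (z + ξ)), P0, Pc] at hl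
  rw [hl]
  obtain ⟨pg, p0, p1, pi⟩ := pencil3 hF P w hw.ne0 hw.ne1
  rw [t20_sum_split, p0, p1, pi]
  have hG : ∑ c ∈ univ.filter (fun c : F => c ≠ 0 ∧ c ≠ 1), (∑ z, alp P w c 1 z) ^ 2 =
      ∑ c ∈ univ.filter (fun c : F => c ≠ 0 ∧ c ≠ 1),
        ((P.a' * quadraticChar F c + P.g * quadraticChar F (c - 1) +
          (-P.s * quadraticChar F (-1)) * quadraticChar F (c * (c - 1))) +
            ∑ i, if c = w i then P.ew i else 0) ^ 2 := by
    refine Finset.sum_congr rfl fun c hc => ?_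
    rw [Finset.mem_filter] at hc
    rw [pg c hc.2.1 hc.2.2]
    ring
  rw [hG, t20_sq w hw.inj hw.ne0 hw.ne1 (fun c => P.a' * quadraticChar F c +
    P.g * quadraticChar F (c - 1) + (-P.s * quadraticChar F (-1)) * quadraticChar F (c * (c - 1))),
    sq_sum hF]
  have hq := ho.q3 (Fintype.card F)
  have he : ∑ i, (2 * P.ew i * (P.a' * quadraticChar F (w i) + P.g * quadraticChar F (w i - 1) +
      -P.s * quadraticChar F (-1) * quadraticChar F (w i * (w i - 1))) + P.ew i ^ 2) =
      ∑ i, (2 * P.ew i * (-P.s * quadraticChar F (-1) * (c1 i * c2 i) + P.a' * c1 i + P.g * c2 i) +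
        P.ew i ^ 2) := by
    refine Finset.sum_congr rfl fun i _ => ?_
    rw [map_mul, hw.h1, hw.h2]
    ring
  rw [he]
  have ha' := sg hs.a'
  have hg := sg hs.g
  have hss := sg hs.s
  generalize quadraticChar F (-1) = io at *
  generalize (Fintype.card F : ℤ) = q at *
  linear_combination hq + (q - 2) * ha' + (q - 2) * hg + (q - 2) * hss + (q - 2) * P.s ^ 2 * hio
    + 2 * P.s * P.a' * hio

end field

end H880H
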