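import Pool.Agent.H880H.Defs

set_option autoImplicit false

namespace H880H

open Finset

variable {F : Type} [Field F] [Fintype F] [DecidableEq F]

theorem T23_lo (P : Fin 4 → Par) (w : Fin 4 → F) (k : Fin 4) (hk : k = 0 ∨ k = 1) (x y z : F) :
    alps P w k (x, y, z) = alp (P k) w x y z := by
  unfold alps
  rw [if_pos hk]

theorem T23_hi (P : Fin 4 → Par) (w : Fin 4 → F) (k : Fin 4) (hk : ¬ (k = 0 ∨ k = 1)) (x y z : F) :
    alps P w k (x, y, z) = alp (P k) w x z y := by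
  unfold alps
  rw [if_neg hk]

theorem T23_d0 (x y z ξ : F) : (x, y, z) + dir F 0 ξ = (x + ξ, y, z) := by
  simp [dir]

theorem T23_d1 (x y z ξ : F) : (x, y, z) + dir F 1 ξ = (x, y + ξ, z) := by
  simp [dir]

theorem T23_d2 (x y z ξ : F) : (x, y, z) + dir F 2 ξ = (x, y, z + ξ) := by
  simp [dir]

theorem T23_d3 (x y z ξ : F) : (x, y, z) + dir F 3 ξ = (x + ξ, y + ξ, z + ξ) := by
  simp [dir]

theorem T23_sum (g : F × F × F → ℤ) : ∑ v, g v = ∑ x, ∑ y, ∑ z, g (x, y, z) := by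
  rw [Fintype.sum_prod_type]
  apply Finset.sum_congr rfl
  intro x _
  rw [Fintype.sum_prod_type]

theorem T23_swap (g : F → F → F → ℤ) : ∑ x, ∑ y, ∑ z, g x z y = ∑ x, ∑ y, ∑ z, g x y z := by
  apply Finset.sum_congr rfl
  intro x _
  rw [Finset.sum_comm]

/-- T23 from the results of the tasks T22, T8, T12, T13, T18, T19, T20, T21 -/
theorem asys_alps_of (P : Fin 4 → Par) (w : Fin 4 → F)
    (hadm : ∀ v : F × F × F, Adm (fun k => alps P w k v))
    (hgen : ∀ (l : Fin 4) (y : F × F × F), ∃ x : Fin 4 → F, x l = 0 ∧ ∑ j, dir F j (x j) = y)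
    (hhom : ∀ (k : Fin 4) (c x y z : F), c ≠ 0 →
      alp (P k) w (c * x) (c * y) (c * z) = alp (P k) w x y z)
    (hen : ∀ k : Fin 4, ∑ x, ∑ y, ∑ z, alp (P k) w x y z ^ 2 = (Fintype.card F : ℤ) ^ 3)
    (hc1 : ∀ (k : Fin 4) (ξ : F), ξ ≠ 0 →
      ∑ x, ∑ y, ∑ z, alp (P k) w x y z * alp (P k) w (x + ξ) y z = 0)
    (hc2 : ∀ (k : Fin 4) (ξ : F), ξ ≠ 0 →
      ∑ x, ∑ y, ∑ z, alp (P k) w x y z * alp (P k) w x (y + ξ) z = 0)
    (hc3 : ∀ (k : Fin 4) (ξ : F), ξ ≠ 0 →
      ∑ x, ∑ y, ∑ z, alp (P k) w x y z * alp (P k) w x y (z + ξ) = 0)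
    (hc4 : ∀ (k : Fin 4) (ξ : F), ξ ≠ 0 →
      ∑ x, ∑ y, ∑ z, alp (P k) w x y z * alp (P k) w (x + ξ) (y + ξ) (z + ξ) = 0) :
    ASys (dir F) (alps P w) := by
  refine ⟨hadm, ?_, hgen, ?_, ?_⟩
  · rintro k ⟨x, y, z⟩
    have hn : (-1 : F) ≠ 0 := neg_ne_zero.mpr one_ne_zero
    have e : (-((x, y, z) : F × F × F)) = (-1 * x, -1 * y, -1 * z) := by
      simp
    rw [e]
    by_cases hk : k = 0 ∨ k = 1
    · rw [T23_lo P w k hk, T23_lo P w k hk, hhom k (-1) x y z hn]
    · rw [T23_hi P w k hk, T23_hi P w k hk, hhom k (-1) x z y hn]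
  · intro k
    rw [T23_sum]
    have hcard : (Fintype.card (F × F × F) : ℤ) = (Fintype.card F : ℤ) ^ 3 := by
      rw [Fintype.card_prod, Fintype.card_prod]
      push_cast
      ring
    rw [hcard, ← hen k]
    by_cases hk : k = 0 ∨ k = 1
    · simp only [T23_lo P w k hk]
    · simp only [T23_hi P w k hk]
      exact T23_swap (fun x y z => alp (P k) w x y z ^ 2)
  · intro k l ξ hξ
    unfold Co
    rw [T23_sum]
    have h1 := hc1 k ξ hξ
    have h2 := hc2 k ξ hξ
    have h3 := hc3 k ξ hξ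
    have h4 := hc4 k ξ hξ
    by_cases hk : k = 0 ∨ k = 1
    · match l with
      | 0 => simp only [T23_d0, T23_lo P w k hk]; exact h1
      | 1 => simp only [T23_d1, T23_lo P w k hk]; exact h2
      | 2 => simp only [T23_d2, T23_lo P w k hk]; exact h3
      | 3 => simp only [T23_d3, T23_lo P w k hk]; exact h4
    · match l with
      | 0 =>
        simp only [T23_d0, T23_hi P w k hk]
        rw [T23_swap (fun x y z => alp (P k) w x y z * alp (P k) w (x + ξ) y z)]; exact h1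
      | 1 =>
        simp only [T23_d1, T23_hi P w k hk]
        rw [T23_swap (fun x y z => alp (P k) w x y z * alp (P k) w x y (z + ξ))]; exact h3
      | 2 =>
        simp only [T23_d2, T23_hi P w k hk]
        rw [T23_swap (fun x y z => alp (P k) w x y z * alp (P k) w x (y + ξ) z)]; exact h2
      | 3 =>
        simp only [T23_d3, T23_hi P w k hk]
        rw [T23_swap (fun x y z => alp (P k) w x y z * alp (P k) w (x + ξ) (y + ξ) (z + ξ))]
        exact h4

end H880H
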