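import Pool.Agent.H880H.Defs

/-! Task T6: systems of order one and three. -/

set_option autoImplicit false

namespace H880H

open Finset

/-- T6 -/
theorem good_one : Good 1 := by
  refine ⟨PUnit, PUnit, inferInstance, inferInstance, inferInstance, inferInstance, fun _ => 0,
    fun k _ => (![-1, 1, 1, 1] : Fin 4 → ℤ) k, rfl, ?_⟩
  refine ⟨?_, ?_, ?_, ?_, ?_, ?_, ?_⟩
  · intro k y
    fin_cases k <;> simp
  · intro k y
    rfl
  · intro l y
    exact ⟨fun _ => 0, rfl, Subsingleton.elim _ _⟩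
  · intro l x hx
    exact absurd (Subsingleton.elim _ _) hx
  · intro l x
    simp [Co]
  · intro l x
    simp [Co]
  · intro l x
    simp [Co]

/-- the directions for the system of order three -/
def T6_u : Fin 4 → ZMod 3 →+ ZMod 3 × ZMod 3 :=
  ![AddMonoidHom.mk' (fun x => (x, 0)) (by intro a b; simp),
    AddMonoidHom.mk' (fun x => (0, x)) (by intro a b; simp),
    AddMonoidHom.mk' (fun x => (x, x)) (by intro a b; simp),
    AddMonoidHom.mk' (fun x => (x, -x)) (by intro a b; simp [add_comm])]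

/-- the functions for the system of order three -/
def T6_f (k : Fin 4) (v : ZMod 3 × ZMod 3) : ℤ :=
  if v.1 = 0 ∧ v.2 = 0 then (![-1, -1, -1, 1] : Fin 4 → ℤ) k
  else if v.2 = 0 then 1
  else if v.1 = 0 then (![1, 1, -1, -1] : Fin 4 → ℤ) k
  else if v.1 = v.2 then (![1, -1, 1, -1] : Fin 4 → ℤ) k
  else (![-1, 1, 1, -1] : Fin 4 → ℤ) k

theorem T6_gen : ∀ (l : Fin 4) (y : ZMod 3 × ZMod 3), ∃ x : Fin 4 → ZMod 3,
    x l = 0 ∧ ∑ j, T6_u j (x j) = y := by
  intro l y
  have hx : ∀ x : Fin 4 → ZMod 3, ∑ j, T6_u j (x j) =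
      (x 0 + x 2 + x 3, x 1 + x 2 - x 3) := by
    intro x
    rw [Fin.sum_univ_four]
    show (x 0, (0 : ZMod 3)) + (0, x 1) + (x 2, x 2) + (x 3, -x 3) = _
    ext <;> simp <;> ring
  simp only [hx]
  obtain ⟨a, b⟩ := y
  fin_cases l
  · -- x 0 = 0: x 3 = 0, x 2 = a, x 1 = b - a
    refine ⟨![0, b - a, a, 0], rfl, ?_⟩
    ext <;> simp
  · -- x 1 = 0: x 3 = 0, x 2 = b, x 0 = a - b
    refine ⟨![a - b, 0, b, 0], rfl, ?_⟩
    ext <;> simp
  · refine ⟨![a, b, 0, 0], rfl, ?_⟩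
    ext <;> simp
  · refine ⟨![a, b, 0, 0], rfl, ?_⟩
    ext <;> simp

theorem T6_sys : Sys T6_u T6_f := by
  refine ⟨?_, ?_, T6_gen, ?_, ?_, ?_, ?_⟩
  · decide +kernel
  · decide +kernel
  · unfold Co
    decide +kernel
  · unfold Co
    decide +kernel
  · unfold Co
    decide +kernel
  · unfold Co
    decide +kernel

/-- T6 -/
theorem good_three : Good 3 :=
  ⟨ZMod 3, ZMod 3 × ZMod 3, inferInstance, inferInstance, inferInstance, inferInstance, T6_u, T6_f,
    by simp, T6_sys⟩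

end H880H
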