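import Pool.Agent.H880H.Defs

/-!
# The tables satisfy the numerical conditions
-/

set_option autoImplicit false

namespace H880H

open Finset

instance (x : ℤ) : Decidable (Sg x) := inferInstanceAs (Decidable (_ ∨ _))

instance (v : Fin 4 → ℤ) : Decidable (Adm v) := inferInstanceAs (Decidable (_ ∨ _))

theorem PP_ok (k : Fin 4) : (PP k).Ok 1 C1 C2 := by
  fin_cases k <;> constructor <;>
    first
    | (simp [PP, C1, C2, Fin.sum_univ_succ]; done)
    | (simp [PP, C1, C2, Fin.sum_univ_succ] <;> intro q <;> ring)

theorem MM_ok (k : Fin 4) : (MM k).Ok (-1) C1 C2 := by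
  fin_cases k <;> constructor <;>
    first
    | (simp [MM, C1, C2, Fin.sum_univ_succ]; done)
    | (simp [MM, C1, C2, Fin.sum_univ_succ] <;> intro q <;> ring)

theorem PP_sgn (k : Fin 4) : (PP k).Sgn := by
  fin_cases k <;> constructor <;> decide

theorem MM_sgn (k : Fin 4) : (MM k).Sgn := by
  fin_cases k <;> constructor <;> decide

theorem PP_compat : Compat PP 1 C2 where
  sg := PP_sgn
  s01 := by decide
  a01 := by decide
  a'01 := by decide
  s23 := by decide
  a23 := by decide
  a'23 := by decide
  g := by decide
  h := by decide
  p1 := by decide
  p2 := by decide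
  p3 := by decide
  p4 := by decide
  dA := by decide
  dB := by decide
  dC := by decide
  ew := by decide
  al0 := by decide

theorem MM_compat : Compat MM (-1) C2 where
  sg := MM_sgn
  s01 := by decide
  a01 := by decide
  a'01 := by decide
  s23 := by decide
  a23 := by decide
  a'23 := by decide
  g := by decide
  h := by decide
  p1 := by decide
  p2 := by decide
  p3 := by decide
  p4 := by decide
  dA := by decide
  dB := by decide
  dC := by decide
  ew := by decide
  al0 := by decide

end H880H
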