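import Pool.Agent.H880H.T5
import Pool.Agent.H880H.T6
import Pool.Agent.H880H.T7
import Pool.Agent.H880H.T10
import Pool.Agent.H880H.T23
import Pool.Agent.H880H.Tables

set_option autoImplicit false

namespace H880H

open Finset

/-- T24 -/
theorem good_prime (p : ℕ) (hp : p.Prime) (h2 : p ≠ 2) : Good p := by
  have : Fact p.Prime := ⟨hp⟩
  by_cases h3 : p = 3
  · subst h3; exact good_three
  by_cases h5 : p = 5
  · subst h5; exact good_five
  have h7 : 7 ≤ p := by
    have h22 := hp.two_le
    have h4 : p ≠ 4 := by rintro rfl; revert hp; decide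
    have h6 : p ≠ 6 := by rintro rfl; revert hp; decide
    omega
  have hF : ringChar (ZMod p) ≠ 2 := by rw [ZMod.ringChar_zmod_n]; exact h2
  have hcard : Fintype.card (ZMod p) = p := ZMod.card p
  have hne : (-1 : ZMod p) ≠ 0 := neg_ne_zero.2 one_ne_zero
  rcases quadraticChar_dichotomy hne with hq | hq
  · -- `χ (-1) = 1`
    have h13 : 9 ≤ p := by
      have hsq : IsSquare (-1 : ZMod p) := (quadraticChar_one_iff_isSquare hne).1 hq
      have h4 := (ZMod.exists_sq_eq_neg_one_iff (p := p)).1 (by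
        obtain ⟨y, hy⟩ := hsq
        exact ⟨y, by rw [hy]⟩)
      have h8 : p ≠ 8 := by rintro rfl; revert hp; decide
      omega
    obtain ⟨w, hw⟩ := exists_w (F := ZMod p) hF (Or.inr ⟨hq, by rw [hcard]; exact h13⟩)
    have hA : ASys (dir (ZMod p)) (alps PP w) :=
      asys_alps hF PP w C1 C2 hw (by rw [hq]; exact PP_compat) (fun k => by rw [hq]; exact PP_ok k)
    obtain ⟨f, hf⟩ := sys_of_asys hA
    exact ⟨ZMod p, ZMod p × ZMod p × ZMod p, inferInstance, inferInstance, inferInstance,
      inferInstance, dir (ZMod p), f, hcard, hf⟩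
  · obtain ⟨w, hw⟩ := exists_w (F := ZMod p) hF (Or.inl ⟨hq, by rw [hcard]; exact h7⟩)
    have hA : ASys (dir (ZMod p)) (alps MM w) :=
      asys_alps hF MM w C1 C2 hw (by rw [hq]; exact MM_compat) (fun k => by rw [hq]; exact MM_ok k)
    obtain ⟨f, hf⟩ := sys_of_asys hA
    exact ⟨ZMod p, ZMod p × ZMod p × ZMod p, inferInstance, inferInstance, inferInstance,
      inferInstance, dir (ZMod p), f, hcard, hf⟩

end H880H
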