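import Pool.Agent.H880H.Defs

/-! Task T25: all odd orders. -/

set_option autoImplicit false

namespace H880H

open Finset

/-- T25, from the facts used -/
theorem T25_of (h1 : Good 1) (hmul : ∀ s t : ℕ, Good s → Good t → Good (s * t))
    (hp : ∀ p : ℕ, p.Prime → p ≠ 2 → Good p) (t : ℕ) (ht : Odd t) : Good t := by
  induction t using Nat.strong_induction_on with
  | _ t ih =>
    rcases eq_or_ne t 1 with h | h
    · rw [h]
      exact h1
    · have hpr := Nat.minFac_prime h
      have hd := Nat.minFac_dvd t
      obtain ⟨s, hs⟩ := hd
      have ht0 : 0 < t := ht.pos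
      have hodd := ht
      rw [hs, Nat.odd_mul] at hodd
      have h2 : t.minFac ≠ 2 := by
        intro h3
        rw [h3] at hodd
        exact absurd hodd.1 (by decide)
      have hlt : s < t := by
        have hs0 : 0 < s := by
          rcases Nat.eq_zero_or_pos s with h3 | h3
          · rw [h3, mul_zero] at hs
            omega
          · exact h3
        have := hpr.two_le
        rw [hs]
        nlinarith
      rw [hs]
      exact hmul _ _ (hp _ hpr h2) (ih s hlt hodd.2)

end H880H
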