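import Pool.Agent.H880H.GoodMul
import Pool.Agent.H880H.T6
import Pool.Agent.H880H.T24
import Pool.Agent.H880H.T25a

/-! Task T25: all odd orders. -/

set_option autoImplicit false

namespace H880H

/-- T25 -/
theorem good_odd (t : ℕ) (ht : Odd t) : Good t :=
  T25_of good_one (fun _ _ hs ht => good_mul hs ht) good_prime t ht

end H880H
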