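import Pool.Agent.H880H.Defs

/-!
# T26: Hadamard arrays of order `2 t` in all dimensions `≥ 4`

The assembly, from the statements of T1, T2, T3, T25.
-/

set_option autoImplicit false

namespace H880H

open Finset

/-- statement of `had_congr` (T1) -/
def T26Congr : Prop := ∀ {ι V ι' V' : Type} [Fintype ι] [DecidableEq ι] [Fintype V] [Fintype ι']
    [DecidableEq ι'] [Fintype V'], (ι ≃ ι') → (V ≃ V') → HadT ι V → HadT ι' V'

/-- statement of `had_mul` (T1) -/
def T26Mul : Prop := ∀ {ι V W : Type} [Fintype ι] [DecidableEq ι] [Fintype V] [Fintype W],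
    HadT ι V → HadT ι W → HadT ι (V × W)

/-- statement of `had_raise` (T2) -/
def T26Raise : Prop := ∀ {ι V : Type} [Fintype ι] [DecidableEq ι] [Fintype V] [AddCommGroup V]
    (_ : ι), HadT ι V → HadT (Option ι) V

/-- statement of `had_of_sys` (T3) -/
def T26Sys : Prop := ∀ {X Y : Type} [AddCommGroup X] [AddCommGroup Y] [Fintype X] [Fintype Y]
    {u : Fin 4 → X →+ Y} {f : Fin 4 → Y → ℤ}, Sys u f → HadT (Fin 4) (Bool × X)

/-- dimension four, `t = 2 ^ k * m` with `m` odd -/
theorem t26_four (hc : T26Congr) (hmul : T26Mul) (h42 : HadT (Fin 4) Bool) (hsys : T26Sys)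
    (m : ℕ) (hm : Good m) (k : ℕ) : HadT (Fin 4) (Fin (2 * (2 ^ k * m))) := by
  induction k with
  | zero =>
    obtain ⟨X, Y, iX, iY, fX, fY, u, f, hcard, hs⟩ := hm
    have h1 : HadT (Fin 4) (Bool × X) := hsys hs
    refine hc (Equiv.refl _) (Fintype.equivFinOfCardEq ?_) h1
    rw [Fintype.card_prod, Fintype.card_bool, hcard]
    ring
  | succ k ih =>
    have h1 : HadT (Fin 4) (Bool × Fin (2 * (2 ^ k * m))) := hmul h42 ih
    refine hc (Equiv.refl _) (Fintype.equivFinOfCardEq ?_) h1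
    rw [Fintype.card_prod, Fintype.card_bool, Fintype.card_fin]
    ring

/-- T26 from the statements of T1, T2, T3, T25 -/
theorem had_even_of (hc : T26Congr) (hmul : T26Mul) (h42 : HadT (Fin 4) Bool) (hr : T26Raise)
    (hsys : T26Sys) (hodd : ∀ t : ℕ, Odd t → Good t) (n t : ℕ) (hn : 4 ≤ n) (ht : 1 ≤ t) :
    HadT (Fin n) (Fin (2 * t)) := by
  have h4 : HadT (Fin 4) (Fin (2 * t)) := by
    obtain ⟨k, m, hm, rfl⟩ := Nat.exists_eq_two_pow_mul_odd (n := t) (by omega)
    exact t26_four hc hmul h42 hsys m (hodd m hm) k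
  have : NeZero (2 * t) := ⟨by omega⟩
  induction n, hn using Nat.le_induction with
  | base => exact h4
  | succ n hn ih =>
    have h1 : HadT (Option (Fin n)) (Fin (2 * t)) := hr ⟨0, by omega⟩ ih
    exact hc (finSuccEquiv n).symm (Equiv.refl _) h1

end H880H
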