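import Pool.Agent.H880H.Defs

/-!
Task T3: a system of four functions gives a 4-dimensional array of order `2 t`.
-/

set_option autoImplicit false
set_option linter.unusedSimpArgs false

namespace H880H

open Finset

/-- sign of a vector of bits -/
def T3sg (b : Fin 4 → Bool) : ℤ := if xor (b 0 && b 2) (b 1 && b 3) then -1 else 1

/-- class of a vector of bits -/
def T3kap (b : Fin 4 → Bool) : Fin 4 :=
  if xor (b 0) (b 1) then (if xor (b 2) (b 3) then 3 else 2)
  else (if xor (b 2) (b 3) then 1 else 0)

/-- bits as a product -/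
def T3eq : Bool × Bool × Bool × Bool ≃ (Fin 4 → Bool) where
  toFun p := ![p.1, p.2.1, p.2.2.1, p.2.2.2]
  invFun b := (b 0, b 1, b 2, b 3)
  left_inv p := rfl
  right_inv b := by
    funext i
    fin_cases i <;> rfl

theorem T3_expand (G : (Fin 4 → Bool) → ℤ) :
    ∑ b, G b = ∑ b0 : Bool, ∑ b1 : Bool, ∑ b2 : Bool, ∑ b3 : Bool, G ![b0, b1, b2, b3] := by
  rw [← T3eq.sum_comp G]
  simp only [Fintype.sum_prod_type]
  rfl

theorem T3_up0 (b0 b1 b2 b3 β : Bool) :
    Function.update ![b0, b1, b2, b3] 0 β = ![β, b1, b2, b3] := by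
  funext i; fin_cases i <;> rfl

theorem T3_up1 (b0 b1 b2 b3 β : Bool) :
    Function.update ![b0, b1, b2, b3] 1 β = ![b0, β, b2, b3] := by
  funext i; fin_cases i <;> rfl

theorem T3_up2 (b0 b1 b2 b3 β : Bool) :
    Function.update ![b0, b1, b2, b3] 2 β = ![b0, b1, β, b3] := by
  funext i; fin_cases i <;> rfl

theorem T3_up3 (b0 b1 b2 b3 β : Bool) :
    Function.update ![b0, b1, b2, b3] 3 β = ![b0, b1, b2, β] := by
  funext i; fin_cases i <;> rfl

theorem T3_same (C : Fin 4 → Fin 4 → ℤ) (l : Fin 4) (β : Bool) :
    ∑ b : Fin 4 → Bool, (T3sg (Function.update b l β) * T3sg (Function.update b l β)) *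
      C (T3kap (Function.update b l β)) (T3kap (Function.update b l β)) =
    4 * (C 0 0 + C 1 1 + C 2 2 + C 3 3) := by
  rw [T3_expand]
  simp only [Fintype.sum_bool]
  fin_cases l <;> cases β <;>
    simp [T3_up0, T3_up1, T3_up2, T3_up3, T3sg, T3kap] <;> ring

theorem T3_diff (C : Fin 4 → Fin 4 → ℤ) (l : Fin 4) (β β' : Bool) (h : β ≠ β') :
    ∑ b : Fin 4 → Bool, (T3sg (Function.update b l β) * T3sg (Function.update b l β')) *
      C (T3kap (Function.update b l β)) (T3kap (Function.update b l β')) = 0 := by
  rw [T3_expand]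
  simp only [Fintype.sum_bool]
  revert h
  fin_cases l <;> cases β <;> cases β' <;> intro h <;>
    simp [T3_up0, T3_up1, T3_up2, T3_up3, T3sg, T3kap] at h ⊢ <;> ring

/-- split an index -/
def T3split (X : Type) : (Fin 4 → Bool) × (Fin 4 → X) ≃ (Fin 4 → Bool × X) where
  toFun p i := (p.1 i, p.2 i)
  invFun i := (fun j => (i j).1, fun j => (i j).2)
  left_inv p := rfl
  right_inv i := rfl

theorem T3_sum_split {X : Type} [Fintype X] (G : (Fin 4 → Bool × X) → ℤ) :
    ∑ i, G i = ∑ b : Fin 4 → Bool, ∑ x : Fin 4 → X, G (fun j => (b j, x j)) := by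
  rw [← (T3split X).sum_comp G, Fintype.sum_prod_type]
  rfl

theorem T3_up_fst {X : Type} (b : Fin 4 → Bool) (x : Fin 4 → X) (l : Fin 4) (β : Bool) (c : X) :
    (fun j => (Function.update (fun j => (b j, x j)) l (β, c) j).1) = Function.update b l β := by
  funext j
  by_cases h : j = l
  · subst h; simp
  · simp [h]

theorem T3_up_snd {X : Type} (b : Fin 4 → Bool) (x : Fin 4 → X) (l : Fin 4) (β : Bool) (c : X) :
    (fun j => (Function.update (fun j => (b j, x j)) l (β, c) j).2) = Function.update x l c := by
  funext j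
  by_cases h : j = l
  · subst h; simp
  · simp [h]

/-- the linear form -/
def T3phi {X Y : Type} [AddCommGroup X] [AddCommGroup Y] (u : Fin 4 → X →+ Y) (x : Fin 4 → X) :
    Y := ∑ j, u j (x j)

theorem T3phi_add {X Y : Type} [AddCommGroup X] [AddCommGroup Y] (u : Fin 4 → X →+ Y)
    (x x' : Fin 4 → X) : T3phi u (x + x') = T3phi u x + T3phi u x' := by
  simp [T3phi, Finset.sum_add_distrib]

theorem T3_shift {X Y : Type} [AddCommGroup X] [AddCommGroup Y] (u : Fin 4 → X →+ Y)
    (x : Fin 4 → X) (l : Fin 4) (c c' : X) :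
    T3phi u (Function.update x l c') = T3phi u (Function.update x l c) + u l (c' - c) := by
  have h : Function.update x l c' = Function.update x l c + Pi.single l (c' - c) := by
    funext j
    by_cases h : j = l
    · subst h; simp
    · simp [h]
  rw [h, T3phi_add]
  congr 1
  unfold T3phi
  rw [Finset.sum_eq_single l]
  · simp
  · intro j _ hj
    simp [Pi.single_eq_of_ne hj]
  · intro h
    exact absurd (Finset.mem_univ l) h

theorem T3_avg {X Y : Type} [AddCommGroup X] [AddCommGroup Y] [Fintype X] [Fintype Y]
    (u : Fin 4 → X →+ Y) (l : Fin 4)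
    (gen : ∀ (y : Y), ∃ x : Fin 4 → X, x l = 0 ∧ ∑ j, u j (x j) = y) (c : X) (G : Y → ℤ) :
    (Fintype.card Y : ℤ) * ∑ x : Fin 4 → X, G (T3phi u (Function.update x l c)) =
      (Fintype.card (Fin 4 → X) : ℤ) * ∑ y, G y := by
  have h1 : ∀ y0 : Y, ∑ x : Fin 4 → X, G (T3phi u (Function.update x l c) + y0) =
      ∑ x : Fin 4 → X, G (T3phi u (Function.update x l c)) := by
    intro y0
    obtain ⟨x0, hx0, hy0⟩ := gen y0
    rw [← Equiv.sum_comp (Equiv.addRight x0) (fun x => G (T3phi u (Function.update x l c)))]
    refine Finset.sum_congr rfl fun x _ => ?_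
    congr 1
    have h2 : Function.update ((Equiv.addRight x0) x) l c = Function.update x l c + x0 := by
      funext j
      by_cases h : j = l
      · subst h; simp [hx0]
      · simp [h]
    rw [h2, T3phi_add]
    congr 1
    exact hy0.symm
  calc (Fintype.card Y : ℤ) * ∑ x : Fin 4 → X, G (T3phi u (Function.update x l c))
      = ∑ y0 : Y, ∑ x : Fin 4 → X, G (T3phi u (Function.update x l c) + y0) := by
        rw [Finset.sum_congr rfl fun y0 _ => h1 y0]
        simp
    _ = ∑ x : Fin 4 → X, ∑ y0 : Y, G (T3phi u (Function.update x l c) + y0) :=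
        Finset.sum_comm
    _ = ∑ x : Fin 4 → X, ∑ y : Y, G y := by
        refine Finset.sum_congr rfl fun x _ => ?_
        exact Equiv.sum_comp (Equiv.addLeft (T3phi u (Function.update x l c))) G
    _ = (Fintype.card (Fin 4 → X) : ℤ) * ∑ y, G y := by
        simp

/-- T3 -/
theorem had_of_sys {X Y : Type} [AddCommGroup X] [AddCommGroup Y] [Fintype X] [Fintype Y]
    {u : Fin 4 → X →+ Y} {f : Fin 4 → Y → ℤ} (h : Sys u f) : HadT (Fin 4) (Bool × X) := by
  refine ⟨fun i => T3sg (fun j => (i j).1) *
    f (T3kap (fun j => (i j).1)) (T3phi u (fun j => (i j).2)), ?_, ?_⟩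
  · intro i
    have h1 : T3sg (fun j => (i j).1) = 1 ∨ T3sg (fun j => (i j).1) = -1 := by
      unfold T3sg
      split_ifs
      · exact Or.inr rfl
      · exact Or.inl rfl
    rcases h1 with h1 | h1 <;> rcases h.sign (T3kap (fun j => (i j).1))
      (T3phi u (fun j => (i j).2)) with h2 | h2 <;> simp only [h1, h2] <;> norm_num
  · rintro l ⟨β, c⟩ ⟨β', c'⟩ hne
    rw [T3_sum_split]
    simp only [T3_up_fst, T3_up_snd]
    have hcard : (Fintype.card Y : ℤ) ≠ 0 := by
      have : 0 < Fintype.card Y := Fintype.card_pos_iff.2 ⟨0⟩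
      exact_mod_cast this.ne'
    apply mul_left_cancel₀ hcard
    rw [mul_zero, Finset.mul_sum]
    have h1 : ∀ b : Fin 4 → Bool, (Fintype.card Y : ℤ) * ∑ x : Fin 4 → X,
        (T3sg (Function.update b l β) * f (T3kap (Function.update b l β))
          (T3phi u (Function.update x l c))) *
        (T3sg (Function.update b l β') * f (T3kap (Function.update b l β'))
          (T3phi u (Function.update x l c'))) =
        (Fintype.card (Fin 4 → X) : ℤ) *
        ((T3sg (Function.update b l β) * T3sg (Function.update b l β')) *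
        Co (f (T3kap (Function.update b l β))) (f (T3kap (Function.update b l β')))
          (u l (c' - c))) := by
      intro b
      have h2 := T3_avg u l (h.gen l) c (fun y => f (T3kap (Function.update b l β)) y *
        f (T3kap (Function.update b l β')) (y + u l (c' - c)))
      have h3 : ∑ x : Fin 4 → X,
          (T3sg (Function.update b l β) * f (T3kap (Function.update b l β))
            (T3phi u (Function.update x l c))) *
          (T3sg (Function.update b l β') * f (T3kap (Function.update b l β'))
            (T3phi u (Function.update x l c'))) =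
          (T3sg (Function.update b l β) * T3sg (Function.update b l β')) *
          ∑ x : Fin 4 → X, f (T3kap (Function.update b l β)) (T3phi u (Function.update x l c)) *
            f (T3kap (Function.update b l β'))
              (T3phi u (Function.update x l c) + u l (c' - c)) := by
        rw [Finset.mul_sum]
        refine Finset.sum_congr rfl fun x _ => ?_
        rw [T3_shift u x l c c']
        ring
      rw [h3]
      unfold Co
      calc _ = (T3sg (Function.update b l β) * T3sg (Function.update b l β')) *
            ((Fintype.card Y : ℤ) * ∑ x : Fin 4 → X,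
              f (T3kap (Function.update b l β)) (T3phi u (Function.update x l c)) *
              f (T3kap (Function.update b l β'))
                (T3phi u (Function.update x l c) + u l (c' - c))) := by ring
        _ = _ := by rw [h2]; ring
    rw [Finset.sum_congr rfl fun b _ => h1 b, ← Finset.mul_sum]
    apply mul_eq_zero_of_right
    by_cases hβ : β = β'
    · subst hβ
      have hc : c' - c ≠ 0 := by
        intro h0
        apply hne
        rw [sub_eq_zero] at h0
        rw [h0]
      rw [T3_same (fun k k' => Co (f k) (f k') (u l (c' - c))) l β, h.c0 l _ hc, mul_zero]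
    · exact T3_diff (fun k k' => Co (f k) (f k') (u l (c' - c))) l β β' hβ

end H880H
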