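import Pool.Agent.H880H.Defs

/-! Task T5: change of basis. -/

set_option autoImplicit false

namespace H880H

open Finset

theorem T5_half (v : Fin 4 → ℤ) (h : Adm v) :
    (2 * ((v 0 + v 1 + v 2 + v 3) / 2) = v 0 + v 1 + v 2 + v 3 ∧
      2 * ((v 0 + v 1 - v 2 - v 3) / 2) = v 0 + v 1 - v 2 - v 3 ∧
      2 * ((v 0 - v 1 + v 2 - v 3) / 2) = v 0 - v 1 + v 2 - v 3 ∧
      2 * ((v 0 - v 1 - v 2 + v 3) / 2) = v 0 - v 1 - v 2 + v 3) ∧
    (((v 0 + v 1 + v 2 + v 3) / 2 = 1 ∨ (v 0 + v 1 + v 2 + v 3) / 2 = -1) ∧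
      ((v 0 + v 1 - v 2 - v 3) / 2 = 1 ∨ (v 0 + v 1 - v 2 - v 3) / 2 = -1) ∧
      ((v 0 - v 1 + v 2 - v 3) / 2 = 1 ∨ (v 0 - v 1 + v 2 - v 3) / 2 = -1) ∧
      ((v 0 - v 1 - v 2 + v 3) / 2 = 1 ∨ (v 0 - v 1 - v 2 + v 3) / 2 = -1)) := by
  rcases h with ⟨hs, hp⟩ | ⟨j, hj, hi⟩
  · rcases hs 0 with h0 | h0 <;> rcases hs 1 with h1 | h1 <;> rcases hs 2 with h2 | h2 <;>
      rcases hs 3 with h3 | h3 <;> rw [h0, h1, h2, h3] at hp ⊢ <;>
      first | (exfalso; revert hp; decide) | decide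
  · have key : (v 0 = 2 ∨ v 0 = -2) ∧ v 1 = 0 ∧ v 2 = 0 ∧ v 3 = 0 ∨
        (v 1 = 2 ∨ v 1 = -2) ∧ v 0 = 0 ∧ v 2 = 0 ∧ v 3 = 0 ∨
        (v 2 = 2 ∨ v 2 = -2) ∧ v 0 = 0 ∧ v 1 = 0 ∧ v 3 = 0 ∨
        (v 3 = 2 ∨ v 3 = -2) ∧ v 0 = 0 ∧ v 1 = 0 ∧ v 2 = 0 := by
      fin_cases j
      · exact Or.inl ⟨hj, hi 1 (by decide), hi 2 (by decide), hi 3 (by decide)⟩
      · exact Or.inr (Or.inl ⟨hj, hi 0 (by decide), hi 2 (by decide), hi 3 (by decide)⟩)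
      · exact Or.inr (Or.inr (Or.inl ⟨hj, hi 0 (by decide), hi 1 (by decide),
          hi 3 (by decide)⟩))
      · exact Or.inr (Or.inr (Or.inr ⟨hj, hi 0 (by decide), hi 1 (by decide),
          hi 2 (by decide)⟩))
    rcases key with ⟨h0 | h0, h1, h2, h3⟩ | ⟨h0 | h0, h1, h2, h3⟩ | ⟨h0 | h0, h1, h2, h3⟩ |
      ⟨h0 | h0, h1, h2, h3⟩ <;> rw [h0, h1, h2, h3] <;> decide

theorem T5_Co_symm {Y : Type} [AddCommGroup Y] [Fintype Y] (a b : Y → ℤ)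
    (ha : ∀ y, a (-y) = a y) (hb : ∀ y, b (-y) = b y) (s : Y) : Co a b s = Co b a s := by
  unfold Co
  rw [← Equiv.sum_comp (Equiv.subLeft (-s)) fun y => a y * b (y + s)]
  apply sum_congr rfl
  intro y _
  have e1 : (Equiv.subLeft (-s)) y = -(y + s) := by
    simp only [Equiv.subLeft_apply]
    abel
  have e2 : -(y + s) + s = -y := by abel
  rw [e1, e2, ha, hb, mul_comm]

/-- T5 -/
theorem sys_of_asys {X Y : Type} [AddCommGroup X] [AddCommGroup Y] [Fintype X] [Fintype Y]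
    {u : Fin 4 → X →+ Y} {α : Fin 4 → Y → ℤ} (h : ASys u α) :
    ∃ f : Fin 4 → Y → ℤ, Sys u f := by
  have hh := fun y => T5_half (fun k => α k y) (h.adm y)
  obtain ⟨f0, hf0⟩ : ∃ f0 : Y → ℤ, f0 = fun y => (α 0 y + α 1 y + α 2 y + α 3 y) / 2 := ⟨_, rfl⟩
  obtain ⟨f1, hf1⟩ : ∃ f1 : Y → ℤ, f1 = fun y => (α 0 y + α 1 y - α 2 y - α 3 y) / 2 := ⟨_, rfl⟩
  obtain ⟨f2, hf2⟩ : ∃ f2 : Y → ℤ, f2 = fun y => (α 0 y - α 1 y + α 2 y - α 3 y) / 2 := ⟨_, rfl⟩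
  obtain ⟨f3, hf3⟩ : ∃ f3 : Y → ℤ, f3 = fun y => (α 0 y - α 1 y - α 2 y + α 3 y) / 2 := ⟨_, rfl⟩
  have E0 : ∀ y, 2 * f0 y = α 0 y + α 1 y + α 2 y + α 3 y := fun y => by
    rw [hf0]; exact (hh y).1.1
  have E1 : ∀ y, 2 * f1 y = α 0 y + α 1 y - α 2 y - α 3 y := fun y => by
    rw [hf1]; exact (hh y).1.2.1
  have E2 : ∀ y, 2 * f2 y = α 0 y - α 1 y + α 2 y - α 3 y := fun y => by
    rw [hf2]; exact (hh y).1.2.2.1
  have E3 : ∀ y, 2 * f3 y = α 0 y - α 1 y - α 2 y + α 3 y := fun y => by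
    rw [hf3]; exact (hh y).1.2.2.2
  have S0 : ∀ y, f0 y = 1 ∨ f0 y = -1 := fun y => by rw [hf0]; exact (hh y).2.1
  have S1 : ∀ y, f1 y = 1 ∨ f1 y = -1 := fun y => by rw [hf1]; exact (hh y).2.2.1
  have S2 : ∀ y, f2 y = 1 ∨ f2 y = -1 := fun y => by rw [hf2]; exact (hh y).2.2.2.1
  have S3 : ∀ y, f3 y = 1 ∨ f3 y = -1 := fun y => by rw [hf3]; exact (hh y).2.2.2.2
  have hsy : ∀ (k l : Fin 4) (s : Y), Co (α k) (α l) s = Co (α l) (α k) s := fun k l s =>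
    T5_Co_symm _ _ (h.even k) (h.even l) s
  have h00 : ∀ k, Co (α k) (α k) 0 = Fintype.card Y := by
    intro k
    rw [← h.energy k]
    unfold Co
    apply sum_congr rfl
    intro y _
    rw [add_zero, pow_two]
  have hA : ∀ (l : Fin 4) (x : X) (k k' : Fin 4),
      Co (α k) (α k) (u l x) = Co (α k') (α k') (u l x) := by
    intro l x k k'
    rcases eq_or_ne x 0 with hx | hx
    · rw [hx, map_zero, h00, h00]
    · rw [h.corr k l x hx, h.corr k' l x hx]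
  have K0 : ∀ s, 4 * (Co f0 f0 s + Co f1 f1 s + Co f2 f2 s + Co f3 f3 s) =
      4 * (Co (α 0) (α 0) s + Co (α 1) (α 1) s + Co (α 2) (α 2) s + Co (α 3) (α 3) s) := by
    intro s
    unfold Co
    simp only [← sum_add_distrib, mul_sum]
    apply sum_congr rfl
    intro y _
    linear_combination 2 * f0 (y + s) * E0 y + (α 0 y + α 1 y + α 2 y + α 3 y) * E0 (y + s) +
      2 * f1 (y + s) * E1 y + (α 0 y + α 1 y - α 2 y - α 3 y) * E1 (y + s) +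
      2 * f2 (y + s) * E2 y + (α 0 y - α 1 y + α 2 y - α 3 y) * E2 (y + s) +
      2 * f3 (y + s) * E3 y + (α 0 y - α 1 y - α 2 y + α 3 y) * E3 (y + s)
  have K1 : ∀ s, 4 * (Co f0 f1 s + Co f2 f3 s) =
      2 * (Co (α 0) (α 0) s + Co (α 1) (α 1) s - Co (α 2) (α 2) s - Co (α 3) (α 3) s +
        (Co (α 2) (α 0) s - Co (α 0) (α 2) s) + (Co (α 3) (α 1) s - Co (α 1) (α 3) s)) := by
    intro s
    unfold Co
    simp only [← sum_add_distrib, ← sum_sub_distrib, mul_sum]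
    apply sum_congr rfl
    intro y _
    linear_combination 2 * f1 (y + s) * E0 y + (α 0 y + α 1 y + α 2 y + α 3 y) * E1 (y + s) +
      2 * f3 (y + s) * E2 y + (α 0 y - α 1 y + α 2 y - α 3 y) * E3 (y + s)
  have K2 : ∀ s, 4 * (Co f0 f2 s + Co f1 f3 s) =
      2 * (Co (α 0) (α 0) s - Co (α 1) (α 1) s + Co (α 2) (α 2) s - Co (α 3) (α 3) s +
        (Co (α 1) (α 0) s - Co (α 0) (α 1) s) + (Co (α 3) (α 2) s - Co (α 2) (α 3) s)) := by
    intro s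
    unfold Co
    simp only [← sum_add_distrib, ← sum_sub_distrib, mul_sum]
    apply sum_congr rfl
    intro y _
    linear_combination 2 * f2 (y + s) * E0 y + (α 0 y + α 1 y + α 2 y + α 3 y) * E2 (y + s) +
      2 * f3 (y + s) * E1 y + (α 0 y + α 1 y - α 2 y - α 3 y) * E3 (y + s)
  have K3 : ∀ s, 4 * (Co f0 f3 s + Co f1 f2 s) =
      2 * (Co (α 0) (α 0) s - Co (α 1) (α 1) s - Co (α 2) (α 2) s + Co (α 3) (α 3) s +
        (Co (α 1) (α 0) s - Co (α 0) (α 1) s) + (Co (α 2) (α 3) s - Co (α 3) (α 2) s)) := by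
    intro s
    unfold Co
    simp only [← sum_add_distrib, ← sum_sub_distrib, mul_sum]
    apply sum_congr rfl
    intro y _
    linear_combination 2 * f3 (y + s) * E0 y + (α 0 y + α 1 y + α 2 y + α 3 y) * E3 (y + s) +
      2 * f2 (y + s) * E1 y + (α 0 y + α 1 y - α 2 y - α 3 y) * E2 (y + s)
  refine ⟨![f0, f1, f2, f3], ?_, ?_, h.gen, ?_, ?_, ?_, ?_⟩
  · intro k y
    fin_cases k
    · exact S0 y
    · exact S1 y
    · exact S2 y
    · exact S3 y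
  · intro k y
    fin_cases k
    · change f0 (-y) = f0 y
      rw [hf0]
      simp only [h.even]
    · change f1 (-y) = f1 y
      rw [hf1]
      simp only [h.even]
    · change f2 (-y) = f2 y
      rw [hf2]
      simp only [h.even]
    · change f3 (-y) = f3 y
      rw [hf3]
      simp only [h.even]
  · intro l x hx
    change Co f0 f0 (u l x) + Co f1 f1 (u l x) + Co f2 f2 (u l x) + Co f3 f3 (u l x) = 0
    have e := K0 (u l x)
    rw [h.corr 0 l x hx, h.corr 1 l x hx, h.corr 2 l x hx, h.corr 3 l x hx] at e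
    omega
  · intro l x
    change Co f0 f1 (u l x) + Co f2 f3 (u l x) = 0
    have e := K1 (u l x)
    rw [hsy 2 0, hsy 3 1, hA l x 1 0, hA l x 2 0, hA l x 3 0] at e
    omega
  · intro l x
    change Co f0 f2 (u l x) + Co f1 f3 (u l x) = 0
    have e := K2 (u l x)
    rw [hsy 1 0, hsy 3 2, hA l x 1 0, hA l x 2 0, hA l x 3 0] at e
    omega
  · intro l x
    change Co f0 f3 (u l x) + Co f1 f2 (u l x) = 0
    have e := K3 (u l x)
    rw [hsy 1 0, hsy 3 2, hA l x 1 0, hA l x 2 0, hA l x 3 0] at e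
    omega

end H880H
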