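import Pool.Agent.H880H.Defs

/-! Task T8: the four directions generate -/

set_option autoImplicit false

namespace H880H

open Finset

section field

variable {F : Type} [Field F] [Fintype F] [DecidableEq F]

omit [Fintype F] [DecidableEq F] in
/-- T8 -/
theorem dir_gen (l : Fin 4) (y : F × F × F) :
    ∃ x : Fin 4 → F, x l = 0 ∧ ∑ j, dir F j (x j) = y := by
  obtain ⟨a, b, c⟩ := y
  fin_cases l
  · refine ⟨![0, b - a, c - a, a], by simp, ?_⟩
    simp [dir, Fin.sum_univ_four]
  · refine ⟨![a - b, 0, c - b, b], by simp, ?_⟩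
    simp [dir, Fin.sum_univ_four]
  · refine ⟨![a - c, b - c, 0, c], by simp, ?_⟩
    simp [dir, Fin.sum_univ_four]
  · refine ⟨![a, b, c, 0], by simp, ?_⟩
    simp [dir, Fin.sum_univ_four]

end field

end H880H
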