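import Pool.Agent.H880H.Defs

/-!
# Sums of the quadratic character
-/

set_option autoImplicit false

namespace H880H

open Finset

variable {F : Type} [Field F] [Fintype F] [DecidableEq F]

theorem T9_shift (c : F) (f : F → ℤ) : ∑ x : F, f (x + c) = ∑ x : F, f x :=
  Fintype.sum_equiv (Equiv.addRight c) _ _ (fun _ => rfl)

theorem T9_sq {x : F} (hx : x ≠ 0) : quadraticChar F x ^ 2 = 1 := quadraticChar_sq_one hx

theorem T9_aux (hF : ringChar F ≠ 2) {c : F} (hc : c ≠ 0) :
    ∑ x : F, quadraticChar F (x * (x + c)) = -1 := by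
  have h1 : ∑ x : F, quadraticChar F (x * (x + c)) =
      ∑ x ∈ univ.erase (0:F), quadraticChar F (x * (x + c)) := by
    rw [← Finset.add_sum_erase univ _ (mem_univ (0:F))]
    simp
  have h2 : ∑ x ∈ univ.erase (0:F), quadraticChar F (x * (x + c)) =
      ∑ y ∈ univ.erase (1:F), quadraticChar F y := by
    refine Finset.sum_bij' (fun x _ => 1 + c / x) (fun y _ => c / (y - 1)) ?_ ?_ ?_ ?_ ?_
    · intro x hx
      have hx0 : x ≠ 0 := by simpa using hx
      simp [hx0, hc]
    · intro y hy
      have hy0 : y ≠ 1 := by simpa using hy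
      have : y - 1 ≠ 0 := sub_ne_zero.mpr hy0
      simp [this, hc]
    · intro x hx
      have hx0 : x ≠ 0 := by simpa using hx
      field_simp
      simp [hc]
    · intro y hy
      have hy0 : y ≠ 1 := by simpa using hy
      have : y - 1 ≠ 0 := sub_ne_zero.mpr hy0
      field_simp
      ring
    · intro x hx
      have hx0 : x ≠ 0 := by simpa using hx
      have h3 : x * (x + c) = x ^ 2 * (1 + c / x) := by
        field_simp
      rw [h3, map_mul, map_pow, T9_sq hx0, one_mul]
  have h3 : ∑ y ∈ univ.erase (1:F), quadraticChar F y = -1 := by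
    have := Finset.add_sum_erase univ (fun y : F => quadraticChar F y) (mem_univ (1:F))
    rw [quadraticChar_sum_zero hF] at this
    simp only [map_one] at this
    linarith
  rw [h1, h2, h3]

/-- T9 -/
theorem chi_quad (hF : ringChar F ≠ 2) (a b : F) :
    ∑ x : F, quadraticChar F ((x - a) * (x - b)) =
      if a = b then (Fintype.card F : ℤ) - 1 else -1 := by
  have h1 : ∑ x : F, quadraticChar F ((x - a) * (x - b)) =
      ∑ x : F, quadraticChar F (x * (x + (a - b))) := by
    rw [← T9_shift a]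
    refine Finset.sum_congr rfl fun x _ => ?_
    congr 1
    ring
  rw [h1]
  split_ifs with h
  · subst h
    simp only [sub_self, add_zero]
    have h2 : ∀ x : F, quadraticChar F (x * x) = if x = 0 then 0 else 1 := by
      intro x
      split_ifs with hx
      · simp [hx]
      · rw [← sq, map_pow, T9_sq hx]
    simp only [h2]
    rw [← Finset.add_sum_erase univ _ (mem_univ (0:F))]
    simp only [if_true, zero_add]
    rw [Finset.sum_congr rfl (g := fun _ => (1:ℤ)) (fun x hx => by
      have : x ≠ 0 := by simpa using hx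
      simp [this])]
    rw [Finset.sum_const, Finset.card_erase_of_mem (mem_univ _), Finset.card_univ]
    have : 1 ≤ Fintype.card F := Fintype.card_pos
    simp [Nat.cast_sub this]
  · exact T9_aux hF (sub_ne_zero.mpr h)

theorem T9_filter (f : F → ℤ) : ∑ c ∈ univ.filter (fun c : F => c ≠ 0 ∧ c ≠ 1), f c =
    ∑ c, f c - f 0 - f 1 := by
  have h1 : (univ.filter (fun c : F => c ≠ 0 ∧ c ≠ 1)) = (univ.erase 0).erase 1 := by
    ext c
    simp [and_comm]
  rw [h1]
  have h2 := Finset.add_sum_erase (univ.erase (0:F)) f (a := 1) (by simp)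
  have h3 := Finset.add_sum_erase (univ : Finset F) f (a := 0) (mem_univ _)
  linarith

theorem T9_sum1 (hF : ringChar F ≠ 2) :
    ∑ c ∈ univ.filter (fun c : F => c ≠ 0 ∧ c ≠ 1), quadraticChar F c = -1 := by
  rw [T9_filter, quadraticChar_sum_zero hF]
  simp

theorem T9_sum2 (hF : ringChar F ≠ 2) :
    ∑ c ∈ univ.filter (fun c : F => c ≠ 0 ∧ c ≠ 1), quadraticChar F (c - 1) =
      -quadraticChar F (-1) := by
  rw [T9_filter]
  have : ∑ c : F, quadraticChar F (c - 1) = 0 := by
    rw [← T9_shift 1]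
    simpa using quadraticChar_sum_zero hF
  rw [this]
  simp

theorem T9_sum3 (hF : ringChar F ≠ 2) :
    ∑ c ∈ univ.filter (fun c : F => c ≠ 0 ∧ c ≠ 1),
      quadraticChar F c * quadraticChar F (c - 1) = -1 := by
  rw [T9_filter]
  have : ∑ c : F, quadraticChar F c * quadraticChar F (c - 1) = -1 := by
    have h := chi_quad hF (0:F) 1
    rw [if_neg zero_ne_one] at h
    rw [← h]
    refine Finset.sum_congr rfl fun x _ => ?_
    rw [map_mul, sub_zero]
  rw [this]
  simp

theorem T9_card : ∑ _c ∈ univ.filter (fun c : F => c ≠ 0 ∧ c ≠ 1), (1:ℤ) =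
    (Fintype.card F : ℤ) - 2 := by
  rw [T9_filter]
  simp
  ring

/-- T9 -/
theorem sq_sum (hF : ringChar F ≠ 2) (x y z : ℤ) :
    ∑ c ∈ univ.filter (fun c : F => c ≠ 0 ∧ c ≠ 1),
      (x * quadraticChar F c + y * quadraticChar F (c - 1) +
        z * quadraticChar F (c * (c - 1))) ^ 2 =
    ((Fintype.card F : ℤ) - 2) * (x ^ 2 + y ^ 2 + z ^ 2) - 2 * x * y -
      2 * quadraticChar F (-1) * x * z - 2 * y * z := by
  have h1 : ∀ c ∈ univ.filter (fun c : F => c ≠ 0 ∧ c ≠ 1),
      (x * quadraticChar F c + y * quadraticChar F (c - 1) +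
        z * quadraticChar F (c * (c - 1))) ^ 2 =
      (x ^ 2 + y ^ 2 + z ^ 2) * 1 + 2 * x * y * (quadraticChar F c * quadraticChar F (c - 1)) +
        2 * x * z * quadraticChar F (c - 1) + 2 * y * z * quadraticChar F c := by
    intro c hc
    rw [Finset.mem_filter] at hc
    have h2 := T9_sq hc.2.1
    have h3 := T9_sq (sub_ne_zero.mpr hc.2.2)
    rw [map_mul]
    linear_combination (x ^ 2 + z ^ 2 * quadraticChar F (c - 1) ^ 2 +
      2 * x * z * quadraticChar F (c - 1)) * h2 + (y ^ 2 + z ^ 2 +
      2 * y * z * quadraticChar F c) * h3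
  rw [Finset.sum_congr rfl h1, Finset.sum_add_distrib, Finset.sum_add_distrib,
    Finset.sum_add_distrib, ← Finset.mul_sum, ← Finset.mul_sum, ← Finset.mul_sum,
    ← Finset.mul_sum, T9_sum1 hF, T9_sum2 hF, T9_sum3 hF, T9_card]
  ring

end H880H
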